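import Pool.Agent.LD.A.Kf1

/-!
# LD-Dfac: the determinant

PLAN. `det_id`: put `Q = (q : ℂ)`, `r = (Real.sqrt q : ℂ)`, `r^2 = Q`, `X = Q^s`, `T = Q^t` (`Q ≠ 0`), and
express every power: `Q^(w - 3/2) = Q^(t - s - 1) = T X⁻¹ Q⁻¹`, `Q^(w - 1/2) = T X⁻¹`,
`Q^(w' - 3/2) = Q^(t + s - 3) = T X Q⁻³`, `Q^(w' - 1/2) = T X Q⁻²`, `Q^(s-2) = X Q⁻²`,
`Q^(2s-3) = X² Q⁻³`, `Q^(s-1) = X Q⁻¹`, `Q^(2s-1) = X² Q⁻¹`, `Q^(t-1) = T Q⁻¹`, `Q^(2-t) = Q² T⁻¹`,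
`Q^(2(s-2)) = X² Q⁻⁴` (`Complex.cpow_add`, `Complex.cpow_sub`, `Complex.cpow_natCast`,
`Complex.cpow_mul_nat`/`two_mul` and `cpow_add`), then `field_simp; ring` (checked numerically).
`solve_id`: `K1f` at `(2 - s, t)`: `ww (2 - s) t = wp s t`, `hY.fe` at `2 - s` (`Re (2 - s) < 1/2`) gives
`Y c (2 - s) t = GG c (2 - s) * Y c s t`; `hL.GG_rel g hg (2 - s)` gives
`GG (g e) (2 - s) * kap2 = GG (g p) (2 - s) * kap1`.
-/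

namespace Pool.Agent.LD

open Pool.Agent.QD Pool.Agent.QD.SysD

/-- `q^(t-1) + q^(2-t) - lam` -/
noncomputable def Lam (q : ℕ) (lam : ℝ) (t : ℂ) : ℂ :=
  (q : ℂ) ^ (t - 1) + (q : ℂ) ^ (2 - t) - (lam : ℂ)

noncomputable def kap1 (q : ℕ) (lam : ℝ) (s : ℂ) : ℂ :=
  (q : ℂ) * (1 + (lam : ℂ) * (q : ℂ) ^ (s - 2) + (q : ℂ) ^ (2 * s - 3))

noncomputable def kap2 (q : ℕ) (lam : ℝ) (s : ℂ) : ℂ :=
  1 + (lam : ℂ) * (q : ℂ) ^ (s - 1) + (q : ℂ) ^ (2 * s - 1)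

/-- the determinant -/
noncomputable def dfac (q : ℕ) (lam : ℝ) (s t : ℂ) : ℂ :=
  (Real.sqrt q : ℂ) * ((q : ℂ) - 1) * (q : ℂ) ^ t * Lam q lam t *
    (((q : ℂ) ^ 2)⁻¹ - (q : ℂ) ^ (2 * (s - 2)))

private theorem alg_id (Q X T l r : ℂ) (hQ : Q ≠ 0) (hX : X ≠ 0) (hT : T ≠ 0) :
    r * (1 + T / (X * Q)) * (1 + T * X / Q ^ 2) * (Q * (1 + l * (X / Q ^ 2) + X ^ 2 / Q ^ 3)) -
      (1 + T / X) * (r * (1 + T * X / Q ^ 3)) * (1 + l * (X / Q) + X ^ 2 / Q) =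
    r * (Q - 1) * T * (T / Q + Q ^ 2 / T - l) * ((Q ^ 2)⁻¹ - X ^ 2 / Q ^ 4) := by
  field_simp
  ring

theorem det_id {q : ℕ} (hq : 101 ≤ q) (lam : ℝ) (s t : ℂ) :
    r1 q (ww s t) * r2 q (wp s t) * kap1 q lam s - r2 q (ww s t) * r1 q (wp s t) * kap2 q lam s =
      dfac q lam s t := by
  have hQ : (q : ℂ) ≠ 0 := by
    exact_mod_cast (by omega : q ≠ 0)
  have hX : (q : ℂ) ^ s ≠ 0 := Complex.cpow_ne_zero_iff.mpr (Or.inl hQ)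
  have hT : (q : ℂ) ^ t ≠ 0 := Complex.cpow_ne_zero_iff.mpr (Or.inl hQ)
  have h2s : (q : ℂ) ^ (2 * s) = ((q : ℂ) ^ s) ^ 2 := by
    rw [two_mul, Complex.cpow_add _ _ hQ, sq]
  have e1 : (q : ℂ) ^ (ww s t - 3 / 2) = (q : ℂ) ^ t / ((q : ℂ) ^ s * q) := by
    have : ww s t - 3 / 2 = t - (s + 1) := by unfold ww; ring
    rw [this, Complex.cpow_sub _ _ hQ, Complex.cpow_add _ _ hQ, Complex.cpow_one]
  have e2 : (q : ℂ) ^ (ww s t - 1 / 2) = (q : ℂ) ^ t / (q : ℂ) ^ s := by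
    have : ww s t - 1 / 2 = t - s := by unfold ww; ring
    rw [this, Complex.cpow_sub _ _ hQ]
  have e3 : (q : ℂ) ^ (wp s t - 3 / 2) = (q : ℂ) ^ t * (q : ℂ) ^ s / (q : ℂ) ^ 3 := by
    have : wp s t - 3 / 2 = t + s - 3 := by unfold wp; ring
    rw [this, Complex.cpow_sub _ _ hQ, Complex.cpow_add _ _ hQ, Complex.cpow_ofNat]
  have e4 : (q : ℂ) ^ (wp s t - 1 / 2) = (q : ℂ) ^ t * (q : ℂ) ^ s / (q : ℂ) ^ 2 := by
    have : wp s t - 1 / 2 = t + s - 2 := by unfold wp; ring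
    rw [this, Complex.cpow_sub _ _ hQ, Complex.cpow_add _ _ hQ, Complex.cpow_ofNat]
  have e5 : (q : ℂ) ^ (s - 2) = (q : ℂ) ^ s / (q : ℂ) ^ 2 := by
    rw [Complex.cpow_sub _ _ hQ, Complex.cpow_ofNat]
  have e6 : (q : ℂ) ^ (2 * s - 3) = ((q : ℂ) ^ s) ^ 2 / (q : ℂ) ^ 3 := by
    rw [Complex.cpow_sub _ _ hQ, h2s, Complex.cpow_ofNat]
  have e7 : (q : ℂ) ^ (s - 1) = (q : ℂ) ^ s / (q : ℂ) := by
    rw [Complex.cpow_sub _ _ hQ, Complex.cpow_one]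
  have e8 : (q : ℂ) ^ (2 * s - 1) = ((q : ℂ) ^ s) ^ 2 / (q : ℂ) := by
    rw [Complex.cpow_sub _ _ hQ, h2s, Complex.cpow_one]
  have e9 : (q : ℂ) ^ (t - 1) = (q : ℂ) ^ t / (q : ℂ) := by
    rw [Complex.cpow_sub _ _ hQ, Complex.cpow_one]
  have e10 : (q : ℂ) ^ (2 - t) = (q : ℂ) ^ 2 / (q : ℂ) ^ t := by
    rw [Complex.cpow_sub _ _ hQ, Complex.cpow_ofNat]
  have e11 : (q : ℂ) ^ (2 * (s - 2)) = ((q : ℂ) ^ s) ^ 2 / (q : ℂ) ^ 4 := by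
    have : 2 * (s - 2) = 2 * s - 4 := by ring
    rw [this, Complex.cpow_sub _ _ hQ, h2s, Complex.cpow_ofNat]
  unfold r1 r2 kap1 kap2 dfac Lam
  rw [e1, e2, e3, e4, e5, e6, e7, e8, e9, e10, e11]
  exact alg_id _ _ _ _ _ hQ hX hT

variable {S : SysD} {H : Subgroup S.G} {R : ℝ} {Y : S.G → ℂ → ℂ → ℂ} {e p : S.G} {q : ℕ}
  {lam : ℝ}

theorem solve_id (hL : IsLoc S H e p q lam) (hY : IsY S H R Y) {g : S.G} (hg : g ∈ H) (s t : ℂ)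
    (hs : 3 / 2 < s.re) (ht : R < t.re) (h0 : S.GG (g * p) (2 - s) ≠ 0) :
    r1 q (ww s t) * kap2 q lam s * K1f S Y e p q g (2 - s) t * (S.GG (g * p) (2 - s))⁻¹ -
      r1 q (wp s t) * kap2 q lam s * K1f S Y e p q g s t = dfac q lam s t * Y (g * e) s t := by
  have hge : g * e ∉ H := fun h => hL.e_nm ((H.mul_mem_cancel_left hg).mp h)
  have hgp : g * p ∉ H := fun h => hL.p_nm ((H.mul_mem_cancel_left hg).mp h)
  have hre : (2 - s).re < 1 / 2 := by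
    rw [Complex.sub_re, Complex.re_ofNat]
    linarith
  have e1 : (2 : ℂ) - (2 - s) = s := by ring
  have hYe := hY.fe (g * e) hge (2 - s) t hre ht
  have hYp := hY.fe (g * p) hgp (2 - s) t hre ht
  rw [e1] at hYe hYp
  have hrel := hL.GG_rel g hg (2 - s) hre
  have e2 : (1 : ℂ) - (2 - s) = s - 1 := by ring
  have e3 : (3 : ℂ) - 2 * (2 - s) = 2 * s - 1 := by ring
  have e4 : -(2 - s) = s - 2 := by ring
  have e5 : (1 : ℂ) - 2 * (2 - s) = 2 * s - 3 := by ring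
  rw [e2, e3, e4, e5] at hrel
  have hrel' : S.GG (g * e) (2 - s) * kap2 q lam s = S.GG (g * p) (2 - s) * kap1 q lam s := hrel
  have e6 : ww (2 - s) t = wp s t := by
    unfold ww wp
    ring
  have hd := det_id hL.hq lam s t
  unfold K1f
  rw [e6, hYe, hYp, ← hd]
  set GE := S.GG (g * e) (2 - s)
  set GP := S.GG (g * p) (2 - s)
  set k1 := kap1 q lam s
  set k2 := kap2 q lam s
  have h1 : GE * k2 * GP⁻¹ = k1 := by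
    rw [hrel']
    field_simp
  have h2 : GP * GP⁻¹ = 1 := mul_inv_cancel₀ h0
  linear_combination (r1 q (ww s t) * r2 q (wp s t) * Y (g * e) s t) * h1 -
    (r1 q (ww s t) * k2 * r1 q (wp s t) * Y (g * p) s t) * h2

end Pool.Agent.LD
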