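import Pool.Agent.LD.A.RegA

/-!
# LD-Beta: the functional equation which exchanges `s` and `t`

PLAN. `w = ww s t`, `Re w < 0`; `ww t s = 1 - w`, `Re (1 - w) > 1`.  `DD_fe` (LD/A/DDa) and
`DD_eq` at `1 - w` (`(1 - w - 1)^2 = w^2`):
`w^2 DD m c w = (w-1)^2 (nJ m)^(1/2 - w) (cU^2)⁻¹ ∑ c', M (c c') w * DD m c' (1 - w)`;
`(nJ m)^(-s) (nJ m)^(1/2-w) = (nJ m)^(-t)` as `s + w - 1/2 = t`.  Sum over `m` (`FF_summable` for
`(t, s)` and all `c'`, finite sum over `c'`: `Summable.tsum_finsetSum`), multiply with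
`Pi2 S s t = Pi2 S t s`.
-/

namespace Pool.Agent.LD

open Pool.Agent.QD Pool.Agent.QD.SysD

variable {S : SysD}

private theorem nJ_ne (hS : IsSys0 S) (m : S.J) : (S.nJ m : ℂ) ≠ 0 := by
  have h : S.nJ m ≠ 0 := by
    unfold SysD.nJ
    rw [Finsupp.prod]
    refine Finset.prod_ne_zero_iff.mpr fun v _ => pow_ne_zero _ ?_
    have := hS.hN v
    omega
  exact_mod_cast h

private theorem ww_swap (s t : ℂ) : ww t s = 1 - ww s t := by
  unfold ww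
  ring

private theorem wp_swap (s t : ℂ) : wp t s = wp s t := by
  unfold wp
  ring

private theorem Pi2_swap (s t : ℂ) : Pi2 S t s = Pi2 S s t := by
  unfold Pi2
  rw [wp_swap s t]
  ring

private theorem term_eq (hS : IsSys0 S) (m : S.J) (c : S.G) (s t : ℂ) (hw : (ww s t).re < 0) :
    (ww s t) ^ 2 * ((S.nJ m : ℂ) ^ (-s) * S.DD m c (ww s t)) =
      (ww s t - 1) ^ 2 * ((S.cU : ℂ) ^ 2)⁻¹ *
        ∑ c' : S.G, S.M (c * c') (ww s t) * ((S.nJ m : ℂ) ^ (-t) * S.DD m c' (ww t s)) := by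
  have hw' : 1 < (1 - ww s t).re := by
    rw [Complex.sub_re, Complex.one_re]
    linarith
  have h1 : (S.nJ m : ℂ) ^ (-t) = (S.nJ m : ℂ) ^ (-s) * (S.nJ m : ℂ) ^ (1 / 2 - ww s t) := by
    rw [← Complex.cpow_add _ _ (nJ_ne hS m)]
    congr 1
    unfold ww
    ring
  rw [DD_fe hS m c hw, ww_swap s t, h1]
  have h2 : ∀ c' : S.G, S.M (c * c') (ww s t) * ((S.nJ m : ℂ) ^ (-s) *
      (S.nJ m : ℂ) ^ (1 / 2 - ww s t) * S.DD m c' (1 - ww s t)) =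
      ((S.nJ m : ℂ) ^ (-s) * (S.nJ m : ℂ) ^ (1 / 2 - ww s t) * (ww s t) ^ 2 *
        S.Z1 (1 - ww s t)) * (S.M (c * c') (ww s t) * S.D m c' (1 - ww s t)) := by
    intro c'
    rw [DD_eq hS m c' hw']
    ring
  rw [Finset.sum_congr rfl fun c' _ => h2 c', ← Finset.mul_sum]
  ring

theorem YR_beta (hS : IsSys0 S) : ∃ A0 : ℝ, 6 ≤ A0 ∧ ∀ (c : S.G) (s t : ℂ), A0 < s.re →
    A0 < t.re → (ww s t).re < 0 →
    (ww s t) ^ 2 * YR S c s t = (ww s t - 1) ^ 2 * ((S.cU : ℂ) ^ 2)⁻¹ *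
      ∑ c' : S.G, S.M (c * c') (ww s t) * YR S c' t s := by
  obtain ⟨A0, hA0, H⟩ := FF_summable hS
  refine ⟨A0, hA0, fun c s t hs ht hw => ?_⟩
  have key : (ww s t) ^ 2 * FF S c s t = (ww s t - 1) ^ 2 * ((S.cU : ℂ) ^ 2)⁻¹ *
      ∑ c' : S.G, S.M (c * c') (ww s t) * FF S c' t s := by
    have h1 : ∀ c' : S.G, HasSum (fun m : S.J => S.M (c * c') (ww s t) *
        ((S.nJ m : ℂ) ^ (-t) * S.DD m c' (ww t s))) (S.M (c * c') (ww s t) * FF S c' t s) :=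
      fun c' => (H c' t s ht hs).hasSum.mul_left _
    have h2 : HasSum (fun m : S.J => ∑ c' : S.G, S.M (c * c') (ww s t) *
        ((S.nJ m : ℂ) ^ (-t) * S.DD m c' (ww t s)))
        (∑ c' : S.G, S.M (c * c') (ww s t) * FF S c' t s) :=
      hasSum_sum fun c' _ => h1 c'
    have h3 := h2.mul_left ((ww s t - 1) ^ 2 * ((S.cU : ℂ) ^ 2)⁻¹)
    have h4 : HasSum (fun m : S.J => (ww s t) ^ 2 * ((S.nJ m : ℂ) ^ (-s) * S.DD m c (ww s t)))
        ((ww s t) ^ 2 * FF S c s t) := (H c s t hs ht).hasSum.mul_left _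
    have h5 : (fun m : S.J => (ww s t) ^ 2 * ((S.nJ m : ℂ) ^ (-s) * S.DD m c (ww s t))) =
        fun m : S.J => (ww s t - 1) ^ 2 * ((S.cU : ℂ) ^ 2)⁻¹ *
        ∑ c' : S.G, S.M (c * c') (ww s t) * ((S.nJ m : ℂ) ^ (-t) * S.DD m c' (ww t s)) :=
      funext fun m => term_eq hS m c s t hw
    rw [h5] at h4
    exact h4.unique h3
  unfold YR
  have h6 : ∀ c' : S.G, S.M (c * c') (ww s t) * (Pi2 S t s * FF S c' t s) =
      Pi2 S s t * (S.M (c * c') (ww s t) * FF S c' t s) := by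
    intro c'
    rw [Pi2_swap s t]
    ring
  rw [Finset.sum_congr rfl fun c' _ => h6 c', ← Finset.mul_sum]
  calc (ww s t) ^ 2 * (Pi2 S s t * FF S c s t) = Pi2 S s t * ((ww s t) ^ 2 * FF S c s t) := by ring
    _ = _ := by rw [key]; ring

end Pool.Agent.LD
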