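import Pool.Agent.LD.A.Glob

/-!
# QD-A10: the Euler products `Z1, Lchi, Ls, Lu`

PLAN. `‖(1 - u N^(-w))⁻¹ - 1‖ ≤ 2 N^(-Re w)` for `‖u‖ ≤ 1`, `Re w > 1`, `N ≥ 101`;
`‖Efac v u s - 1‖ ≤ 8 N^(1/2 - Re s)` for `Re s > 3/2` (`|lam| ≤ 2 √N`).  Summable over `v`
(`sumN`), so the products converge absolutely, locally uniformly, are bounded on
`Re w ≥ c > 1` (`Re s ≥ c > 3/2`) by `exp` of the sums, uniformly in `(m, g)`, do not vanish
(every factor is an inverse, `tprod_one_add_ne_zero_of_summable`), and are holomorphic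
(HWR/HolProd.lean and HWR/LocalEst.lean contain the same for a similar product:
`differentiableOn_tprod...`).
-/

namespace Pool.Agent.LD

open Pool.Agent.QD Pool.Agent.QD.SysD

/-! generic infinite products -/

section gen

variable {ι : Type} {f : ι → ℂ → ℂ} {σ₀ : ℝ} {u : ℝ → ι → ℝ}

private theorem eu_sum (hu : ∀ b, σ₀ < b → Summable (u b))
    (hb : ∀ b, σ₀ < b → ∀ s : ℂ, b ≤ s.re → ∀ i, ‖f i s - 1‖ ≤ u b i) {s : ℂ} (hs : σ₀ < s.re) :
    Summable fun i => ‖f i s - 1‖ :=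
  Summable.of_nonneg_of_le (fun _ => norm_nonneg _) (fun i => hb s.re hs s le_rfl i) (hu s.re hs)

private theorem eu_mult {f : ι → ℂ} (h : Summable fun i => ‖f i - 1‖) :
    Multipliable f := by
  have h := multipliable_one_add_of_summable (f := fun i => f i - 1) h
  simpa only [add_sub_cancel] using h

private theorem eu_ne {f : ι → ℂ} (h : Summable fun i => ‖f i - 1‖)
    (h0 : ∀ i, f i ≠ 0) : ∏' i, f i ≠ 0 := by
  have h := tprod_one_add_ne_zero_of_summable (f := fun i => f i - 1)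
    (fun i => by rw [add_sub_cancel]; exact h0 i) h
  simpa only [add_sub_cancel] using h

private theorem eu_bdd {f : ι → ℂ} {v : ι → ℝ} (hv : Summable v) (h : ∀ i, ‖f i - 1‖ ≤ v i) :
    ‖∏' i, f i‖ ≤ Real.exp (∑' i, v i) := by
  have hs : Summable fun i => ‖f i - 1‖ :=
    Summable.of_nonneg_of_le (fun i => norm_nonneg _) h hv
  have h1 := (eu_mult hs).hasProd
  refine le_of_tendsto' h1.norm fun t => ?_
  have h2 := Finset.norm_prod_one_add_sub_one_le t (fun i => f i - 1)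
  simp only [add_sub_cancel] at h2
  have h3 : ∑ i ∈ t, ‖f i - 1‖ ≤ ∑' i, v i := by
    refine (Finset.sum_le_sum fun i _ => h i).trans ?_
    exact hv.sum_le_tsum _ fun i _ => (norm_nonneg _).trans (h i)
  have h4 := norm_le_norm_sub_add (∏ i ∈ t, f i) 1
  rw [norm_one] at h4
  have h5 := Real.exp_le_exp.2 h3
  change ∏ i ∈ t, ‖f i‖ ≤ _
  rw [← norm_prod]
  linarith

private theorem eu_diff (hu : ∀ b, σ₀ < b → Summable (u b))
    (hb : ∀ b, σ₀ < b → ∀ s : ℂ, b ≤ s.re → ∀ i, ‖f i s - 1‖ ≤ u b i)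
    (hd : ∀ i (s : ℂ), σ₀ < s.re → DifferentiableAt ℂ (f i) s) :
    DifferentiableOn ℂ (fun s => ∏' i, f i s) {s : ℂ | σ₀ < s.re} := by
  intro s hs
  have hs' : σ₀ < s.re := hs
  have hb0 : σ₀ < (σ₀ + s.re) / 2 := by linarith
  have hU : IsOpen {z : ℂ | (σ₀ + s.re) / 2 < z.re} := isOpen_lt continuous_const Complex.continuous_re
  have hsU : s ∈ {z : ℂ | (σ₀ + s.re) / 2 < z.re} := by
    change (σ₀ + s.re) / 2 < s.re
    linarith
  have h1 := Summable.hasProdLocallyUniformlyOn_one_add (f := fun i z => f i z - 1) hU (hu _ hb0)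
    (Filter.Eventually.of_forall fun i z hz => hb _ hb0 z (le_of_lt hz) i)
    (fun i z hz => ((hd i z (hb0.trans hz)).continuousAt.sub continuousAt_const).continuousWithinAt)
  simp only [add_sub_cancel] at h1
  rw [hasProdLocallyUniformlyOn_iff_tendstoLocallyUniformlyOn] at h1
  have h2 := h1.differentiableOn (Filter.Eventually.of_forall fun t z hz => by
    refine DifferentiableAt.differentiableWithinAt ?_
    exact DifferentiableAt.fun_finsetProd fun i _ => hd i z (hb0.trans hz)) hU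
  exact (h2.differentiableAt (hU.mem_nhds hsU)).differentiableWithinAt

end gen

/-! local estimates -/

private theorem eu_inv_sub_one {w : ℂ} {y C : ℝ} (hw : ‖w‖ ≤ C * y)
    (h1 : ‖w‖ ≤ 21 / 100) : ‖(1 - w)⁻¹ - 1‖ ≤ 2 * C * y := by
  have d1 : 79 / 100 ≤ ‖1 - w‖ := by
    have h2 : ‖(1 : ℂ)‖ - ‖w‖ ≤ ‖1 - w‖ := norm_sub_norm_le _ _
    rw [norm_one] at h2
    linarith
  have hne : 1 - w ≠ 0 := by
    intro h; rw [h, norm_zero] at d1; linarith
  have e : (1 - w)⁻¹ - 1 = w / (1 - w) := by field_simp; ring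
  rw [e, norm_div, div_le_iff₀ (by linarith)]
  have hC : 0 ≤ C * y := (norm_nonneg _).trans hw
  nlinarith

private theorem eu_one_sub_ne {w : ℂ} (h1 : ‖w‖ ≤ 21 / 100) : 1 - w ≠ 0 := by
  intro h
  have : w = 1 := by linear_combination -h
  rw [this, norm_one] at h1
  linarith

private theorem eu_N {S : SysD} (hS : IsSys0 S) (v : S.ι) : (101 : ℝ) ≤ S.N v := by
  exact_mod_cast hS.hN v

variable {S : SysD}

private theorem eu_norm_cpow (hS : IsSys0 S) (v : S.ι) (w : ℂ) :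
    ‖(S.N v : ℂ) ^ w‖ = (S.N v : ℝ) ^ w.re :=
  Complex.norm_natCast_cpow_of_pos (by have := hS.hN v; omega) w

private theorem eu_rpow_le (hS : IsSys0 S) (v : S.ι) {x y : ℝ} (h : x ≤ y) :
    (S.N v : ℝ) ^ x ≤ (S.N v : ℝ) ^ y :=
  Real.rpow_le_rpow_of_exponent_le (by linarith [eu_N hS v]) h

private theorem eu_rpow_small (hS : IsSys0 S) (v : S.ι) {x : ℝ} (h : x ≤ -1) :
    (S.N v : ℝ) ^ x ≤ 1 / 101 := by
  have hN := eu_N hS v
  refine (eu_rpow_le hS v h).trans ?_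
  rw [Real.rpow_neg_one, ← one_div]
  exact one_div_le_one_div_of_le (by norm_num) hN

private theorem eu_Zw (hS : IsSys0 S) (v : S.ι) {u : ℂ} (hu : ‖u‖ ≤ 1) {c : ℝ} {w : ℂ}
    (hw : c ≤ w.re) : ‖u * (S.N v : ℂ) ^ (-w)‖ ≤ 1 * (S.N v : ℝ) ^ (-c) := by
  have hN := eu_N hS v
  rw [norm_mul, eu_norm_cpow hS]
  refine mul_le_mul hu ?_ (by positivity) (by norm_num)
  apply eu_rpow_le hS
  simp only [Complex.neg_re]
  linarith

private theorem eu_Z (hS : IsSys0 S) (v : S.ι) {u : ℂ} (hu : ‖u‖ ≤ 1) {c : ℝ} (hc : 1 < c) {w : ℂ}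
    (hw : c ≤ w.re) : ‖(1 - u * (S.N v : ℂ) ^ (-w))⁻¹ - 1‖ ≤ 2 * (S.N v : ℝ) ^ (-c) := by
  have h1 := eu_Zw hS v hu hw
  have h2 := eu_rpow_small hS v (x := -c) (by linarith)
  have h3 := eu_inv_sub_one h1 (by linarith)
  linarith

private theorem eu_Znz (hS : IsSys0 S) (v : S.ι) {u : ℂ} (hu : ‖u‖ ≤ 1) {w : ℂ}
    (hw : 1 < w.re) : 1 - u * (S.N v : ℂ) ^ (-w) ≠ 0 := by
  have h1 := eu_Zw hS v hu (le_refl w.re)
  have h2 := eu_rpow_small hS v (x := -w.re) (by linarith)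
  exact eu_one_sub_ne (by linarith)

private noncomputable def euW (S : SysD) (v : S.ι) (u s : ℂ) : ℂ :=
  (S.lam v : ℂ) * u * (S.N v : ℂ) ^ (-s) - u ^ 2 * (S.N v : ℂ) ^ (1 - 2 * s)

private theorem eu_Efac_eq (v : S.ι) (u s : ℂ) : S.Efac v u s = (1 - euW S v u s)⁻¹ := by
  unfold Efac euW
  congr 1
  ring

private theorem eu_W (hS : IsSys0 S) (v : S.ι) {u : ℂ} (hu : ‖u‖ ≤ 1) {c : ℝ} (hc : 3 / 2 < c)
    {s : ℂ} (hs : c ≤ s.re) : ‖euW S v u s‖ ≤ 3 * (S.N v : ℝ) ^ (1 / 2 - c) := by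
  have hN := eu_N hS v
  have hN0 : (0 : ℝ) < S.N v := by linarith
  have hl := hS.hlam v
  unfold euW
  refine (norm_sub_le _ _).trans ?_
  rw [norm_mul, norm_mul, norm_mul, norm_pow, eu_norm_cpow hS, eu_norm_cpow hS, Complex.norm_real,
    Real.norm_eq_abs]
  have e1 : (1 - 2 * s).re = 1 - 2 * s.re := by simp
  have e2 : (-s).re = -s.re := by simp
  rw [e1, e2]
  set y : ℝ := (S.N v : ℝ) ^ (1 / 2 - s.re) with hy
  have hy0 : 0 ≤ y := by positivity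
  have hy1 : y ≤ 1 / 101 := eu_rpow_small hS v (by linarith)
  have hyc : y ≤ (S.N v : ℝ) ^ (1 / 2 - c) := eu_rpow_le hS v (by linarith)
  have e3 : Real.sqrt (S.N v) * (S.N v : ℝ) ^ (-s.re) = y := by
    rw [hy, Real.sqrt_eq_rpow, ← Real.rpow_add hN0]
    congr 1
  have e4 : (S.N v : ℝ) ^ (1 - 2 * s.re) = y ^ 2 := by
    rw [hy, ← Real.rpow_natCast, ← Real.rpow_mul hN0.le]
    congr 1
    push_cast
    ring
  have hu0 := norm_nonneg u
  have hp0 : 0 ≤ (S.N v : ℝ) ^ (-s.re) := by positivity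
  have h1 : |S.lam v| * ‖u‖ * (S.N v : ℝ) ^ (-s.re) ≤ 2 * y := by
    calc |S.lam v| * ‖u‖ * (S.N v : ℝ) ^ (-s.re)
        ≤ (2 * Real.sqrt (S.N v)) * 1 * (S.N v : ℝ) ^ (-s.re) := by gcongr
      _ = 2 * (Real.sqrt (S.N v) * (S.N v : ℝ) ^ (-s.re)) := by ring
      _ = 2 * y := by rw [e3]
  have h2 : ‖u‖ ^ 2 * (S.N v : ℝ) ^ (1 - 2 * s.re) ≤ y := by
    rw [e4]
    have h3 : ‖u‖ ^ 2 ≤ 1 := pow_le_one₀ hu0 hu
    calc ‖u‖ ^ 2 * y ^ 2 ≤ 1 * y ^ 2 := by gcongr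
      _ ≤ y := by nlinarith
  linarith

private theorem eu_E (hS : IsSys0 S) (v : S.ι) {u : ℂ} (hu : ‖u‖ ≤ 1) {c : ℝ} (hc : 3 / 2 < c)
    {s : ℂ} (hs : c ≤ s.re) : ‖S.Efac v u s - 1‖ ≤ 6 * (S.N v : ℝ) ^ (1 / 2 - c) := by
  have h1 := eu_W hS v hu hc hs
  have h2 := eu_rpow_small hS v (x := 1 / 2 - c) (by linarith)
  rw [eu_Efac_eq]
  have h3 := eu_inv_sub_one h1 (by linarith)
  linarith

private theorem eu_Enz (hS : IsSys0 S) (v : S.ι) {u : ℂ} (hu : ‖u‖ ≤ 1) {s : ℂ}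
    (hs : 3 / 2 < s.re) : 1 - euW S v u s ≠ 0 := by
  have h1 := eu_W hS v hu hs (le_refl s.re)
  have h2 := eu_rpow_small hS v (x := 1 / 2 - s.re) (by linarith)
  exact eu_one_sub_ne (by linarith)

private theorem eu_sumZ (hS : IsSys0 S) {c : ℝ} (hc : 1 < c) :
    Summable fun v : S.ι => 2 * (S.N v : ℝ) ^ (-c) := (hS.sumN c hc).mul_left 2

private theorem eu_sumE (hS : IsSys0 S) {c : ℝ} (hc : 3 / 2 < c) :
    Summable fun v : S.ι => 6 * (S.N v : ℝ) ^ (1 / 2 - c) := by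
  have h := (hS.sumN (c - 1 / 2) (by linarith)).mul_left 6
  simpa only [neg_sub] using h

private theorem eu_Z1_eq (w : ℂ) : S.Z1 w = ∏' v, (1 - 1 * (S.N v : ℂ) ^ (-w))⁻¹ := by
  unfold Z1
  simp only [one_mul]

theorem Z1_bd (hS : IsSys0 S) {c : ℝ} (hc : 1 < c) : ∃ C : ℝ, 0 ≤ C ∧ ∀ w : ℂ, c ≤ w.re →
    ‖S.Z1 w‖ ≤ C := by
  refine ⟨Real.exp (∑' v : S.ι, 2 * (S.N v : ℝ) ^ (-c)), (Real.exp_pos _).le, fun w hw => ?_⟩
  rw [eu_Z1_eq]
  exact eu_bdd (eu_sumZ hS hc) fun v => eu_Z hS v (by simp) hc hw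

theorem Lchi_bd (hS : IsSys0 S) {c : ℝ} (hc : 1 < c) : ∃ C : ℝ, 0 ≤ C ∧ ∀ m g, S.R m g →
    ∀ w : ℂ, c ≤ w.re → ‖S.Lchi m g w‖ ≤ C := by
  refine ⟨Real.exp (∑' v : S.ι, 2 * (S.N v : ℝ) ^ (-c)), (Real.exp_pos _).le,
    fun m g hR w hw => ?_⟩
  exact eu_bdd (eu_sumZ hS hc) fun v => eu_Z hS v (u_norm hS v m g hR) hc hw

theorem Ls_bd (hS : IsSys0 S) {c : ℝ} (hc : 3 / 2 < c) : ∃ C : ℝ, 0 ≤ C ∧ ∀ s : ℂ, c ≤ s.re →
    ‖S.Ls s‖ ≤ C := by
  refine ⟨Real.exp (∑' v : S.ι, 6 * (S.N v : ℝ) ^ (1 / 2 - c)), (Real.exp_pos _).le,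
    fun s hs => ?_⟩
  exact eu_bdd (eu_sumE hS hc) fun v => eu_E hS v (by simp) hc hs

theorem Lu_bd (hS : IsSys0 S) {c : ℝ} (hc : 3 / 2 < c) : ∃ C : ℝ, 0 ≤ C ∧ ∀ b g, S.R b g →
    ∀ s : ℂ, c ≤ s.re → ‖S.Lu b g s‖ ≤ C := by
  refine ⟨Real.exp (∑' v : S.ι, 6 * (S.N v : ℝ) ^ (1 / 2 - c)), (Real.exp_pos _).le,
    fun b g hR s hs => ?_⟩
  exact eu_bdd (eu_sumE hS hc) fun v => eu_E hS v (u_norm hS v b g hR) hc hs

theorem Z1_ne (hS : IsSys0 S) {w : ℂ} (hw : 1 < w.re) : S.Z1 w ≠ 0 := by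
  rw [eu_Z1_eq]
  refine eu_ne ?_ fun v => inv_ne_zero (eu_Znz hS v (by simp) hw)
  exact Summable.of_nonneg_of_le (fun _ => norm_nonneg _)
    (fun v => eu_Z hS v (by simp) hw le_rfl) (eu_sumZ hS hw)

theorem Ls_ne (hS : IsSys0 S) {s : ℂ} (hs : 3 / 2 < s.re) : S.Ls s ≠ 0 := by
  unfold Ls
  refine eu_ne ?_ fun v => ?_
  · exact Summable.of_nonneg_of_le (fun _ => norm_nonneg _)
      (fun v => eu_E hS v (by simp) hs le_rfl) (eu_sumE hS hs)
  · rw [eu_Efac_eq]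
    exact inv_ne_zero (eu_Enz hS v (by simp) hs)

private theorem eu_cpow_diff (hS : IsSys0 S) (v : S.ι) (a b : ℂ) :
    Differentiable ℂ fun s : ℂ => (S.N v : ℂ) ^ (a + b * s) := by
  have hN : (S.N v : ℂ) ≠ 0 := by
    have := hS.hN v
    exact_mod_cast (by omega : S.N v ≠ 0)
  intro s
  exact ((differentiableAt_const a).add ((differentiableAt_const b).mul differentiableAt_id)).const_cpow
    (Or.inl hN)

theorem Z1_diff (hS : IsSys0 S) : DifferentiableOn ℂ S.Z1 {w : ℂ | 1 < w.re} := by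
  have h := eu_diff (σ₀ := 1) (f := fun (v : S.ι) w => (1 - 1 * (S.N v : ℂ) ^ (-w))⁻¹)
    (u := fun c v => 2 * (S.N v : ℝ) ^ (-c)) (fun b hb => eu_sumZ hS hb)
    (fun b hb s hs v => eu_Z hS v (by simp) hb hs) (fun v s hs => by
      refine DifferentiableAt.inv ?_ (eu_Znz hS v (by simp) hs)
      have h1 := eu_cpow_diff hS v 0 (-1) s
      have h2 : (fun s : ℂ => (S.N v : ℂ) ^ (0 + -1 * s)) = fun s : ℂ => (S.N v : ℂ) ^ (-s) := by
        funext s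
        congr 1
        ring
      rw [h2] at h1
      exact (differentiableAt_const _).sub ((differentiableAt_const _).mul h1))
  refine h.congr fun w _ => ?_
  exact eu_Z1_eq w

theorem Ls_diff (hS : IsSys0 S) : DifferentiableOn ℂ S.Ls {s : ℂ | 3 / 2 < s.re} := by
  have h := eu_diff (σ₀ := 3 / 2) (f := fun (v : S.ι) s => (1 - euW S v 1 s)⁻¹)
    (u := fun c v => 6 * (S.N v : ℝ) ^ (1 / 2 - c)) (fun b hb => eu_sumE hS hb)
    (fun b hb s hs v => by rw [← eu_Efac_eq]; exact eu_E hS v (by simp) hb hs) (fun v s hs => by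
      refine DifferentiableAt.inv ?_ (eu_Enz hS v (by simp) hs)
      have h1 := eu_cpow_diff hS v 0 (-1) s
      have h2 : (fun s : ℂ => (S.N v : ℂ) ^ (0 + -1 * s)) = fun s : ℂ => (S.N v : ℂ) ^ (-s) := by
        funext s
        congr 1
        ring
      rw [h2] at h1
      have h3 := eu_cpow_diff hS v 1 (-2) s
      have h4 : (fun s : ℂ => (S.N v : ℂ) ^ (1 + -2 * s)) =
          fun s : ℂ => (S.N v : ℂ) ^ (1 - 2 * s) := by
        funext s
        congr 1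
        ring
      rw [h4] at h3
      unfold euW
      exact (differentiableAt_const _).sub (((differentiableAt_const _).mul h1).sub
        ((differentiableAt_const _).mul h3)))
  refine h.congr fun s _ => ?_
  unfold Ls
  simp only [eu_Efac_eq]

/-- for squares the twisted product is `Ls` -/
theorem Lu_sq (hS : IsSys0 S) (f : S.J) (s : ℂ) : S.Lu (2 • f) 1 s = S.Ls s := by
  unfold Lu Ls
  refine tprod_congr fun v => ?_
  rw [hS.u_two]

end Pool.Agent.LD
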