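import Pool.Agent.LD.A.Glob
import Pool.Agent.LD.A.Euler
import Pool.Agent.QD.A.LocCol

/-!
# QD-A12: columns

PLAN. `hJ m b = ∏_{v ∈ supp m ∪ supp b} hloc (m v) (b v)` because `hloc 0 _ = 1`.  So the term is
`∏_{v ∈ supp b} f_v(b_v) * ∏_{v ∈ supp m \ supp b} hloc (m v) 0`, i.e.
`hJ m b * ch m g b * nJ b^(-w) = (∏_{v∈supp m} hloc (m v) 0) * ∏_{v ∈ supp b} F_v(b_v)` needs
division by `hloc (m v) 0`, which may be `0`.  Better: split `b = b' + b''`, `b'` supported in
`supp m` (finitely many coordinates), `b''` outside: the sum over `b''` is an Euler product with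
`f_v(j) = (if Odd j then u v m g else 1) y^j` (local sum `(1 - u y)⁻¹`, `u = ±1`), the sum over
`b'` is the finite product over `v ∈ supp m` of the column sums `col_even`, `col_odd`
(`Finset.prod` of `tsum`s: `ep_hasSum` for finite `ι`, or induction).  Alternative: apply a
version of `ep_hasSum` without the normalisation `f v 0 = 1` at finitely many `v`.
Result: `∏'_{v} (1 - u y)⁻¹ * ∏_{v∈supp m} Qw`; for `m v` odd `u v m g = 0` and the factor
`(1 - u y)⁻¹` is `1`.
-/

namespace Pool.Agent.LD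

open Pool.Agent.QD Pool.Agent.QD.SysD

variable {S : SysD}

section Aux

variable {ι : Type} [DecidableEq ι]

private noncomputable def Fm (f : ι → ℕ → ℂ) (t : Finset ι) (v : ι) (j : ℕ) : ℂ :=
  if v ∈ t then (if j = 0 then 1 else 0) else (if j = 0 then 1 else f v j)

private theorem Fm_zero (f : ι → ℕ → ℂ) (t : Finset ι) (v : ι) : Fm f t v 0 = 1 := by
  simp [Fm]

private theorem Fm_summable (f : ι → ℕ → ℂ) (t : Finset ι)
    (hs : Summable fun p : ι × ℕ => ‖f p.1 (p.2 + 1)‖) :
    Summable fun p : ι × ℕ => ‖Fm f t p.1 (p.2 + 1)‖ := by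
  refine Summable.of_nonneg_of_le (fun _ => norm_nonneg _) (fun p => ?_) hs
  unfold Fm
  by_cases hp : p.1 ∈ t
  · rw [if_pos hp, if_neg (Nat.succ_ne_zero p.2), norm_zero]
    exact norm_nonneg _
  · rw [if_neg hp, if_neg (Nat.succ_ne_zero p.2)]

private theorem row_summable (f : ι → ℕ → ℂ)
    (hs : Summable fun p : ι × ℕ => ‖f p.1 (p.2 + 1)‖) (v : ι) : Summable (f v) := by
  have h1 : Summable fun j => ‖f v (j + 1)‖ := hs.prod_factor v
  exact (summable_nat_add_iff 1).mp h1.of_norm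

private theorem mul_rows (f : ι → ℕ → ℂ) (h0 : ∀ v, f v 0 = 1)
    (hs : Summable fun p : ι × ℕ => ‖f p.1 (p.2 + 1)‖) : Multipliable fun v => ∑' j, f v j := by
  have h1 : ∀ v, ∑' j, f v j = 1 + ∑' j, f v (j + 1) := by
    intro v
    rw [(row_summable f hs v).tsum_eq_zero_add, h0]
  simp_rw [h1]
  apply multipliable_one_add_of_summable
  refine Summable.of_nonneg_of_le (fun _ => norm_nonneg _) (fun v => ?_) hs.prod
  exact norm_tsum_le_tsum_norm (hs.prod_factor v)

private theorem tprod_split (s : Finset ι) (a : ι → ℂ)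
    (h : Multipliable fun v => if v ∈ s then 1 else a v) :
    ∏' v, a v = (∏ v ∈ s, a v) * ∏' v, if v ∈ s then 1 else a v := by
  have h1 : ∀ v ∉ s, (if v ∈ s then a v else 1) = 1 := fun v hv => if_neg hv
  have h2 : ∏' v, (if v ∈ s then a v else 1) = ∏ v ∈ s, a v := by
    rw [tprod_eq_prod h1]
    exact Finset.prod_congr rfl fun v hv => if_pos hv
  rw [← h2, ← (multipliable_of_ne_finset_one h1).tprod_mul h]
  congr 1
  funext v
  split_ifs <;> simp

private theorem term_eq (s : Finset ι) (f : ι → ℕ → ℂ) (h0 : ∀ v, v ∉ s → f v 0 = 1)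
    (b : ι →₀ ℕ) : ∏ v ∈ s ∪ b.support, f v (b v) =
      ∑ t ∈ s.powerset, (∏ v ∈ t, (f v 0 - 1)) * ∏ v ∈ b.support, Fm f t v (b v) := by
  have hun : s ∪ b.support = s ∪ (b.support \ s) := by
    ext v
    simp only [Finset.mem_union, Finset.mem_sdiff]
    tauto
  have hdis : Disjoint s (b.support \ s) := Finset.disjoint_sdiff
  have h1 : ∏ v ∈ s, f v (b v) = ∏ v ∈ s, ((f v 0 - 1) * (if b v = 0 then 1 else 0) +
      (if b v = 0 then 1 else f v (b v))) := by
    apply Finset.prod_congr rfl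
    intro v _
    split_ifs with h
    · rw [h]; ring
    · ring
  have h2 : ∀ t ∈ s.powerset, ∏ v ∈ b.support, Fm f t v (b v) =
      (∏ v ∈ t, (if b v = 0 then (1 : ℂ) else 0)) *
        (∏ v ∈ s \ t, (if b v = 0 then 1 else f v (b v))) *
        ∏ v ∈ b.support \ s, f v (b v) := by
    intro t ht
    rw [Finset.mem_powerset] at ht
    have e1 : ∏ v ∈ b.support, Fm f t v (b v) = ∏ v ∈ s ∪ b.support, Fm f t v (b v) := by
      apply Finset.prod_subset Finset.subset_union_right
      intro v _ hv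
      rw [Finsupp.notMem_support_iff] at hv
      rw [hv, Fm_zero]
    rw [e1, hun, Finset.prod_union hdis]
    congr 1
    · rw [← Finset.prod_sdiff ht, mul_comm]
      congr 1
      · apply Finset.prod_congr rfl
        intro v hv
        unfold Fm
        rw [if_pos hv]
      · apply Finset.prod_congr rfl
        intro v hv
        unfold Fm
        rw [if_neg (Finset.mem_sdiff.mp hv).2]
    · apply Finset.prod_congr rfl
      intro v hv
      rw [Finset.mem_sdiff, Finsupp.mem_support_iff] at hv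
      unfold Fm
      rw [if_neg (fun h => hv.2 (ht h)), if_neg hv.1]
  rw [hun, Finset.prod_union hdis, h1, Finset.prod_add, Finset.sum_mul]
  apply Finset.sum_congr rfl
  intro t ht
  rw [h2 t ht, Finset.prod_mul_distrib]
  ring

private theorem ep_fin_summable (s : Finset ι) (f : ι → ℕ → ℂ) (h0 : ∀ v, v ∉ s → f v 0 = 1)
    (hs : Summable fun p : ι × ℕ => ‖f p.1 (p.2 + 1)‖) :
    Summable fun b : ι →₀ ℕ => ‖∏ v ∈ s ∪ b.support, f v (b v)‖ := by
  have h1 : Summable fun b : ι →₀ ℕ => ∑ t ∈ s.powerset, ‖∏ v ∈ t, (f v 0 - 1)‖ *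
      ‖∏ v ∈ b.support, Fm f t v (b v)‖ := by
    apply summable_sum
    intro t _
    exact (ep_summable (Fm f t) (Fm_zero f t) (Fm_summable f t hs)).mul_left _
  refine Summable.of_nonneg_of_le (fun _ => norm_nonneg _) (fun b => ?_) h1
  rw [term_eq s f h0]
  refine (norm_sum_le _ _).trans (Finset.sum_le_sum fun t _ => ?_)
  rw [norm_mul]

private theorem ep_fin_tsum (s : Finset ι) (f : ι → ℕ → ℂ) (h0 : ∀ v, v ∉ s → f v 0 = 1)
    (hs : Summable fun p : ι × ℕ => ‖f p.1 (p.2 + 1)‖) :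
    ∑' b : ι →₀ ℕ, ∏ v ∈ s ∪ b.support, f v (b v) = ∏' v, ∑' j, f v j := by
  -- the part outside `s`
  have hM := mul_rows (Fm f s) (Fm_zero f s) (Fm_summable f s hs)
  have hFs : ∀ v, ∑' j, Fm f s v j = if v ∈ s then 1 else ∑' j, f v j := by
    intro v
    split_ifs with hv
    · rw [tsum_eq_single 0]
      · exact Fm_zero f s v
      · intro j hj
        unfold Fm
        rw [if_pos hv, if_neg hj]
    · apply tsum_congr
      intro j
      unfold Fm
      rw [if_neg hv]
      split_ifs with hj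
      · rw [hj, h0 v hv]
      · rfl
  simp_rw [hFs] at hM
  have hrow : ∀ t ∈ s.powerset, ∏' v, ∑' j, Fm f t v j =
      (∏ v ∈ s \ t, (∑' j, f v j - (f v 0 - 1))) * ∏' v, if v ∈ s then 1 else ∑' j, f v j := by
    intro t ht
    rw [Finset.mem_powerset] at ht
    have e0 : ∀ v, (if v ∈ s then (1 : ℂ) else ∑' j, Fm f t v j) =
        if v ∈ s then 1 else ∑' j, f v j := by
      intro v
      split_ifs with hv
      · rfl
      · apply tsum_congr
        intro j
        unfold Fm
        rw [if_neg (fun h => hv (ht h))]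
        split_ifs with hj
        · rw [hj, h0 v hv]
        · rfl
    rw [tprod_split s _ (by simp_rw [e0]; exact hM)]
    simp_rw [e0]
    congr 1
    rw [← Finset.prod_sdiff ht]
    have e1 : ∏ v ∈ t, ∑' j, Fm f t v j = 1 := by
      apply Finset.prod_eq_one
      intro v hv
      rw [tsum_eq_single 0]
      · exact Fm_zero f t v
      · intro j hj
        unfold Fm
        rw [if_pos hv, if_neg hj]
    rw [e1, mul_one]
    apply Finset.prod_congr rfl
    intro v hv
    have hvt := (Finset.mem_sdiff.mp hv).2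
    have r1 := row_summable f hs v
    have r2 := row_summable (Fm f t) (Fm_summable f t hs) v
    rw [r1.tsum_eq_zero_add, r2.tsum_eq_zero_add, Fm_zero]
    have : ∑' j, Fm f t v (j + 1) = ∑' j, f v (j + 1) := by
      apply tsum_congr
      intro j
      unfold Fm
      rw [if_neg hvt, if_neg (Nat.succ_ne_zero j)]
    rw [this]
    ring
  simp_rw [term_eq s f h0]
  rw [Summable.tsum_finsetSum (fun t _ =>
    ((ep_summable (Fm f t) (Fm_zero f t) (Fm_summable f t hs)).of_norm).mul_left _)]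
  rw [tprod_split s _ hM]
  have : ∏ v ∈ s, ∑' j, f v j = ∏ v ∈ s, ((f v 0 - 1) + (∑' j, f v j - (f v 0 - 1))) := by
    apply Finset.prod_congr rfl
    intro v _
    ring
  rw [this, Finset.prod_add, Finset.sum_mul]
  apply Finset.sum_congr rfl
  intro t ht
  rw [tsum_mul_left, (ep_hasSum (Fm f t) (Fm_zero f t) (Fm_summable f t hs)).tsum_eq, hrow t ht]
  ring

end Aux

open Classical in
private noncomputable def fc (S : SysD) (m : S.J) (g : S.G) (w : ℂ) (v : S.ι) (j : ℕ) : ℂ :=
  (hloc (S.N v) (S.lam v) (m v) j : ℂ) * (if Odd j then S.u v m g else 1) *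
    ((S.N v : ℂ) ^ (-w)) ^ j

private theorem col_nJ_cpow (b : S.J) (w : ℂ) :
    (S.nJ b : ℂ) ^ (-w) = ∏ v ∈ b.support, ((S.N v : ℂ) ^ (-w)) ^ (b v) := by
  classical
  have h1 : ∀ s : Finset S.ι, ((∏ v ∈ s, S.N v ^ b v : ℕ) : ℂ) ^ (-w) =
      ∏ v ∈ s, ((S.N v : ℂ) ^ (-w)) ^ (b v) := by
    intro s
    induction s using Finset.induction_on with
    | empty => simp
    | insert v s hv ih =>
      rw [Finset.prod_insert hv, Finset.prod_insert hv, Nat.cast_mul,
        Complex.natCast_mul_natCast_cpow, ih]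
      congr 1
      generalize b v = k
      induction k with
      | zero => simp
      | succ k ihk =>
        rw [pow_succ, Nat.cast_mul, Complex.natCast_mul_natCast_cpow, ihk, pow_succ]
  exact h1 b.support

private theorem term_fc (m : S.J) (g : S.G) (w : ℂ) (b : S.J) :
    (S.hJ m b : ℂ) * S.ch m g b * (S.nJ b : ℂ) ^ (-w) =
      letI := Classical.decEq S.ι
      ∏ v ∈ m.support ∪ b.support, fc S m g w v (b v) := by
  classical
  show _ = ∏ v ∈ m.support ∪ b.support, fc S m g w v (b v)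
  unfold fc
  rw [Finset.prod_mul_distrib, Finset.prod_mul_distrib]
  congr 1
  · congr 1
    · unfold hJ
      push_cast
      apply Finset.prod_subset Finset.subset_union_left
      intro v _ hv
      rw [Finsupp.notMem_support_iff] at hv
      rw [hv, hloc_zero, Complex.ofReal_one]
    · unfold ch
      apply Finset.prod_subset Finset.subset_union_right
      intro v _ hv
      rw [Finsupp.notMem_support_iff] at hv
      rw [hv, if_neg (by decide)]
  · rw [col_nJ_cpow]
    apply Finset.prod_subset Finset.subset_union_right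
    intro v _ hv
    rw [Finsupp.notMem_support_iff] at hv
    rw [hv, pow_zero]

private theorem fc_zero (m : S.J) (g : S.G) (w : ℂ) (v : S.ι) (hv : v ∉ m.support) :
    fc S m g w v 0 = 1 := by
  rw [Finsupp.notMem_support_iff] at hv
  unfold fc
  rw [hv, hloc_zero, if_neg (by decide)]
  simp

private theorem y_norm (hS : IsSys0 S) (v : S.ι) (w : ℂ) :
    ‖(S.N v : ℂ) ^ (-w)‖ = (S.N v : ℝ) ^ (-w.re) := by
  have := hS.hN v
  rw [Complex.norm_natCast_cpow_of_pos (by omega)]
  simp

private theorem y_lt (hS : IsSys0 S) (v : S.ι) {w : ℂ} (hw : 1 < w.re) :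
    (S.N v : ℝ) ^ (-w.re) ≤ 1 / 2 := by
  have h1 : (101 : ℝ) ≤ S.N v := by exact_mod_cast hS.hN v
  calc (S.N v : ℝ) ^ (-w.re) ≤ (S.N v : ℝ) ^ (-1 : ℝ) :=
        Real.rpow_le_rpow_of_exponent_le (by linarith) (by linarith)
    _ = (S.N v : ℝ)⁻¹ := Real.rpow_neg_one _
    _ ≤ 1 / 2 := by
        rw [inv_eq_one_div]
        apply one_div_le_one_div_of_le (by norm_num)
        linarith

private theorem fc_summable (hS : IsSys0 S) (m : S.J) (g : S.G) (hm : S.R m g) {w : ℂ}
    (hw : 1 < w.re) : Summable fun p : S.ι × ℕ => ‖fc S m g w p.1 (p.2 + 1)‖ := by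
  classical
  set K : ℝ := ∏ v ∈ m.support, (S.N v : ℝ) ^ (2 * m v) with hK
  have hN1 : ∀ v, (1 : ℝ) ≤ S.N v := by
    intro v
    have h1 : (101 : ℝ) ≤ S.N v := by exact_mod_cast hS.hN v
    linarith
  have hK1 : ∀ v, (S.N v : ℝ) ^ (2 * m v) ≤ K := by
    intro v
    by_cases hv : v ∈ m.support
    · rw [hK, ← Finset.mul_prod_erase _ _ hv]
      apply le_mul_of_one_le_right (by positivity)
      rw [← Finset.prod_const_one]
      apply Finset.prod_le_prod
      · intro i _; norm_num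
      · intro i _; exact one_le_pow₀ (hN1 i)
    · rw [Finsupp.notMem_support_iff] at hv
      rw [hv, mul_zero, pow_zero, hK, ← Finset.prod_const_one]
      apply Finset.prod_le_prod
      · intro i _; norm_num
      · intro i _; exact one_le_pow₀ (hN1 i)
  have hsum : Summable fun p : S.ι × ℕ => (K * (S.N p.1 : ℝ) ^ (-w.re)) * (1 / 2 : ℝ) ^ p.2 := by
    apply Summable.mul_of_nonneg (f := fun v : S.ι => K * (S.N v : ℝ) ^ (-w.re))
      (g := fun j : ℕ => (1 / 2 : ℝ) ^ j)
    · exact (hS.sumN _ hw).mul_left _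
    · exact summable_geometric_of_lt_one (by norm_num) (by norm_num)
    · intro v
      have : (0 : ℝ) ≤ K := le_trans (by positivity) (hK1 v)
      show 0 ≤ K * (S.N v : ℝ) ^ (-w.re)
      positivity
    · intro j
      show (0 : ℝ) ≤ (1 / 2) ^ j
      positivity
  refine Summable.of_nonneg_of_le (fun _ => norm_nonneg _) (fun p => ?_) hsum
  obtain ⟨v, j⟩ := p
  simp only
  unfold fc
  rw [norm_mul, norm_mul, norm_pow, y_norm hS]
  have h1 : ‖(hloc (S.N v) (S.lam v) (m v) (j + 1) : ℂ)‖ ≤ K := by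
    rw [Complex.norm_real, Real.norm_eq_abs]
    exact (hloc_bd (by exact_mod_cast hS.hN v) (hS.hlam v) _ _).trans (hK1 v)
  have h2 : ‖(if Odd (j + 1) then S.u v m g else 1 : ℂ)‖ ≤ 1 := by
    split_ifs
    · exact u_norm hS v m g hm
    · simp
  have h3 : ((S.N v : ℝ) ^ (-w.re)) ^ (j + 1) ≤ (S.N v : ℝ) ^ (-w.re) * (1 / 2 : ℝ) ^ j := by
    rw [pow_succ']
    apply mul_le_mul_of_nonneg_left _ (by positivity)
    exact pow_le_pow_left₀ (by positivity) (y_lt hS v hw) _
  have hK0 : 0 ≤ K := (norm_nonneg _).trans h1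
  calc _ ≤ K * 1 * ((S.N v : ℝ) ^ (-w.re) * (1 / 2 : ℝ) ^ j) := by
        apply mul_le_mul _ h3 (by positivity) (by positivity)
        exact mul_le_mul h1 h2 (norm_nonneg _) hK0
    _ = _ := by ring

theorem C_summable (hS : IsSys0 S) (m : S.J) (g : S.G) (hm : S.R m g) {w : ℂ} (hw : 1 < w.re) :
    Summable fun b : S.J => ‖(S.hJ m b : ℂ) * S.ch m g b * (S.nJ b : ℂ) ^ (-w)‖ := by
  classical
  have h := ep_fin_summable m.support (fc S m g w) (fun v hv => fc_zero m g w v hv)
    (fc_summable hS m g hm hw)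
  simp_rw [term_fc]
  exact h

private theorem fc_tsum (hS : IsSys0 S) (m : S.J) (g : S.G) (hm : S.R m g) {w : ℂ}
    (hw : 1 < w.re) (v : S.ι) :
    ∑' j, fc S m g w v j = (1 - S.u v m g * (S.N v : ℂ) ^ (-w))⁻¹ *
      Qw (S.N v) (S.lam v) (m v) ((if Even (m v) then S.u v m g else 1) *
        (S.N v : ℂ) ^ (-w)) := by
  have hy : ‖(S.N v : ℂ) ^ (-w)‖ < 1 := by
    rw [y_norm hS]
    exact (y_lt hS v hw).trans_lt (by norm_num)
  rcases Nat.even_or_odd (m v) with he | ho
  · rw [if_pos he]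
    exact (col_even (S.N v) (S.lam v) he hy (hS.u_even v m g hm he)).tsum_eq
  · rw [if_neg (Nat.not_even_iff_odd.mpr ho), hS.u_odd v m g hm ho]
    simp only [zero_mul, sub_zero, inv_one, one_mul]
    have := (col_odd (S.N v) (S.lam v) ho hy (S.u v m g)).tsum_eq
    exact this

theorem C_eq (hS : IsSys0 S) (m : S.J) (g : S.G) (hm : S.R m g) {w : ℂ} (hw : 1 < w.re) :
    S.C m g w = S.Lchi m g w * S.Q m g w := by
  classical
  have h := ep_fin_tsum m.support (fc S m g w) (fun v hv => fc_zero m g w v hv)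
    (fc_summable hS m g hm hw)
  unfold SysD.C
  simp_rw [term_fc]
  refine h.trans ?_
  simp_rw [fc_tsum hS m g hm hw]
  have hQ : ∀ v ∉ m.support, Qw (S.N v) (S.lam v) (m v)
      ((if Even (m v) then S.u v m g else 1) * (S.N v : ℂ) ^ (-w)) = 1 := by
    intro v hv
    rw [Finsupp.notMem_support_iff] at hv
    rw [hv, Qw_zero]
  have hL : Multipliable fun v => (1 - S.u v m g * (S.N v : ℂ) ^ (-w))⁻¹ := by
    have e : ∀ v, (1 - S.u v m g * (S.N v : ℂ) ^ (-w))⁻¹ =
        1 + ((1 - S.u v m g * (S.N v : ℂ) ^ (-w))⁻¹ * (S.u v m g * (S.N v : ℂ) ^ (-w))) := by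
      intro v
      have hy : ‖S.u v m g * (S.N v : ℂ) ^ (-w)‖ ≤ 1 / 2 := by
        rw [norm_mul, y_norm hS]
        have h1 := u_norm hS v m g hm
        have h2 := y_lt hS v hw
        calc _ ≤ 1 * (1 / 2 : ℝ) := mul_le_mul h1 h2 (by positivity) (by norm_num)
          _ = 1 / 2 := by ring
      have hne : 1 - S.u v m g * (S.N v : ℂ) ^ (-w) ≠ 0 := by
        intro h0
        have : S.u v m g * (S.N v : ℂ) ^ (-w) = 1 := (sub_eq_zero.mp h0).symm
        rw [this, norm_one] at hy
        norm_num at hy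
      field_simp
      ring
    rw [show (fun v => (1 - S.u v m g * (S.N v : ℂ) ^ (-w))⁻¹) = fun v =>
        1 + ((1 - S.u v m g * (S.N v : ℂ) ^ (-w))⁻¹ * (S.u v m g * (S.N v : ℂ) ^ (-w))) from
      funext e]
    apply multipliable_one_add_of_summable
    refine Summable.of_nonneg_of_le (fun _ => norm_nonneg _) (fun v => ?_)
      ((hS.sumN _ hw).mul_left 2)
    have h1 := u_norm hS v m g hm
    have h2 := y_lt hS v hw
    have h3 : ‖S.u v m g * (S.N v : ℂ) ^ (-w)‖ ≤ (S.N v : ℝ) ^ (-w.re) := by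
      rw [norm_mul, y_norm hS]
      exact mul_le_of_le_one_left (by positivity) h1
    have h4 : (1 / 2 : ℝ) ≤ ‖1 - S.u v m g * (S.N v : ℂ) ^ (-w)‖ := by
      have := norm_sub_norm_le (1 : ℂ) (S.u v m g * (S.N v : ℂ) ^ (-w))
      rw [norm_one] at this
      linarith
    rw [norm_mul, norm_inv]
    apply mul_le_mul _ h3 (norm_nonneg _) (by norm_num)
    calc ‖1 - S.u v m g * (S.N v : ℂ) ^ (-w)‖⁻¹ ≤ (1 / 2 : ℝ)⁻¹ := inv_anti₀ (by norm_num) h4
      _ = 2 := by norm_num
  rw [hL.tprod_mul (multipliable_of_ne_finset_one hQ), tprod_eq_prod hQ]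
  rfl

end Pool.Agent.LD
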