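import Pool.Agent.LD.A.DDa
import Pool.Agent.LD.A.Row

/-!
# LD/A: the double series
-/

namespace Pool.Agent.LD

open Pool.Agent.QD Pool.Agent.QD.SysD

variable {S : SysD}

theorem nJ_cpow_norm (hS : IsSys0 S) (b : S.J) (z : ℂ) :
    ‖(S.nJ b : ℂ) ^ z‖ = (S.nJ b : ℝ) ^ z.re :=
  Complex.norm_natCast_cpow_of_pos (nJ_pos hS b) z

theorem nJ_cpow_add (hS : IsSys0 S) (b : S.J) (z w : ℂ) :
    (S.nJ b : ℂ) ^ z * (S.nJ b : ℂ) ^ w = (S.nJ b : ℂ) ^ (z + w) := by
  have h0 : (S.nJ b : ℂ) ≠ 0 := by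
    have := nJ_pos hS b
    exact_mod_cast this.ne'
  rw [Complex.cpow_add _ _ h0]

open Classical in
/-- the double series -/
noncomputable def dbl (S : SysD) (c : S.G) (s w : ℂ) (m b : S.J) : ℂ :=
  if S.R b c then (S.hJ m b : ℂ) * S.sg m b c * (S.nJ b : ℂ) ^ (-w) * (S.nJ m : ℂ) ^ (-s) else 0

theorem dbl_summable (hS : IsSys0 S) (c : S.G) {s w : ℂ} (hs : 6 ≤ s.re) (hw : 1 < w.re) :
    Summable (Function.uncurry (dbl S c s w)) := by
  have h1 : Summable fun m : S.J => (S.nJ m : ℝ) ^ (-(s.re - 2)) := summable_nJ hS (by linarith)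
  have h2 : Summable fun b : S.J => (S.nJ b : ℝ) ^ (-w.re) := summable_nJ hS hw
  have h3 := h1.mul_of_nonneg h2 (fun m => by positivity) (fun b => by positivity)
  refine Summable.of_norm_bounded h3 ?_
  rintro ⟨m, b⟩
  simp only [Function.uncurry, dbl]
  split_ifs with hR
  · rw [norm_mul, norm_mul, norm_mul, nJ_cpow_norm hS, nJ_cpow_norm hS, Complex.norm_real,
      Real.norm_eq_abs]
    have hm : (0 : ℝ) < S.nJ m := by exact_mod_cast nJ_pos hS m
    have hb : (0 : ℝ) < S.nJ b := by exact_mod_cast nJ_pos hS b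
    have e1 : (S.nJ m : ℝ) ^ (-(s.re - 2)) = (S.nJ m : ℝ) ^ (2 : ℝ) * (S.nJ m : ℝ) ^ (-s).re := by
      rw [← Real.rpow_add hm]
      congr 1
      simp
      ring
    have e2 : (-w).re = -w.re := by simp
    rw [e1, e2]
    calc |S.hJ m b| * ‖S.sg m b c‖ * (S.nJ b : ℝ) ^ (-w.re) * (S.nJ m : ℝ) ^ (-s).re
        ≤ (S.nJ m : ℝ) ^ (2 : ℝ) * 1 * (S.nJ b : ℝ) ^ (-w.re) * (S.nJ m : ℝ) ^ (-s).re := by
          gcongr
          · exact hJ_bd hS m b
          · exact sg_norm hS m b c hR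
      _ = (S.nJ m : ℝ) ^ (2 : ℝ) * (S.nJ m : ℝ) ^ (-s).re * (S.nJ b : ℝ) ^ (-w.re) := by ring
  · rw [norm_zero]
    positivity

open Classical in
theorem dbl_tsum_b (c : S.G) (s w : ℂ) (m : S.J) :
    ∑' b, dbl S c s w m b = (S.nJ m : ℂ) ^ (-s) * S.D m c w := by
  unfold D dbl
  rw [← tsum_mul_left]
  refine tsum_congr fun b => ?_
  split_ifs with hR
  · ring
  · ring

open Classical in
theorem dbl_tsum_m (c : S.G) (s w : ℂ) (b : S.J) :
    ∑' m, dbl S c s w m b = if S.R b c then S.AA b c s * (S.nJ b : ℂ) ^ (-w) else 0 := by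
  unfold AA dbl
  split_ifs with hR
  · rw [← tsum_mul_right]
    refine tsum_congr fun m => ?_
    ring
  · simp

theorem D_summable_m (hS : IsSys0 S) (c : S.G) {s w : ℂ} (hs : 6 ≤ s.re) (hw : 1 < w.re) :
    Summable fun m : S.J => (S.nJ m : ℂ) ^ (-s) * S.D m c w := by
  have := (dbl_summable hS c hs hw).prod
  simp only [Function.uncurry] at this
  simpa only [dbl_tsum_b] using this

open Classical in
theorem AA_summable_b (hS : IsSys0 S) (c : S.G) {s w : ℂ} (hs : 6 ≤ s.re) (hw : 1 < w.re) :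
    Summable fun b : S.J => if S.R b c then S.AA b c s * (S.nJ b : ℂ) ^ (-w) else 0 := by
  have := (dbl_summable hS c hs hw).prod_symm.prod
  simp only [Function.uncurry, Prod.swap] at this
  simpa only [dbl_tsum_m] using this

open Classical in
/-- Fubini -/
theorem fubini_D (hS : IsSys0 S) (c : S.G) {s w : ℂ} (hs : 6 ≤ s.re) (hw : 1 < w.re) :
    ∑' m : S.J, (S.nJ m : ℂ) ^ (-s) * S.D m c w =
      ∑' b : S.J, if S.R b c then S.AA b c s * (S.nJ b : ℂ) ^ (-w) else 0 := by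
  have := (dbl_summable hS c hs hw).tsum_comm
  simp only [dbl_tsum_m, dbl_tsum_b] at this
  exact this.symm

end Pool.Agent.LD
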