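import Pool.Agent.LD.A.Util
import Pool.Agent.LD.A.Bd2
import Pool.Agent.LD.A.Dbl

/-!
# LD-RegA: the series `YR` for `Re s`, `Re t` large

PLAN (adapt `QD/A/Reg1.lean`: `DDB`, `tsum_diff`, `F1_summable`, `F1_bd`).  `DD_bd hS` (LD/A/Bd2)
gives `A1 ≥ 2`; `A0 = max (A1 + 4) 6`.  For `Re s ≥ A1 + 4`, `Re t ≥ 6`, `w = ww s t`:
`max A1 (5/2 - Re w) - Re s ≤ -4` (`5/2 - Re w - Re s = 2 - Re t`), so the terms of `FF` are
`≤ C (nJ m)^(-2) (1 + |Im w|)^A`; `|Im w| ≤ |Im s| + |Im t|`.  Holomorphy along a curve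
`(σ z, τ z)`: `Complex.differentiableOn_tsum_of_summable_norm` on a small ball around `z` (the
curve stays in a compact part of the open region).  Prefactor: `Ls_diff`, `Ls_bd`, `Z1_diff`,
`Z1_bd` (LD/A/Euler).
-/

namespace Pool.Agent.LD

open Pool.Agent.QD Pool.Agent.QD.SysD

variable {S : SysD}

/-- bound for `DD` with exponent `A1` -/
private def DDBd (S : SysD) (A1 : ℝ) : Prop := 2 ≤ A1 ∧ ∀ W : ℝ, ∃ A C : ℝ, 0 ≤ A ∧ 0 ≤ C ∧
    ∀ (m : S.J) (c : S.G) (w : ℂ), |w.re| ≤ W →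
      ‖S.DD m c w‖ ≤ C * (S.nJ m : ℝ) ^ (max A1 (5 / 2 - w.re)) * (1 + |w.im|) ^ A

/-- the bound of the terms of the sum over `m` -/
private theorem term_bd (hS : IsSys0 S) {A1 : ℝ} (hA : DDBd S A1) (W : ℝ) :
    ∃ A C : ℝ, 0 ≤ A ∧ 0 ≤ C ∧
    ∀ (c : S.G) (s t : ℂ), A1 + 4 ≤ s.re → 6 ≤ t.re → |(ww s t).re| ≤ W → ∀ m : S.J,
      ‖(S.nJ m : ℂ) ^ (-s) * S.DD m c (ww s t)‖ ≤
        C * (1 + |(ww s t).im|) ^ A * (S.nJ m : ℝ) ^ (-(2 : ℝ)) := by
  obtain ⟨A, C, hA0, hC0, h⟩ := hA.2 W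
  refine ⟨A, C, hA0, hC0, fun c s t hs ht hw m => ?_⟩
  have hn : 0 < S.nJ m := nJ_pos hS m
  have hn1 : (1 : ℝ) ≤ S.nJ m := by exact_mod_cast hn
  have hnr : (0 : ℝ) < S.nJ m := by linarith
  have h1 := h m c _ hw
  have h2 : ‖(S.nJ m : ℂ) ^ (-s)‖ = (S.nJ m : ℝ) ^ (-s.re) := by
    rw [Complex.norm_natCast_cpow_of_pos hn, Complex.neg_re]
  have h3 : (ww s t).re = t.re - s.re + 1 / 2 := by
    unfold ww
    rw [Complex.add_re, Complex.sub_re]
    norm_num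
  have h4 : -s.re + max A1 (5 / 2 - (ww s t).re) ≤ -(2 : ℝ) := by
    rw [h3]
    rcases max_cases A1 (5 / 2 - (t.re - s.re + 1 / 2)) with ⟨h5, _⟩ | ⟨h5, _⟩ <;> rw [h5] <;> linarith
  rw [norm_mul, h2]
  calc (S.nJ m : ℝ) ^ (-s.re) * ‖S.DD m c (ww s t)‖
      ≤ (S.nJ m : ℝ) ^ (-s.re) * (C * (S.nJ m : ℝ) ^ (max A1 (5 / 2 - (ww s t).re)) *
          (1 + |(ww s t).im|) ^ A) :=
        mul_le_mul_of_nonneg_left h1 (Real.rpow_nonneg hnr.le _)
    _ = C * (1 + |(ww s t).im|) ^ A *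
        (S.nJ m : ℝ) ^ (-s.re + max A1 (5 / 2 - (ww s t).re)) := by
        rw [Real.rpow_add hnr]; ring
    _ ≤ _ := by
        apply mul_le_mul_of_nonneg_left (Real.rpow_le_rpow_of_exponent_le hn1 h4)
        exact mul_nonneg hC0 (Real.rpow_nonneg (by positivity) _)

theorem FF_summable (hS : IsSys0 S) : ∃ A0 : ℝ, 6 ≤ A0 ∧ ∀ (c : S.G) (s t : ℂ), A0 < s.re →
    A0 < t.re → Summable fun m : S.J => (S.nJ m : ℂ) ^ (-s) * S.DD m c (ww s t) := by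
  obtain ⟨A1, hA2, hA1⟩ := DD_bd hS
  refine ⟨max (A1 + 4) 6, le_max_right _ _, fun c s t hs ht => ?_⟩
  obtain ⟨A, C, _, _, h⟩ := term_bd hS ⟨hA2, hA1⟩ |(ww s t).re|
  have h1 : A1 + 4 ≤ s.re := (le_max_left _ _).trans hs.le
  have h2 : 6 ≤ t.re := (le_max_right _ _).trans ht.le
  exact Summable.of_norm (Summable.of_nonneg_of_le (fun m => norm_nonneg _)
    (fun m => h c s t h1 h2 le_rfl m) ((summable_nJ hS one_lt_two).mul_left _))

private theorem nJ_cpow_diff (hS : IsSys0 S) (m : S.J) {σ : ℂ → ℂ} (hσ : Differentiable ℂ σ) :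
    Differentiable ℂ fun z => (S.nJ m : ℂ) ^ (-σ z) := by
  have hn : (S.nJ m : ℂ) ≠ 0 := by exact_mod_cast (nJ_pos hS m).ne'
  exact hσ.neg.const_cpow (Or.inl hn)

private theorem ww_diff {σ τ : ℂ → ℂ} (hσ : Differentiable ℂ σ) (hτ : Differentiable ℂ τ) :
    Differentiable ℂ fun z => ww (σ z) (τ z) := by
  unfold ww
  exact (hτ.sub hσ).add_const _

private theorem wp_diff {σ τ : ℂ → ℂ} (hσ : Differentiable ℂ σ) (hτ : Differentiable ℂ τ) :
    Differentiable ℂ fun z => wp (σ z) (τ z) := by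
  unfold wp
  exact (hτ.add hσ).sub_const _

/-- the sum over `m` is holomorphic -/
private theorem FF_diff (hS : IsSys0 S) {A1 : ℝ} (hA : DDBd S A1) (c : S.G) {σ τ : ℂ → ℂ}
    (hσ : Differentiable ℂ σ) (hτ : Differentiable ℂ τ) {z0 : ℂ}
    (h1 : A1 + 4 < (σ z0).re) (h2 : 6 < (τ z0).re) :
    DifferentiableAt ℂ (fun z => FF S c (σ z) (τ z)) z0 := by
  have hw : Differentiable ℂ fun z => ww (σ z) (τ z) := ww_diff hσ hτ
  set W : ℝ := ‖ww (σ z0) (τ z0)‖ + 1 with hW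
  have hV : IsOpen {z : ℂ | ‖ww (σ z) (τ z)‖ < W} :=
    isOpen_lt hw.continuous.norm continuous_const
  have hU : IsOpen ({z : ℂ | A1 + 4 < (σ z).re} ∩ {z : ℂ | 6 < (τ z).re}) :=
    (isOpen_lt continuous_const (Complex.continuous_re.comp hσ.continuous)).inter
      (isOpen_lt continuous_const (Complex.continuous_re.comp hτ.continuous))
  obtain ⟨A, C, hA0, hC0, hb⟩ := term_bd hS hA W
  have hd : DifferentiableOn ℂ
      (fun z => ∑' m : S.J, (S.nJ m : ℂ) ^ (-σ z) * S.DD m c (ww (σ z) (τ z)))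
      (({z : ℂ | A1 + 4 < (σ z).re} ∩ {z : ℂ | 6 < (τ z).re}) ∩ {z : ℂ | ‖ww (σ z) (τ z)‖ < W}) := by
    refine Complex.differentiableOn_tsum_of_summable_norm
      (u := fun m : S.J => C * (1 + W) ^ A * (S.nJ m : ℝ) ^ (-(2 : ℝ)))
      ((summable_nJ hS one_lt_two).mul_left _) (fun m => ?_) (hU.inter hV) (fun m z hz => ?_)
    · exact ((nJ_cpow_diff hS m hσ).mul ((DD_diff hS m c).comp hw)).differentiableOn
    · have hz2 : ‖ww (σ z) (τ z)‖ < W := hz.2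
      have hz3 : A1 + 4 < (σ z).re := hz.1.1
      have hz4 : 6 < (τ z).re := hz.1.2
      have h1 := hb c (σ z) (τ z) hz3.le hz4.le ((Complex.abs_re_le_norm _).trans hz2.le) m
      refine h1.trans ?_
      apply mul_le_mul_of_nonneg_right _ (Real.rpow_nonneg (by positivity) _)
      apply mul_le_mul_of_nonneg_left _ hC0
      apply Real.rpow_le_rpow (by positivity) _ hA0
      linarith [(Complex.abs_im_le_norm (ww (σ z) (τ z)))]
  refine hd.differentiableAt ((hU.inter hV).mem_nhds ⟨⟨h1, h2⟩, ?_⟩)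
  change ‖ww (σ z0) (τ z0)‖ < W
  rw [hW]; linarith

private theorem Pi2_diff (hS : IsSys0 S) {σ τ : ℂ → ℂ}
    (hσ : Differentiable ℂ σ) (hτ : Differentiable ℂ τ) {z0 : ℂ}
    (h1 : 6 < (σ z0).re) (h2 : 6 < (τ z0).re) :
    DifferentiableAt ℂ (fun z => Pi2 S (σ z) (τ z)) z0 := by
  have hU : IsOpen {s : ℂ | 3 / 2 < s.re} := isOpen_lt continuous_const Complex.continuous_re
  have hV : IsOpen {s : ℂ | 1 < s.re} := isOpen_lt continuous_const Complex.continuous_re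
  have d1 : DifferentiableAt ℂ (fun z => S.Ls (σ z)) z0 :=
    ((Ls_diff hS).differentiableAt (hU.mem_nhds (show 3 / 2 < (σ z0).re by linarith))).comp z0 (hσ z0)
  have d2 : DifferentiableAt ℂ (fun z => S.Ls (τ z)) z0 :=
    ((Ls_diff hS).differentiableAt (hU.mem_nhds (show 3 / 2 < (τ z0).re by linarith))).comp z0 (hτ z0)
  have hw := wp_diff hσ hτ
  have hre : 1 < (wp (σ z0) (τ z0)).re := by
    unfold wp
    rw [Complex.sub_re, Complex.add_re]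
    norm_num
    linarith
  have d4 : DifferentiableAt ℂ S.Z1 (wp (σ z0) (τ z0)) :=
    (Z1_diff hS).differentiableAt (hV.mem_nhds hre)
  have d3 : DifferentiableAt ℂ (fun z => S.Z1 (wp (σ z) (τ z))) z0 :=
    DifferentiableAt.comp (g := S.Z1) (f := fun z => wp (σ z) (τ z)) z0 d4 (hw z0)
  unfold Pi2
  exact (d1.mul d2).mul ((((hw z0).sub_const 1).pow 2).mul d3)

private theorem FF_PB (hS : IsSys0 S) {A1 : ℝ} (hA : DDBd S A1) (c : S.G) {a b c' d : ℝ}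
    (ha : A1 + 4 ≤ a) (hc : 6 ≤ c') : PB (FF S c) a b c' d := by
  obtain ⟨A, C, hA0, hC0, h⟩ := term_bd hS hA (|a| + |b| + |c'| + |d| + 1)
  have hsum := summable_nJ hS one_lt_two
  set T0 : ℝ := ∑' m : S.J, (S.nJ m : ℝ) ^ (-(2 : ℝ)) with hTd
  have hTn : 0 ≤ T0 := tsum_nonneg fun m => Real.rpow_nonneg (by positivity) _
  refine ⟨A, C * T0, hA0, mul_nonneg hC0 hTn, fun s t h1 h2 h3 h4 => ?_⟩
  have hwre : (ww s t).re = t.re - s.re + 1 / 2 := by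
    unfold ww
    rw [Complex.add_re, Complex.sub_re]; norm_num
  have hwim : (ww s t).im = t.im - s.im := by
    unfold ww
    rw [Complex.add_im, Complex.sub_im]; norm_num
  have hw1 : |(ww s t).re| ≤ |a| + |b| + |c'| + |d| + 1 := by
    rw [hwre, abs_le]
    have := abs_nonneg a
    have := abs_nonneg b
    have := abs_nonneg c'
    have := abs_nonneg d
    have := neg_abs_le a
    have := neg_abs_le b
    have := neg_abs_le c'
    have := neg_abs_le d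
    have := le_abs_self a
    have := le_abs_self b
    have := le_abs_self c'
    have := le_abs_self d
    constructor <;> linarith
  have hw2 : 1 + |(ww s t).im| ≤ 1 + |s.im| + |t.im| := by
    rw [hwim]
    have h5 : |t.im - s.im| ≤ |t.im| + |s.im| := abs_sub _ _
    linarith
  have h7 : ∀ m : S.J, ‖(S.nJ m : ℂ) ^ (-s) * S.DD m c (ww s t)‖ ≤
      C * (1 + |(ww s t).im|) ^ A * (S.nJ m : ℝ) ^ (-(2 : ℝ)) :=
    h c s t (ha.trans h1) (hc.trans h3) hw1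
  unfold FF
  calc ‖∑' m : S.J, (S.nJ m : ℂ) ^ (-s) * S.DD m c (ww s t)‖
      ≤ ∑' m : S.J, C * (1 + |(ww s t).im|) ^ A * (S.nJ m : ℝ) ^ (-(2 : ℝ)) :=
        tsum_of_norm_bounded (hsum.mul_left _).hasSum h7
    _ = C * (1 + |(ww s t).im|) ^ A * T0 := by rw [tsum_mul_left]
    _ ≤ C * (1 + |s.im| + |t.im|) ^ A * T0 := by gcongr
    _ = _ := by ring

private theorem Pi2_PB (hS : IsSys0 S) {a b c' d : ℝ} (ha : 6 ≤ a) (hc : 6 ≤ c') :
    PB (Pi2 S) a b c' d := by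
  obtain ⟨Cs, hCs0, hCs⟩ := Ls_bd hS (show (3 / 2 : ℝ) < 2 by norm_num)
  obtain ⟨CZ, hCZ0, hCZ⟩ := Z1_bd hS (show (1 : ℝ) < 2 by norm_num)
  have e1 : PB (fun s _ => S.Ls s) a b c' d := PB.of_bdd ⟨Cs, fun s t h1 h2 h3 h4 =>
    hCs s (by linarith)⟩
  have e2 : PB (fun _ t => S.Ls t) a b c' d := PB.of_bdd ⟨Cs, fun s t h1 h2 h3 h4 =>
    hCs t (by linarith)⟩
  have e3 : PB (fun s t => S.Z1 (wp s t)) a b c' d := PB.of_bdd ⟨CZ, fun s t h1 h2 h3 h4 => by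
    apply hCZ
    unfold wp
    rw [Complex.sub_re, Complex.add_re]
    norm_num
    linarith⟩
  have e4 : PB (fun s t => (wp s t - 1) ^ 2) a b c' d :=
    PB.comp_wp (f := fun w => (w - 1) ^ 2) (x := a + c' - 3 / 2) (y := b + d - 3 / 2)
      (lin_pow_bd 2 1 _ _) le_rfl le_rfl
  exact (e1.mul e2).mul (e4.mul e3)

theorem YR_reg (hS : IsSys0 S) : ∃ A0 : ℝ, 6 ≤ A0 ∧ ∀ c : S.G, Hol2 (UR A0) (YR S c) ∧
    ∀ a b c' d : ℝ, A0 < a → A0 < c' → PB (YR S c) a b c' d := by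
  obtain ⟨A1, hA2, hA1⟩ := DD_bd hS
  have hA : DDBd S A1 := ⟨hA2, hA1⟩
  refine ⟨max (A1 + 4) 6, le_max_right _ _, fun c => ⟨?_, ?_⟩⟩
  · intro σ τ hσ hτ z hz
    obtain ⟨h1, h2⟩ := hz
    have h1' : max (A1 + 4) 6 < (σ z).re := h1
    have h2' : max (A1 + 4) 6 < (τ z).re := h2
    have g1 := (le_max_left (A1 + 4) 6).trans_lt h1'
    have g2 := (le_max_right (A1 + 4) 6).trans_lt h1'
    have g3 := (le_max_right (A1 + 4) 6).trans_lt h2'
    exact (Pi2_diff hS hσ hτ g2 g3).mul (FF_diff hS hA c hσ hτ g1 g3)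
  · intro a b c' d ha hc
    have g1 := (le_max_left (A1 + 4) 6).trans_lt ha
    have g2 := (le_max_right (A1 + 4) 6).trans_lt ha
    have g3 := (le_max_right (A1 + 4) 6).trans_lt hc
    exact (Pi2_PB hS g2.le g3.le).mul (FF_PB hS hA c g1.le g3.le)

end Pool.Agent.LD
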