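import Pool.Agent.QD.A.Defs

/-!
# LD/A, the abstract system with partial knowledge (see `ld_paper.md`)

`H` is a subgroup of the group of classes; the L-functions are only known to continue for the
classes outside `H`.
-/

namespace Pool.Agent.LD

open Pool.Agent.QD
open Pool.Agent.HWR (FinOrd)

/-- The axioms which do not mention the continuation of the twisted L-functions. -/
structure IsSys0 (S : SysD) : Prop where
  cnt : Countable S.ι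
  hN : ∀ v, 101 ≤ S.N v
  sumN : ∀ x : ℝ, 1 < x → Summable fun v => (S.N v : ℝ) ^ (-x)
  hlam : ∀ v, |S.lam v| ≤ 2 * Real.sqrt (S.N v)
  B_mul : ∀ g h k, S.B (g * h) k = S.B g k * S.B h k
  B_comm : ∀ g h, S.B g h = S.B h g
  B_sq : ∀ g h, S.B g h = 1 ∨ S.B g h = -1
  R_ex : ∀ b, ∃ c, S.R b c
  R_one : S.R 0 1
  R_coset : ∀ b c c', S.R b c → (S.R b c' ↔ S.R 0 (c' / c))
  U_perp : ∀ x, S.R 0 x ↔ ∀ y, S.R 0 y → S.B x y = 1
  u_odd : ∀ v b c, S.R b c → Odd (b v) → S.u v b c = 0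
  u_even : ∀ v b c, S.R b c → Even (b v) → S.u v b c = 1 ∨ S.u v b c = -1
  recip : ∀ m g b c, S.R m g → S.R b c → (∀ v, ¬ (Odd (m v) ∧ Odd (b v))) →
    S.sg m b c * S.ch m g b = S.B g c
  R_two : ∀ f : S.J, S.R (2 • f) 1
  u_two : ∀ (f : S.J) v, S.u v (2 • f) 1 = 1
  Zf_diff : ∀ m g, S.R m g → Differentiable ℂ (S.Zf m g)
  Zf_ord : ∀ m g, S.R m g → FinOrd (S.Zf m g)
  Zf_eq : ∀ m g, S.R m g → ∀ w : ℂ, 1 < w.re → S.Zf m g w = (w - 1) ^ 2 * S.Z1 w * S.Lchi m g w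
  Zf_fe : ∀ m g, S.R m g → ∀ w : ℂ, w.re < 0 → S.Zf m g w =
    (w - 1) ^ 2 * (S.odd m : ℂ) ^ (1 / 2 - w) * S.Gam g w * S.Z1 (1 - w) * S.Lchi m g (1 - w)
  Gam_diff : ∀ g, DifferentiableOn ℂ (S.Gam g) {w : ℂ | w.re < 0}
  Gam_bd : ∀ g, PolyStrip 0 (S.Gam g)

/-- The L-functions of the classes outside `H`. -/
structure IsGd (S : SysD) (H : Subgroup S.G) : Prop where
  ell_diff : ∀ b c, S.R b c → c ∉ H → Differentiable ℂ (S.ell b c)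
  ell_ord : ∀ b c, S.R b c → c ∉ H → FinOrd (S.ell b c)
  ell_eq : ∀ b c, S.R b c → c ∉ H → ∀ s : ℂ, 3 / 2 < s.re → S.ell b c s = S.Ls s * S.Lu b c s
  ell_fe : ∀ b c, S.R b c → c ∉ H → ∀ s : ℂ, s.re < 1 / 2 → S.ell b c s =
    (S.odd b : ℂ) ^ (2 * (1 - s)) * S.GG c s * S.ell b c (2 - s)
  GG_diff : ∀ c, DifferentiableOn ℂ (S.GG c) {s : ℂ | s.re < 1 / 2}
  GG_bd : ∀ c, PolyStrip (1 / 2) (S.GG c)
  /-- on the lines `Re s = n + 1/2`, `n` large, the factor `GG c (2 - s)` is invertible -/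
  GG_inv : ∀ c, ∃ n0 : ℕ, ∀ n : ℕ, n0 ≤ n → ∃ A C : ℝ, 0 ≤ A ∧ 0 ≤ C ∧ ∀ s : ℂ,
    s.re = n + 1 / 2 → S.GG c (2 - s) ≠ 0 ∧ ‖(S.GG c (2 - s))⁻¹‖ ≤ C * (1 + |s.im|) ^ A

open Classical in
/-- The local structure at the auxiliary place `v`, `q = N v`, `lam = a_v`: `H` is the subgroup of
the classes which are trivial at `v`, `e` is the class of a nonsquare unit, `p` of a uniformizer. -/
structure IsLoc (S : SysD) (H : Subgroup S.G) (e p : S.G) (q : ℕ) (lam : ℝ) : Prop where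
  hq : 101 ≤ q
  hl : |lam| ≤ 2 * Real.sqrt q
  e_nm : e ∉ H
  p_nm : p ∉ H
  M_rel : ∀ h ∈ H, ∀ w : ℂ, w.re < 0 → (1 + (q : ℂ) ^ (w - 1 / 2)) * S.M (h * e) w =
    ((Real.sqrt q : ℂ) * (1 + (q : ℂ) ^ (w - 3 / 2))) * S.M (h * p) w
  GG_rel : ∀ h ∈ H, ∀ s : ℂ, s.re < 1 / 2 →
    S.GG (h * e) s * (1 + (lam : ℂ) * (q : ℂ) ^ (1 - s) + (q : ℂ) ^ (3 - 2 * s)) =
      S.GG (h * p) s * ((q : ℂ) * (1 + (lam : ℂ) * (q : ℂ) ^ (-s) + (q : ℂ) ^ (1 - 2 * s)))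
  /-- the matrix `M (g h e) (g, h ∈ H)` is invertible up to a polynomial -/
  M_inv : ∀ X : ℝ, 0 < X → ∃ (P : Polynomial ℂ) (Nf : S.G → ℂ → ℂ), P ≠ 0 ∧
    (∀ g, DifferentiableOn ℂ (Nf g) {w : ℂ | -X < w.re ∧ w.re < 0}) ∧
    (∀ (g : S.G) (a b : ℝ), -X < a → b < 0 → ∃ A C : ℝ, 0 ≤ A ∧ 0 ≤ C ∧ ∀ w : ℂ, a ≤ w.re →
      w.re ≤ b → ‖Nf g w‖ ≤ C * (1 + |w.im|) ^ A) ∧
    ∀ h ∈ H, ∀ w : ℂ, -X < w.re → w.re < 0 →
      ∑ g : S.G, (if g ∈ H then Nf g w * S.M (g * h * e) w else 0) =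
        if h = 1 then P.eval w else 0

/-! ### Functions of two variables -/

/-- `f` is holomorphic along all holomorphic curves, at the points of `U` -/
def Hol2 (U : Set (ℂ × ℂ)) (f : ℂ → ℂ → ℂ) : Prop :=
  ∀ σ τ : ℂ → ℂ, Differentiable ℂ σ → Differentiable ℂ τ → ∀ z : ℂ, (σ z, τ z) ∈ U →
    DifferentiableAt ℂ (fun z => f (σ z) (τ z)) z

/-- polynomial growth for `a ≤ Re s ≤ b`, `c ≤ Re t ≤ d` -/
def PB (f : ℂ → ℂ → ℂ) (a b c d : ℝ) : Prop :=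
  ∃ A C : ℝ, 0 ≤ A ∧ 0 ≤ C ∧ ∀ s t : ℂ, a ≤ s.re → s.re ≤ b → c ≤ t.re → t.re ≤ d →
    ‖f s t‖ ≤ C * (1 + |s.im| + |t.im|) ^ A

/-- the first variable of the zeta functions -/
noncomputable def ww (s t : ℂ) : ℂ := t - s + 1 / 2

/-- the second one -/
noncomputable def wp (s t : ℂ) : ℂ := t + s - 3 / 2

section FF

variable (S : SysD)

/-- the double Dirichlet series as a sum over `m` -/
noncomputable def FF (c : S.G) (s t : ℂ) : ℂ :=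
  ∑' m : S.J, (S.nJ m : ℂ) ^ (-s) * S.DD m c (ww s t)

/-- symmetric prefactor -/
noncomputable def Pi2 (s t : ℂ) : ℂ :=
  S.Ls s * S.Ls t * ((wp s t - 1) ^ 2 * S.Z1 (wp s t))

/-- completed series, for `Re s` and `Re t` large -/
noncomputable def YR (c : S.G) (s t : ℂ) : ℂ := Pi2 S s t * FF S c s t

open Classical in
/-- completed series as a sum over `b`, for `Re t` large in terms of `|Re s|` -/
noncomputable def VV (c : S.G) (s t : ℂ) : ℂ :=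
  S.Ls t * ((ww s t - 1) ^ 2 * S.Z1 (ww s t)) * ((wp s t - 1) ^ 2 * S.Z1 (wp s t)) *
    ∑' b : S.J, if S.R b c then S.LL b c s * (S.nJ b : ℂ) ^ (-(ww s t)) else 0

/-- the bad series, normalised -/
noncomputable def Gq (s t : ℂ) : ℂ :=
  YR S 1 t s / ((wp s t - 1) ^ 2 * (ww t s - 1) ^ 2)

/-- region where both real parts are large -/
def UR (A0 : ℝ) : Set (ℂ × ℂ) := {x | A0 < x.1.re ∧ A0 < x.2.re}

end FF

/-- The continuations of the series of the classes outside `H` to `Re t > R`. -/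
structure IsY (S : SysD) (H : Subgroup S.G) (R : ℝ) (Y : S.G → ℂ → ℂ → ℂ) : Prop where
  hol : ∀ c, c ∉ H → Hol2 {x | R < x.2.re} (Y c)
  bd : ∀ c, c ∉ H → ∀ a b c' d : ℝ, R < c' → PB (Y c) a b c' d
  eq : ∀ c, c ∉ H → ∀ s t : ℂ, R < s.re → R < t.re → Y c s t = YR S c s t
  fe : ∀ c, c ∉ H → ∀ s t : ℂ, s.re < 1 / 2 → R < t.re → Y c s t = S.GG c s * Y c (2 - s) t

end Pool.Agent.LD
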