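import Pool.Agent.LD.A.Line
import Pool.Agent.QD.A.Par

/-!
# LD-Extr: the extraction integral is holomorphic

`QD.diff_integral` with the dominating function `const * (1 + |y|) ^ (A - N)`.
-/

namespace Pool.Agent.LD

open Pool.Agent.QD MeasureTheory

theorem extr_diff {σ X1 : ℝ} {V : ℂ → ℂ → ℂ} (hV : OnLine σ 0 X1 V) : ∃ N0 : ℕ, ∀ N : ℕ, N0 ≤ N →
    ∀ (Ψ : ℂ → ℂ) (C : ℝ), 0 ≤ C → Differentiable ℂ Ψ →
    (∀ u : ℂ, ‖Ψ u‖ ≤ C * Real.exp |u.re| * ((1 + |u.im|) ^ N)⁻¹) →
    DifferentiableOn ℂ (fun t => ∫ y : ℝ, V (σ + y * Complex.I) t * Ψ (σ + y * Complex.I - t))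
      {t : ℂ | 0 < t.re ∧ t.re < X1} := by
  obtain ⟨A, C0, hA, hC0, hbd⟩ := hV.bd
  refine ⟨⌈A⌉₊ + 2, fun N hN Ψ C hC hΨ hΨb => ?_⟩
  have hAN : A + 2 ≤ N := by
    have h1 : A ≤ (⌈A⌉₊ : ℝ) := Nat.le_ceil A
    have h2 : ((⌈A⌉₊ + 2 : ℕ) : ℝ) ≤ N := by exact_mod_cast hN
    push_cast at h2
    linarith
  have hre : ∀ y : ℝ, ((σ : ℂ) + y * Complex.I).re = σ := by
    intro y
    simp
  have him : ∀ y : ℝ, ((σ : ℂ) + y * Complex.I).im = y := by
    intro y
    simp
  have hU : IsOpen {t : ℂ | 0 < t.re ∧ t.re < X1} :=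
    (isOpen_lt continuous_const Complex.continuous_re).inter
      (isOpen_lt Complex.continuous_re continuous_const)
  refine diff_integral hU ?_ ?_ ?_
  · intro y
    refine (hV.dif _ (hre y)).mul ?_
    exact (hΨ.comp ((differentiable_const _).sub differentiable_id)).differentiableOn
  · intro t ht
    refine Continuous.aestronglyMeasurable ?_
    refine (hV.con t ht.1 ht.2).mul ?_
    refine hΨ.continuous.comp ?_
    exact (continuous_const.add (Complex.continuous_ofReal.mul continuous_const)).sub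
      continuous_const
  · intro t _
    obtain ⟨K, hK⟩ : ∃ K : ℝ, K = 2 + |t.im| := ⟨_, rfl⟩
    have hK0 : 0 < K := by
      rw [hK]
      positivity
    refine ⟨1, one_pos, fun y => C0 * K ^ A * (C * Real.exp (|σ| + |t.re| + 1)) * K ^ N *
      (1 + ‖y‖) ^ (-((N : ℝ) - A)), ?_, ?_⟩
    · refine Integrable.const_mul ?_ _
      refine integrable_one_add_norm ?_
      rw [Module.finrank_self]
      push_cast
      linarith
    · intro t' ht' htU y
      have h1 : ‖t' - t‖ < 1 := by
        rwa [Metric.mem_ball, dist_eq_norm] at ht'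
      have h2 : |t'.re - t.re| < 1 := by
        rw [← Complex.sub_re]
        exact (Complex.abs_re_le_norm _).trans_lt h1
      have h3 : |t'.im - t.im| < 1 := by
        rw [← Complex.sub_im]
        exact (Complex.abs_im_le_norm _).trans_lt h1
      have h4 : |t'.re| ≤ |t.re| + 1 := by
        have := abs_sub_abs_le_abs_sub t'.re t.re
        linarith
      have h5 : |t'.im| ≤ |t.im| + 1 := by
        have := abs_sub_abs_le_abs_sub t'.im t.im
        linarith
      have hy : 0 < 1 + |y| := by positivity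
      have e1 : ‖V (σ + y * Complex.I) t'‖ ≤ C0 * (K ^ A * (1 + |y|) ^ A) := by
        refine (hbd _ t' (hre y) htU.1 htU.2).trans ?_
        rw [him y, ← Real.mul_rpow hK0.le hy.le]
        refine mul_le_mul_of_nonneg_left ?_ hC0
        refine Real.rpow_le_rpow (by positivity) ?_ hA
        rw [hK]
        nlinarith [abs_nonneg y, abs_nonneg t.im, mul_nonneg (abs_nonneg y) (abs_nonneg t.im)]
      have e2 : ‖Ψ (σ + y * Complex.I - t')‖ ≤ C * Real.exp (|σ| + |t.re| + 1) *
          (K ^ N * ((1 + |y|) ^ N)⁻¹) := by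
        refine (hΨb _).trans ?_
        rw [Complex.sub_re, Complex.sub_im, hre y, him y]
        refine mul_le_mul ?_ ?_ (by positivity) (by positivity)
        · refine mul_le_mul_of_nonneg_left (Real.exp_le_exp.2 ?_) hC
          have := abs_sub σ t'.re
          linarith
        · have h6 : 1 + |y| ≤ K * (1 + |y - t'.im|) := by
            have h7 : |y| ≤ |y - t'.im| + |t'.im| := by
              have := abs_sub_abs_le_abs_sub y t'.im
              linarith
            rw [hK]
            nlinarith [abs_nonneg (y - t'.im), abs_nonneg t.im,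
              mul_nonneg (abs_nonneg (y - t'.im)) (abs_nonneg t.im)]
          have h8 : (1 + |y|) ^ N ≤ K ^ N * (1 + |y - t'.im|) ^ N := by
            rw [← mul_pow]
            exact pow_le_pow_left₀ hy.le h6 N
          have h9 : 0 < (1 + |y - t'.im|) ^ N := by positivity
          have h10 : 0 < (1 + |y|) ^ N := by positivity
          rw [← div_eq_mul_inv, le_div_iff₀ h10, inv_mul_le_iff₀ h9, mul_comm]
          exact h8
      have e3 : (1 + |y|) ^ A * ((1 + |y|) ^ N)⁻¹ = (1 + ‖y‖) ^ (-((N : ℝ) - A)) := by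
        rw [Real.norm_eq_abs, neg_sub, Real.rpow_sub hy, Real.rpow_natCast, div_eq_mul_inv]
      beta_reduce
      rw [norm_mul, ← e3]
      calc ‖V (σ + y * Complex.I) t'‖ * ‖Ψ (σ + y * Complex.I - t')‖
          ≤ (C0 * (K ^ A * (1 + |y|) ^ A)) * (C * Real.exp (|σ| + |t.re| + 1) *
            (K ^ N * ((1 + |y|) ^ N)⁻¹)) :=
            mul_le_mul e1 e2 (norm_nonneg _) (by positivity)
        _ = _ := by ring

end Pool.Agent.LD
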