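import Pool.Agent.LD.A.RegA
import Pool.Agent.LD.A.Euler

/-!
# LD-Gexp: the normalised bad series tends to `Ls t ^ 2`

PLAN. `YR S 1 t s = Ls t * Ls s * ((w' - 1)^2 Z1 w') * FF S 1 t s`, `w' = wp t s = wp s t`,
`FF S 1 t s = ∑' m, nJ m^(-t) DD m 1 w~`, `w~ = ww t s = s - t + 1/2`.  `DD_eq` (LD/A/DDa, `Re w~ > 1`) and
`fubini_D` (LD/A/Dbl): `FF = (w~ - 1)^2 Z1 w~ ∑' b, if R b 1 then AA b 1 t * nJ b^(-w~) else 0`; so
`Gq s t = Ls t * Ls s * Z1 w' * Z1 w~ * ∑' b, ..` (`w~ ≠ 1`, `w' ≠ 1`).  The term `b = 0` is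
`AA 0 1 t = Lu 0 1 t * P 0 1 t = Ls t` (`AA_eq`, `Lu_sq` for `f = 0`, empty product).  For `b ≠ 0` we have
`nJ b ≥ 101` (`nJ_ge`), so `‖nJ b^(-w~)‖ ≤ 101^(-(Re w~ - 2)) nJ b^(-2)` and `AA_summable_b` (LD/A/Dbl) at
`w = 2` gives `‖rest‖ ≤ C 101^(-Re w~)`.
`‖Ls s - 1‖, ‖Z1 w' - 1‖, ‖Z1 w~ - 1‖ ≤ C 101^(-Re s)` for `Re s ≥ t.re + A2`: each is an absolutely
convergent product/Dirichlet series over `J`: `Z1 w = ∑' b, nJ b^(-w)` (or bound
`‖∏ (1 - x_v)⁻¹ - 1‖ ≤ exp (2 ∑ ‖x_v‖) - 1 ≤ C ∑ ‖x_v‖`, with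
`∑ N_v^(-Re w) ≤ 101^(-(Re w - 2)) ∑ N_v^(-2)`).  For `Ls s`: `x_v` of size `3 N_v^(1/2 - Re s)` so
`‖Ls s - 1‖ ≤ C 101^(-Re s)`.  (`Re w~ = Re s - Re t + 1/2`, `Re w' = Re s + Re t - 3/2`; constants may
depend on `t`.)
`Gq_diff`: `YR_reg` along the curve `z ↦ (t, z)` and `w' ≠ 1`, `w~ ≠ 1`.
-/

namespace Pool.Agent.LD

open Pool.Agent.QD Pool.Agent.QD.SysD

variable {S : SysD}

/-! generic estimates -/

private theorem gx_prod {ι : Type} {f : ι → ℂ} {v : ι → ℝ} (hv : Summable v)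
    (h : ∀ i, ‖f i - 1‖ ≤ v i) : ‖(∏' i, f i) - 1‖ ≤ Real.exp (∑' i, v i) - 1 := by
  have hs : Summable fun i => ‖f i - 1‖ :=
    Summable.of_nonneg_of_le (fun i => norm_nonneg _) h hv
  have hm : Multipliable f := by
    have h := multipliable_one_add_of_summable (f := fun i => f i - 1) hs
    simpa only [add_sub_cancel] using h
  have h1 := hm.hasProd
  have h1' : Filter.Tendsto (fun t : Finset ι => (∏ i ∈ t, f i) - 1) Filter.atTop
      (nhds ((∏' i, f i) - 1)) := Filter.Tendsto.sub_const h1 1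
  refine le_of_tendsto' h1'.norm fun t => ?_
  have h2 := Finset.norm_prod_one_add_sub_one_le t (fun i => f i - 1)
  simp only [add_sub_cancel] at h2
  have h3 : ∑ i ∈ t, ‖f i - 1‖ ≤ ∑' i, v i := by
    refine (Finset.sum_le_sum fun i _ => h i).trans ?_
    exact hv.sum_le_tsum _ fun i _ => (norm_nonneg _).trans (h i)
  have h5 := Real.exp_le_exp.2 h3
  linarith

private theorem gx_exp {x X : ℝ} (h0 : 0 ≤ x) (hX : x ≤ X) : Real.exp x - 1 ≤ x * Real.exp X := by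
  have h1 := Real.add_one_le_exp (-x)
  have h2 := Real.exp_pos x
  have h3 : Real.exp x * (-x + 1) ≤ Real.exp x * Real.exp (-x) :=
    mul_le_mul_of_nonneg_left h1 h2.le
  rw [← Real.exp_add, add_neg_cancel, Real.exp_zero] at h3
  have h4 := Real.exp_le_exp.2 hX
  nlinarith

private theorem gx_mul {x y : ℂ} {A B ε : ℝ} (hA : 0 ≤ A) (hB : 0 ≤ B) (h0 : 0 ≤ ε) (h1 : ε ≤ 1)
    (hx : ‖x - 1‖ ≤ A * ε) (hy : ‖y - 1‖ ≤ B * ε) : ‖x * y - 1‖ ≤ (A + B + A * B) * ε := by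
  have e : x * y - 1 = (x - 1) * (y - 1) + (x - 1) + (y - 1) := by ring
  rw [e]
  refine (norm_add_le _ _).trans ?_
  have h2 := norm_add_le ((x - 1) * (y - 1)) (x - 1)
  have h3 : ‖(x - 1) * (y - 1)‖ ≤ (A * ε) * (B * ε) := by
    rw [norm_mul]
    exact mul_le_mul hx hy (norm_nonneg _) (by positivity)
  have h4 : (A * ε) * (B * ε) ≤ A * B * ε := by
    have : ε * ε ≤ ε := by nlinarith
    have hAB : 0 ≤ A * B := by positivity
    nlinarith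
  linarith

private theorem gx_inv_sub_one {w : ℂ} {y C : ℝ} (hw : ‖w‖ ≤ C * y)
    (h1 : ‖w‖ ≤ 21 / 100) : ‖(1 - w)⁻¹ - 1‖ ≤ 2 * C * y := by
  have d1 : 79 / 100 ≤ ‖1 - w‖ := by
    have h2 : ‖(1 : ℂ)‖ - ‖w‖ ≤ ‖1 - w‖ := norm_sub_norm_le _ _
    rw [norm_one] at h2
    linarith
  have hne : 1 - w ≠ 0 := by
    intro h; rw [h, norm_zero] at d1; linarith
  have e : (1 - w)⁻¹ - 1 = w / (1 - w) := by field_simp; ring
  rw [e, norm_div, div_le_iff₀ (by linarith)]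
  have hC : 0 ≤ C * y := (norm_nonneg _).trans hw
  nlinarith

/-- powers of numbers `≥ 101` -/
private theorem gx_pow {N x : ℝ} (hN : 101 ≤ N) (hx : 2 ≤ x) :
    N ^ (-x) ≤ (101 : ℝ) ^ (2 - x) * N ^ (-(2 : ℝ)) := by
  have hN0 : 0 < N := by linarith
  have e : N ^ (-x) = N ^ (2 - x) * N ^ (-(2 : ℝ)) := by
    rw [← Real.rpow_add hN0]
    congr 1
    ring
  rw [e]
  exact mul_le_mul_of_nonneg_right
    (Real.rpow_le_rpow_of_nonpos (by norm_num) hN (by linarith)) (by positivity)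

private theorem gx_norm_cpow (hS : IsSys0 S) (v : S.ι) (w : ℂ) :
    ‖(S.N v : ℂ) ^ w‖ = (S.N v : ℝ) ^ w.re :=
  Complex.norm_natCast_cpow_of_pos (by have := hS.hN v; omega) w

private theorem gx_N (hS : IsSys0 S) (v : S.ι) : (101 : ℝ) ≤ S.N v := by
  exact_mod_cast hS.hN v

private theorem gx_small {x : ℝ} (h : x ≤ -1) {N : ℝ} (hN : 101 ≤ N) : N ^ x ≤ 1 / 101 := by
  have h1 : N ^ x ≤ N ^ (-1 : ℝ) := Real.rpow_le_rpow_of_exponent_le (by linarith) h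
  refine h1.trans ?_
  rw [Real.rpow_neg_one, ← one_div]
  exact one_div_le_one_div_of_le (by norm_num) hN

/-- `Z1` tends to one -/
private theorem gx_Z1 (hS : IsSys0 S) : ∃ K : ℝ, 0 ≤ K ∧ ∀ w : ℂ, 2 ≤ w.re →
    ‖S.Z1 w - 1‖ ≤ K * (101 : ℝ) ^ (-w.re) := by
  have hsum := hS.sumN 2 one_lt_two
  set T : ℝ := ∑' v, (S.N v : ℝ) ^ (-(2 : ℝ)) with hT
  have hT0 : 0 ≤ T := tsum_nonneg fun v => by positivity
  refine ⟨2 * 101 ^ (2 : ℝ) * T * Real.exp (2 * T), by positivity, fun w hw => ?_⟩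
  have h1 : ∀ v, ‖(1 - (S.N v : ℂ) ^ (-w))⁻¹ - 1‖ ≤
      (2 * (101 : ℝ) ^ (2 - w.re)) * (S.N v : ℝ) ^ (-(2 : ℝ)) := by
    intro v
    have hN := gx_N hS v
    have h2 : ‖(S.N v : ℂ) ^ (-w)‖ ≤ 1 * (S.N v : ℝ) ^ (-w.re) := by
      rw [gx_norm_cpow hS, one_mul, Complex.neg_re]
    have h3 : ‖(S.N v : ℂ) ^ (-w)‖ ≤ 21 / 100 := by
      refine h2.trans ?_
      have := gx_small (x := -w.re) (by linarith) hN
      linarith
    have h4 := gx_inv_sub_one h2 h3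
    have h5 := gx_pow hN hw
    linarith
  have h2 := gx_prod (hsum.mul_left (2 * (101 : ℝ) ^ (2 - w.re))) h1
  have h3 : ∑' v, (2 * (101 : ℝ) ^ (2 - w.re)) * (S.N v : ℝ) ^ (-(2 : ℝ)) =
      2 * (101 : ℝ) ^ (2 - w.re) * T := tsum_mul_left
  rw [h3] at h2
  have h4 : (101 : ℝ) ^ (2 - w.re) ≤ 1 :=
    Real.rpow_le_one_of_one_le_of_nonpos (by norm_num) (by linarith)
  have h5 : 2 * (101 : ℝ) ^ (2 - w.re) * T ≤ 2 * T := by
    have : (101 : ℝ) ^ (2 - w.re) * T ≤ 1 * T := mul_le_mul_of_nonneg_right h4 hT0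
    linarith
  have h6 := gx_exp (by positivity : 0 ≤ 2 * (101 : ℝ) ^ (2 - w.re) * T) h5
  have e : (101 : ℝ) ^ (2 - w.re) = 101 ^ (2 : ℝ) * (101 : ℝ) ^ (-w.re) := by
    rw [← Real.rpow_add (by norm_num)]
    congr 1
  have h7 : ‖S.Z1 w - 1‖ ≤ Real.exp (2 * (101 : ℝ) ^ (2 - w.re) * T) - 1 := h2
  refine h7.trans (h6.trans (le_of_eq ?_))
  rw [e]
  ring

/-- `Ls` tends to one -/
private theorem gx_Ls (hS : IsSys0 S) : ∃ K : ℝ, 0 ≤ K ∧ ∀ s : ℂ, 5 / 2 ≤ s.re →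
    ‖S.Ls s - 1‖ ≤ K * (101 : ℝ) ^ (-s.re) := by
  have hsum := hS.sumN 2 one_lt_two
  set T : ℝ := ∑' v, (S.N v : ℝ) ^ (-(2 : ℝ)) with hT
  have hT0 : 0 ≤ T := tsum_nonneg fun v => by positivity
  refine ⟨6 * 101 ^ (5 / 2 : ℝ) * T * Real.exp (6 * T), by positivity, fun s hs => ?_⟩
  have h1 : ∀ v, ‖S.Efac v 1 s - 1‖ ≤
      (6 * (101 : ℝ) ^ (5 / 2 - s.re)) * (S.N v : ℝ) ^ (-(2 : ℝ)) := by
    intro v
    have hN := gx_N hS v
    have hN0 : (0 : ℝ) < S.N v := by linarith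
    set z : ℂ := (S.lam v : ℂ) * (S.N v : ℂ) ^ (-s) - (S.N v : ℂ) ^ (1 - 2 * s) with hz
    set y : ℝ := (S.N v : ℝ) ^ (1 / 2 - s.re) with hy
    have hy0 : 0 ≤ y := by positivity
    have hy1 : y ≤ 1 / 101 := gx_small (by linarith) hN
    have e1 : (1 - 2 * s).re = 1 - 2 * s.re := by simp
    have e2 : (-s).re = -s.re := by simp
    have e3 : Real.sqrt (S.N v) * (S.N v : ℝ) ^ (-s.re) = y := by
      rw [hy, Real.sqrt_eq_rpow, ← Real.rpow_add hN0]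
      congr 1
    have e4 : (S.N v : ℝ) ^ (1 - 2 * s.re) = y ^ 2 := by
      rw [hy, ← Real.rpow_natCast, ← Real.rpow_mul hN0.le]
      congr 1
      push_cast
      ring
    have hz1 : ‖z‖ ≤ 3 * y := by
      rw [hz]
      refine (norm_sub_le _ _).trans ?_
      rw [norm_mul, gx_norm_cpow hS, gx_norm_cpow hS, Complex.norm_real, Real.norm_eq_abs, e1, e2,
        e4]
      have hp0 : 0 ≤ (S.N v : ℝ) ^ (-s.re) := by positivity
      have h5 : |S.lam v| * (S.N v : ℝ) ^ (-s.re) ≤ 2 * y := by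
        calc |S.lam v| * (S.N v : ℝ) ^ (-s.re)
            ≤ (2 * Real.sqrt (S.N v)) * (S.N v : ℝ) ^ (-s.re) :=
              mul_le_mul_of_nonneg_right (hS.hlam v) hp0
          _ = 2 * (Real.sqrt (S.N v) * (S.N v : ℝ) ^ (-s.re)) := by ring
          _ = 2 * y := by rw [e3]
      have h6 : y ^ 2 ≤ y := by nlinarith
      linarith
    have hE : S.Efac v 1 s = (1 - z)⁻¹ := by
      unfold Efac
      rw [hz]
      congr 1
      ring
    have h7 := gx_inv_sub_one hz1 (by linarith)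
    rw [hE]
    refine h7.trans ?_
    have h8 := gx_pow hN (x := s.re - 1 / 2) (by linarith)
    have e5 : -(s.re - 1 / 2) = 1 / 2 - s.re := by ring
    have e6 : 2 - (s.re - 1 / 2) = 5 / 2 - s.re := by ring
    rw [e5, e6, ← hy] at h8
    linarith
  have h2 := gx_prod (hsum.mul_left (6 * (101 : ℝ) ^ (5 / 2 - s.re))) h1
  have h3 : ∑' v, (6 * (101 : ℝ) ^ (5 / 2 - s.re)) * (S.N v : ℝ) ^ (-(2 : ℝ)) =
      6 * (101 : ℝ) ^ (5 / 2 - s.re) * T := tsum_mul_left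
  rw [h3] at h2
  have h4 : (101 : ℝ) ^ (5 / 2 - s.re) ≤ 1 :=
    Real.rpow_le_one_of_one_le_of_nonpos (by norm_num) (by linarith)
  have h5 : 6 * (101 : ℝ) ^ (5 / 2 - s.re) * T ≤ 6 * T := by
    have : (101 : ℝ) ^ (5 / 2 - s.re) * T ≤ 1 * T := mul_le_mul_of_nonneg_right h4 hT0
    linarith
  have h6 := gx_exp (by positivity : 0 ≤ 6 * (101 : ℝ) ^ (5 / 2 - s.re) * T) h5
  have e : (101 : ℝ) ^ (5 / 2 - s.re) = 101 ^ (5 / 2 : ℝ) * (101 : ℝ) ^ (-s.re) := by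
    rw [← Real.rpow_add (by norm_num)]
    congr 1
  have h7 : ‖S.Ls s - 1‖ ≤ Real.exp (6 * (101 : ℝ) ^ (5 / 2 - s.re) * T) - 1 := h2
  refine h7.trans (h6.trans (le_of_eq ?_))
  rw [e]
  ring

open Classical in
/-- the series without its first term -/
private theorem gx_rest (hS : IsSys0 S) {t : ℂ} (ht : 6 < t.re) : ∃ K : ℝ, 0 ≤ K ∧ ∀ w : ℂ,
    2 ≤ w.re → ‖(∑' b : S.J, if S.R b 1 then S.AA b 1 t * (S.nJ b : ℂ) ^ (-w) else 0) - S.Ls t‖ ≤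
      K * (101 : ℝ) ^ (-w.re) := by
  have hs2 := AA_summable_b hS (1 : S.G) (s := t) (w := 2) ht.le (by norm_num)
  have hn2 := hs2.norm
  set T : ℝ := ∑' b : S.J, ‖if S.R b 1 then S.AA b 1 t * (S.nJ b : ℂ) ^ (-(2 : ℂ)) else 0‖ with hT
  have hT0 : 0 ≤ T := tsum_nonneg fun _ => norm_nonneg _
  refine ⟨101 ^ (2 : ℝ) * T, by positivity, fun w hw => ?_⟩
  have hsw := AA_summable_b hS (1 : S.G) (s := t) (w := w) ht.le (by linarith)
  have h0 : (if S.R (0 : S.J) 1 then S.AA 0 1 t * (S.nJ (0 : S.J) : ℂ) ^ (-w) else 0) =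
      S.Ls t := by
    rw [if_pos hS.R_one, nJ_zero, Nat.cast_one, Complex.one_cpow, mul_one,
      AA_eq hS 0 1 hS.R_one ht.le]
    have h1 := Lu_sq hS (0 : S.J) t
    rw [smul_zero] at h1
    rw [h1]
    unfold P
    rw [Finsupp.support_zero, Finset.prod_empty, mul_one]
  rw [hsw.tsum_eq_add_tsum_ite (0 : S.J), h0, add_sub_cancel_left]
  have hterm : ∀ b : S.J, ‖(if b = 0 then 0 else
      if S.R b 1 then S.AA b 1 t * (S.nJ b : ℂ) ^ (-w) else 0)‖ ≤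
      (101 : ℝ) ^ (2 - w.re) *
        ‖if S.R b 1 then S.AA b 1 t * (S.nJ b : ℂ) ^ (-(2 : ℂ)) else 0‖ := by
    intro b
    by_cases hb : b = 0
    · rw [if_pos hb, norm_zero]
      positivity
    · rw [if_neg hb]
      by_cases hR : S.R b 1
      · rw [if_pos hR, if_pos hR, norm_mul, norm_mul, nJ_cpow_norm hS, nJ_cpow_norm hS]
        have hN : (101 : ℝ) ≤ S.nJ b := by exact_mod_cast nJ_ge hS b hb
        have h1 := gx_pow hN hw
        have e1 : (-w).re = -w.re := by simp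
        have e2 : (-(2 : ℂ)).re = -(2 : ℝ) := by simp
        rw [e1, e2]
        calc ‖S.AA b 1 t‖ * (S.nJ b : ℝ) ^ (-w.re)
            ≤ ‖S.AA b 1 t‖ * ((101 : ℝ) ^ (2 - w.re) * (S.nJ b : ℝ) ^ (-(2 : ℝ))) :=
              mul_le_mul_of_nonneg_left h1 (norm_nonneg _)
          _ = (101 : ℝ) ^ (2 - w.re) * (‖S.AA b 1 t‖ * (S.nJ b : ℝ) ^ (-(2 : ℝ))) := by ring
      · rw [if_neg hR, if_neg hR, norm_zero, mul_zero]
  have h1 := tsum_of_norm_bounded (hn2.mul_left ((101 : ℝ) ^ (2 - w.re))).hasSum hterm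
  rw [tsum_mul_left] at h1
  refine h1.trans (le_of_eq ?_)
  have e : (101 : ℝ) ^ (2 - w.re) = 101 ^ (2 : ℝ) * (101 : ℝ) ^ (-w.re) := by
    rw [← Real.rpow_add (by norm_num)]
    congr 1
  rw [e, ← hT]
  ring

theorem Gq_diff (hS : IsSys0 S) : ∃ A2 : ℝ, 6 ≤ A2 ∧ ∀ t : ℂ, A2 < t.re →
    DifferentiableOn ℂ (fun s => Gq S s t) {s : ℂ | t.re + A2 < s.re} := by
  obtain ⟨A0, hA0, hY⟩ := YR_reg hS
  refine ⟨A0, hA0, fun t ht s hs => ?_⟩
  have hs' : t.re + A0 < s.re := hs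
  have h1 := (hY (1 : S.G)).1 (fun _ => t) (fun z => z) (differentiable_const t) differentiable_id s
    (show A0 < t.re ∧ A0 < s.re from ⟨ht, by linarith⟩)
  have e1 : (wp s t).re = t.re + s.re - 3 / 2 := by
    unfold wp
    simp
  have e2 : (ww t s).re = s.re - t.re + 1 / 2 := by
    unfold ww
    simp
  have n1 : wp s t - 1 ≠ 0 := by
    intro h
    have h2 := congrArg Complex.re h
    rw [Complex.sub_re, e1, Complex.one_re, Complex.zero_re] at h2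
    linarith
  have n2 : ww t s - 1 ≠ 0 := by
    intro h
    have h2 := congrArg Complex.re h
    rw [Complex.sub_re, e2, Complex.one_re, Complex.zero_re] at h2
    linarith
  refine DifferentiableAt.differentiableWithinAt ?_
  unfold Gq
  refine h1.div ?_ (mul_ne_zero (pow_ne_zero 2 n1) (pow_ne_zero 2 n2))
  unfold wp ww
  fun_prop

theorem Gq_lim (hS : IsSys0 S) : ∃ A2 : ℝ, 6 ≤ A2 ∧ ∀ t : ℂ, A2 < t.re →
    ∃ C : ℝ, 0 ≤ C ∧ ∀ s : ℂ, t.re + A2 < s.re →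
      ‖Gq S s t - S.Ls t ^ 2‖ ≤ C * (101 : ℝ) ^ (-s.re) := by
  classical
  obtain ⟨K1, hK1, hZ⟩ := gx_Z1 hS
  obtain ⟨K2, hK2, hL⟩ := gx_Ls hS
  refine ⟨6, le_rfl, fun t ht => ?_⟩
  obtain ⟨K3, hK3, hR⟩ := gx_rest hS ht
  set c1 : ℝ := (101 : ℝ) ^ (t.re - 1 / 2) with hc1
  have hc10 : 0 ≤ c1 := by positivity
  set Ka : ℝ := K2 + K1 + K2 * K1 with hKa
  set Kb : ℝ := Ka + K1 * c1 + Ka * (K1 * c1) with hKb
  have hKa0 : 0 ≤ Ka := by positivity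
  have hKb0 : 0 ≤ Kb := by positivity
  refine ⟨‖S.Ls t‖ * (Kb * (‖S.Ls t‖ + K3 * c1) + K3 * c1), by positivity, fun s hs => ?_⟩
  set ε : ℝ := (101 : ℝ) ^ (-s.re) with hε
  have hε0 : 0 ≤ ε := by positivity
  have hε1 : ε ≤ 1 := Real.rpow_le_one_of_one_le_of_nonpos (by norm_num) (by linarith)
  have e1 : (wp s t).re = t.re + s.re - 3 / 2 := by
    unfold wp
    simp
  have e1' : wp t s = wp s t := by
    unfold wp
    ring
  have e2 : (ww t s).re = s.re - t.re + 1 / 2 := by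
    unfold ww
    simp
  have n1 : wp s t - 1 ≠ 0 := by
    intro h
    have h2 := congrArg Complex.re h
    rw [Complex.sub_re, e1, Complex.one_re, Complex.zero_re] at h2
    linarith
  have n2 : ww t s - 1 ≠ 0 := by
    intro h
    have h2 := congrArg Complex.re h
    rw [Complex.sub_re, e2, Complex.one_re, Complex.zero_re] at h2
    linarith
  have hw1 : 1 < (ww t s).re := by
    rw [e2]
    linarith
  have hFF : FF S 1 t s = (ww t s - 1) ^ 2 * S.Z1 (ww t s) *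
      ∑' b : S.J, if S.R b 1 then S.AA b 1 t * (S.nJ b : ℂ) ^ (-(ww t s)) else 0 := by
    rw [← fubini_D hS 1 ht.le hw1, ← tsum_mul_left]
    unfold FF
    refine tsum_congr fun m => ?_
    rw [DD_eq hS m 1 hw1]
    ring
  set X : ℂ := ∑' b : S.J, if S.R b 1 then S.AA b 1 t * (S.nJ b : ℂ) ^ (-(ww t s)) else 0 with hX
  have hG : Gq S s t = S.Ls t * (S.Ls s * S.Z1 (wp s t) * S.Z1 (ww t s) * X) := by
    unfold Gq YR Pi2
    rw [hFF, e1']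
    field_simp
  have b1 : ‖S.Ls s - 1‖ ≤ K2 * ε := hL s (by linarith)
  have b2 : ‖S.Z1 (wp s t) - 1‖ ≤ K1 * ε := by
    refine (hZ (wp s t) (by rw [e1]; linarith)).trans ?_
    refine mul_le_mul_of_nonneg_left ?_ hK1
    rw [e1, hε]
    exact Real.rpow_le_rpow_of_exponent_le (by norm_num) (by linarith)
  have ec : (101 : ℝ) ^ (-(ww t s).re) = c1 * ε := by
    rw [e2, hc1, hε, ← Real.rpow_add (by norm_num)]
    congr 1
    ring
  have b3 : ‖S.Z1 (ww t s) - 1‖ ≤ (K1 * c1) * ε := by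
    refine (hZ (ww t s) (by rw [e2]; linarith)).trans (le_of_eq ?_)
    rw [ec]
    ring
  have b4 : ‖X - S.Ls t‖ ≤ (K3 * c1) * ε := by
    refine (hR (ww t s) (by rw [e2]; linarith)).trans (le_of_eq ?_)
    rw [ec]
    ring
  have b5 : ‖S.Ls s * S.Z1 (wp s t) - 1‖ ≤ Ka * ε := gx_mul hK2 hK1 hε0 hε1 b1 b2
  have b6 : ‖S.Ls s * S.Z1 (wp s t) * S.Z1 (ww t s) - 1‖ ≤ Kb * ε :=
    gx_mul hKa0 (by positivity) hε0 hε1 b5 b3
  set Y : ℂ := S.Ls s * S.Z1 (wp s t) * S.Z1 (ww t s) with hYd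
  have e3 : Gq S s t - S.Ls t ^ 2 = S.Ls t * ((Y - 1) * X + (X - S.Ls t)) := by
    rw [hG]
    ring
  have b7 : ‖X‖ ≤ ‖S.Ls t‖ + K3 * c1 := by
    have h1 : ‖X‖ ≤ ‖X - S.Ls t‖ + ‖S.Ls t‖ := by
      have := norm_add_le (X - S.Ls t) (S.Ls t)
      rwa [sub_add_cancel] at this
    have h2 : (K3 * c1) * ε ≤ (K3 * c1) * 1 := mul_le_mul_of_nonneg_left hε1 (by positivity)
    linarith
  rw [e3, norm_mul, mul_assoc]
  refine mul_le_mul_of_nonneg_left ?_ (norm_nonneg _)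
  refine (norm_add_le _ _).trans ?_
  rw [norm_mul]
  have h8 : ‖Y - 1‖ * ‖X‖ ≤ (Kb * ε) * (‖S.Ls t‖ + K3 * c1) :=
    mul_le_mul b6 b7 (norm_nonneg _) (by positivity)
  calc ‖Y - 1‖ * ‖X‖ + ‖X - S.Ls t‖ ≤ (Kb * ε) * (‖S.Ls t‖ + K3 * c1) + (K3 * c1) * ε :=
        add_le_add h8 b4
    _ = (Kb * (‖S.Ls t‖ + K3 * c1) + K3 * c1) * ε := by ring

end Pool.Agent.LD
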