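import Pool.Agent.LD.A.Util
import Pool.Agent.QD.A.Par
import Pool.Agent.QD.A.Cau

/-!
# LD-Hart: continuation along `s + t = const`

A function of two variables which is known for `Re t > R` is continued, along the lines
`s + t = const`, by the Cauchy integral in a strip; on the right side of the strip the second
representation is used.
-/

namespace Pool.Agent.LD

open Pool.Agent.QD
open MeasureTheory Filter Topology
open Pool.Agent.QD.SysD (kern kern_bd strip_cauchy)

/-! ### one side of the strip -/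

/-- the integral over one side of the strip -/
private noncomputable def J (K : ℂ → ℂ → ℂ) (x : ℝ) (s t : ℂ) : ℂ :=
  ∫ y : ℝ, K (x + y * Complex.I) (s + t - (x + y * Complex.I)) * kern (x + y * Complex.I - s)

private theorem gauss2 (σ : ℝ) :
    Integrable (fun y : ℝ => Real.exp (-(y - σ) ^ 2 / 2)) := by
  have h1 := (integrable_exp_neg_mul_sq (b := 1 / 2) (by norm_num)).comp_sub_right σ
  refine h1.congr (Eventually.of_forall fun y => ?_)
  simp only
  congr 1
  ring

private theorem gauss4 (σ : ℝ) :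
    Integrable (fun y : ℝ => Real.exp (-(y - σ) ^ 2 / 4)) := by
  have h1 := (integrable_exp_neg_mul_sq (b := 1 / 4) (by norm_num)).comp_sub_right σ
  refine h1.congr (Eventually.of_forall fun y => ?_)
  simp only
  congr 1
  ring

private theorem gauss_const (σ : ℝ) :
    ∫ y : ℝ, Real.exp (-(y - σ) ^ 2 / 2) = ∫ y : ℝ, Real.exp (-y ^ 2 / 2) :=
  integral_sub_right_eq_self (fun y : ℝ => Real.exp (-y ^ 2 / 2)) σ

/-- growth against the Gaussian -/
private theorem growth2 (A p q y : ℝ) (hA : 0 ≤ A) :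
    (1 + |y| + |p + q - y|) ^ A * Real.exp (-(y - p) ^ 2) ≤
      Real.exp (2 * A ^ 2) * (1 + |p| + |q|) ^ A * Real.exp (-(y - p) ^ 2 / 2) := by
  have h0 : 1 + |y| + |p + q - y| ≤ (1 + |p| + |q|) * (1 + 2 * |y - p|) := by
    have e1 : |y| ≤ |p| + |y - p| := by
      have := abs_add_le p (y - p)
      rwa [add_sub_cancel] at this
    have e2 : |p + q - y| ≤ |q| + |y - p| := by
      have := abs_sub q (y - p)
      rwa [show q - (y - p) = p + q - y by ring] at this
    have e3 : 0 ≤ |p| * |y - p| := by positivity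
    have e4 : 0 ≤ |q| * |y - p| := by positivity
    calc 1 + |y| + |p + q - y| ≤ 1 + (|p| + |y - p|) + (|q| + |y - p|) := by linarith
      _ ≤ 1 + (|p| + |y - p|) + (|q| + |y - p|) + 2 * (|p| * |y - p|) + 2 * (|q| * |y - p|) := by
          linarith
      _ = (1 + |p| + |q|) * (1 + 2 * |y - p|) := by ring
  have h1 : (1 + 2 * |y - p|) ^ A ≤ Real.exp (2 * A * |y - p|) := by
    rw [Real.rpow_def_of_pos (by positivity)]
    apply Real.exp_le_exp.mpr
    have h2 := Real.log_le_sub_one_of_pos (show (0 : ℝ) < 1 + 2 * |y - p| by positivity)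
    calc Real.log (1 + 2 * |y - p|) * A ≤ (2 * |y - p|) * A :=
          mul_le_mul_of_nonneg_right (by linarith) hA
      _ = 2 * A * |y - p| := by ring
  have h3 : (1 + |y| + |p + q - y|) ^ A ≤ (1 + |p| + |q|) ^ A * Real.exp (2 * A * |y - p|) := by
    calc (1 + |y| + |p + q - y|) ^ A ≤ ((1 + |p| + |q|) * (1 + 2 * |y - p|)) ^ A :=
          Real.rpow_le_rpow (by positivity) h0 hA
      _ = (1 + |p| + |q|) ^ A * (1 + 2 * |y - p|) ^ A :=
          Real.mul_rpow (by positivity) (by positivity)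
      _ ≤ _ := mul_le_mul_of_nonneg_left h1 (by positivity)
  have h4 : Real.exp (2 * A * |y - p|) * Real.exp (-(y - p) ^ 2) ≤
      Real.exp (2 * A ^ 2) * Real.exp (-(y - p) ^ 2 / 2) := by
    rw [← Real.exp_add, ← Real.exp_add]
    apply Real.exp_le_exp.mpr
    have h5 : (y - p) ^ 2 = |y - p| ^ 2 := (sq_abs _).symm
    rw [neg_div, h5]
    have h6 := sq_nonneg (2 * A - |y - p|)
    have h7 : (2 * A - |y - p|) ^ 2 = 4 * A ^ 2 - 4 * A * |y - p| + |y - p| ^ 2 := by ring
    linarith
  calc (1 + |y| + |p + q - y|) ^ A * Real.exp (-(y - p) ^ 2)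
      ≤ ((1 + |p| + |q|) ^ A * Real.exp (2 * A * |y - p|)) * Real.exp (-(y - p) ^ 2) :=
        mul_le_mul_of_nonneg_right h3 (Real.exp_pos _).le
    _ = (1 + |p| + |q|) ^ A * (Real.exp (2 * A * |y - p|) * Real.exp (-(y - p) ^ 2)) := by ring
    _ ≤ (1 + |p| + |q|) ^ A * (Real.exp (2 * A ^ 2) * Real.exp (-(y - p) ^ 2 / 2)) :=
        mul_le_mul_of_nonneg_left h4 (by positivity)
    _ = _ := by ring

private theorem shift_exp (y p p' : ℝ) (h : |p' - p| ≤ 1) :
    Real.exp (-(y - p') ^ 2 / 2) ≤ Real.exp (1 / 2) * Real.exp (-(y - p) ^ 2 / 4) := by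
  rw [← Real.exp_add]
  apply Real.exp_le_exp.mpr
  have h1 : (p' - p) ^ 2 ≤ 1 := by
    rw [← sq_abs]
    calc |p' - p| ^ 2 ≤ 1 ^ 2 := pow_le_pow_left₀ (abs_nonneg _) h 2
      _ = 1 := one_pow 2
  have h2 : (y - p) ^ 2 ≤ 2 * (y - p') ^ 2 + 2 * (p' - p) ^ 2 := by
    have h3 := sq_nonneg ((y - p') - (p' - p))
    have h4 : (y - p) ^ 2 = 2 * (y - p') ^ 2 + 2 * (p' - p) ^ 2 - ((y - p') - (p' - p)) ^ 2 := by
      ring
    linarith
  linarith

section Side

variable {U : Set (ℂ × ℂ)} {K : ℂ → ℂ → ℂ} {x a b p q A C : ℝ}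

private theorem re_line (x y : ℝ) : ((x : ℂ) + y * Complex.I).re = x := by simp

private theorem im_line (x y : ℝ) : ((x : ℂ) + y * Complex.I).im = y := by simp

/-- bound of the integrand -/
private theorem side_pt (hx : ∀ s : ℂ, a < s.re → s.re < b → 1 ≤ |x - s.re|)
    (hA : 0 ≤ A) (hC : 0 ≤ C)
    (hb : ∀ s t : ℂ, s.re = x → p < (s + t).re → (s + t).re < q →
      ‖K s t‖ ≤ C * (1 + |s.im| + |t.im|) ^ A)
    (s t : ℂ) (h1 : a < s.re) (h2 : s.re < b) (h3 : p < (s + t).re) (h4 : (s + t).re < q) (y : ℝ) :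
    ‖K (x + y * Complex.I) (s + t - (x + y * Complex.I)) * kern (x + y * Complex.I - s)‖ ≤
      (C * Real.exp ((|x| + |a| + |b|) ^ 2) * Real.exp (2 * A ^ 2)) *
        (1 + |s.im| + |t.im|) ^ A * Real.exp (-(y - s.im) ^ 2 / 2) := by
  rw [norm_mul]
  have e1 : ‖K (x + y * Complex.I) (s + t - (x + y * Complex.I))‖ ≤
      C * (1 + |y| + |s.im + t.im - y|) ^ A := by
    have h := hb (x + y * Complex.I) (s + t - (x + y * Complex.I)) (re_line x y)
      (by rw [add_sub_cancel]; exact h3) (by rw [add_sub_cancel]; exact h4)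
    have e : (s + t - (x + y * Complex.I)).im = s.im + t.im - y := by
      rw [Complex.sub_im, Complex.add_im, im_line]
    rw [im_line, e] at h
    exact h
  have e2 : ‖kern (x + y * Complex.I - s)‖ ≤
      Real.exp ((|x| + |a| + |b|) ^ 2) * Real.exp (-(y - s.im) ^ 2) := by
    have h := kern_bd (|x| + |a| + |b|) 1 one_pos (x + y * Complex.I - s) (by
        rw [Complex.sub_re, re_line, abs_le]
        have g1 := neg_abs_le x
        have g2 := le_abs_self x
        have g3 := neg_abs_le a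
        have g4 := le_abs_self b
        have g5 := abs_nonneg a
        have g6 := abs_nonneg b
        constructor <;> linarith) (by
        rw [Complex.sub_re, re_line]
        exact hx s h1 h2)
    rw [inv_one, one_mul, Complex.sub_im, im_line] at h
    exact h
  calc ‖K (x + y * Complex.I) (s + t - (x + y * Complex.I))‖ * ‖kern (x + y * Complex.I - s)‖
      ≤ (C * (1 + |y| + |s.im + t.im - y|) ^ A) *
        (Real.exp ((|x| + |a| + |b|) ^ 2) * Real.exp (-(y - s.im) ^ 2)) :=
        mul_le_mul e1 e2 (norm_nonneg _) (by positivity)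
    _ = C * Real.exp ((|x| + |a| + |b|) ^ 2) *
        ((1 + |y| + |s.im + t.im - y|) ^ A * Real.exp (-(y - s.im) ^ 2)) := by ring
    _ ≤ C * Real.exp ((|x| + |a| + |b|) ^ 2) *
        (Real.exp (2 * A ^ 2) * (1 + |s.im| + |t.im|) ^ A * Real.exp (-(y - s.im) ^ 2 / 2)) :=
        mul_le_mul_of_nonneg_left (growth2 A s.im t.im y hA) (by positivity)
    _ = _ := by ring

private theorem side_bd (hx : ∀ s : ℂ, a < s.re → s.re < b → 1 ≤ |x - s.re|)
    (hA : 0 ≤ A) (hC : 0 ≤ C)
    (hb : ∀ s t : ℂ, s.re = x → p < (s + t).re → (s + t).re < q →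
      ‖K s t‖ ≤ C * (1 + |s.im| + |t.im|) ^ A) :
    ∃ C' : ℝ, 0 ≤ C' ∧ ∀ s t : ℂ, a < s.re → s.re < b → p < (s + t).re → (s + t).re < q →
      ‖J K x s t‖ ≤ C' * (1 + |s.im| + |t.im|) ^ A := by
  refine ⟨(C * Real.exp ((|x| + |a| + |b|) ^ 2) * Real.exp (2 * A ^ 2)) *
    ∫ y : ℝ, Real.exp (-y ^ 2 / 2), ?_, fun s t h1 h2 h3 h4 => ?_⟩
  · apply mul_nonneg (by positivity)
    exact integral_nonneg fun y => (Real.exp_pos _).le
  · unfold J
    refine (norm_integral_le_of_norm_le ((gauss2 s.im).const_mul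
      ((C * Real.exp ((|x| + |a| + |b|) ^ 2) * Real.exp (2 * A ^ 2)) *
        (1 + |s.im| + |t.im|) ^ A)) (Eventually.of_forall fun y =>
        side_pt hx hA hC hb s t h1 h2 h3 h4 y)).trans (le_of_eq ?_)
    rw [integral_const_mul, gauss_const]
    ring

private theorem side_hol (hK : Hol2 U K)
    (hU : ∀ s t : ℂ, s.re = x → p < (s + t).re → (s + t).re < q → (s, t) ∈ U)
    (hx : ∀ s : ℂ, a < s.re → s.re < b → 1 ≤ |x - s.re|)
    (hA : 0 ≤ A) (hC : 0 ≤ C)
    (hb : ∀ s t : ℂ, s.re = x → p < (s + t).re → (s + t).re < q →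
      ‖K s t‖ ≤ C * (1 + |s.im| + |t.im|) ^ A) :
    Hol2 {z | (a < z.1.re ∧ z.1.re < b) ∧ p < (z.1 + z.2).re ∧ (z.1 + z.2).re < q} (J K x) := by
  intro σ τ hσ hτ z0 hz0
  set V : Set ℂ := {z | (a < (σ z).re ∧ (σ z).re < b) ∧
    p < (σ z + τ z).re ∧ (σ z + τ z).re < q} with hV
  have hσc := hσ.continuous
  have hτc := hτ.continuous
  have hVo : IsOpen V := by
    apply IsOpen.inter
    · exact (isOpen_lt continuous_const (Complex.continuous_re.comp hσc)).inter
        (isOpen_lt (Complex.continuous_re.comp hσc) continuous_const)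
    · exact (isOpen_lt continuous_const (Complex.continuous_re.comp (hσc.add hτc))).inter
        (isOpen_lt (Complex.continuous_re.comp (hσc.add hτc)) continuous_const)
  have hz0V : z0 ∈ V := hz0
  have key : DifferentiableOn ℂ (fun z => ∫ y : ℝ,
      K (x + y * Complex.I) (σ z + τ z - (x + y * Complex.I)) *
        kern (x + y * Complex.I - σ z)) V := by
    refine diff_integral hVo (F := fun z y => K (x + y * Complex.I)
      (σ z + τ z - (x + y * Complex.I)) * kern (x + y * Complex.I - σ z)) ?_ ?_ ?_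
    · -- holomorphy of the integrand
      intro y z hz
      have hz' : (a < (σ z).re ∧ (σ z).re < b) ∧ p < (σ z + τ z).re ∧ (σ z + τ z).re < q := hz
      apply DifferentiableAt.differentiableWithinAt
      apply DifferentiableAt.mul
      · refine hK (fun _ => x + y * Complex.I) (fun z => σ z + τ z - (x + y * Complex.I))
          (differentiable_const _) ((hσ.add hτ).sub_const _) z ?_
        refine hU _ _ (re_line x y) ?_ ?_
        · rw [add_sub_cancel]
          exact hz'.2.1
        · rw [add_sub_cancel]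
          exact hz'.2.2
      · unfold kern
        apply DifferentiableAt.div
        · exact (((differentiableAt_const _).sub (hσ z)).pow 2).cexp
        · exact (differentiableAt_const _).sub (hσ z)
        · intro h0
          have h1 := congrArg Complex.re h0
          rw [Complex.sub_re, re_line, Complex.zero_re] at h1
          have h2 := hx (σ z) hz'.1.1 hz'.1.2
          rw [h1, abs_zero] at h2
          linarith
    · -- measurability
      intro z hz
      have hz' : (a < (σ z).re ∧ (σ z).re < b) ∧ p < (σ z + τ z).re ∧ (σ z + τ z).re < q := hz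
      apply Continuous.aestronglyMeasurable
      apply Continuous.mul
      · rw [continuous_iff_continuousAt]
        intro y
        have h1 := hK (fun w => x + w * Complex.I) (fun w => σ z + τ z - (x + w * Complex.I))
          ((differentiable_const _).add (differentiable_id.mul_const _))
          ((differentiable_const _).sub ((differentiable_const _).add
            (differentiable_id.mul_const _))) (y : ℂ) (by
              refine hU _ _ (re_line x y) ?_ ?_
              · rw [add_sub_cancel]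
                exact hz'.2.1
              · rw [add_sub_cancel]
                exact hz'.2.2)
        exact ContinuousAt.comp (f := fun y : ℝ => (y : ℂ))
          (g := fun w : ℂ => K (x + w * Complex.I) (σ z + τ z - (x + w * Complex.I)))
          h1.continuousAt Complex.continuous_ofReal.continuousAt
      · unfold kern
        apply Continuous.div (by fun_prop) (by fun_prop)
        intro y h0
        have h1 := congrArg Complex.re h0
        rw [Complex.sub_re, re_line, Complex.zero_re] at h1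
        have h2 := hx (σ z) hz'.1.1 hz'.1.2
        rw [h1, abs_zero] at h2
        linarith
    · -- domination
      intro z hz
      have hW : IsOpen {z' : ℂ | |(σ z').im - (σ z).im| < 1 ∧ |(τ z').im - (τ z).im| < 1} := by
        apply IsOpen.inter
        · exact isOpen_lt (((Complex.continuous_im.comp hσc).sub continuous_const).abs)
            continuous_const
        · exact isOpen_lt (((Complex.continuous_im.comp hτc).sub continuous_const).abs)
            continuous_const
      obtain ⟨ρ, hρ, hball⟩ := Metric.isOpen_iff.1 hW z (by simp)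
      refine ⟨ρ, hρ, fun y => ((C * Real.exp ((|x| + |a| + |b|) ^ 2) * Real.exp (2 * A ^ 2)) *
        (1 + (|(σ z).im| + 1) + (|(τ z).im| + 1)) ^ A) *
          (Real.exp (1 / 2) * Real.exp (-(y - (σ z).im) ^ 2 / 4)),
        ((gauss4 (σ z).im).const_mul _).const_mul _, fun z' hz'b hz'V y => ?_⟩
      have hz' : (a < (σ z').re ∧ (σ z').re < b) ∧ p < (σ z' + τ z').re ∧
        (σ z' + τ z').re < q := hz'V
      have h5 : |(σ z').im - (σ z).im| < 1 ∧ |(τ z').im - (τ z).im| < 1 := hball hz'b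
      refine (side_pt hx hA hC hb (σ z') (τ z') hz'.1.1 hz'.1.2 hz'.2.1 hz'.2.2 y).trans ?_
      have h6 : |(σ z').im| ≤ |(σ z).im| + 1 := by
        have := abs_add_le (σ z).im ((σ z').im - (σ z).im)
        rw [add_sub_cancel] at this
        linarith [h5.1]
      have h7 : |(τ z').im| ≤ |(τ z).im| + 1 := by
        have := abs_add_le (τ z).im ((τ z').im - (τ z).im)
        rw [add_sub_cancel] at this
        linarith [h5.2]
      apply mul_le_mul _ (shift_exp y _ _ h5.1.le) (Real.exp_pos _).le (by positivity)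
      apply mul_le_mul_of_nonneg_left _ (by positivity)
      exact Real.rpow_le_rpow (by positivity) (by linarith) hA
  exact (key z0 hz0V).differentiableAt (hVo.mem_nhds hz0V)

end Side

/-- the agreement with `K1` where `Re (s + t)` is large -/
private theorem agree {R : ℝ} {K1 K2 : ℂ → ℂ → ℂ}
    (h1 : Hol2 {x | R < x.2.re} K1) (b1 : ∀ a b c d : ℝ, R < c → PB K1 a b c d)
    (he : ∀ s t : ℂ, R < s.re → R < t.re → (ww s t).re < 0 → K1 s t = K2 s t)
    {x1 x2 : ℝ} (hx1 : R < x1) (s t : ℂ) (hs1 : x2 < s.re) (hs2 : s.re < x1)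
    (hst : x1 + R < (s + t).re) (hst2 : (s + t).re - 2 * x1 + 1 / 2 < 0) :
    K1 s t = (2 * Real.pi : ℂ)⁻¹ * (J K2 x1 s t - J K1 x2 s t) := by
  obtain ⟨A, C, hA, hC, hb⟩ := b1 x2 x1 ((s + t).re - x1) ((s + t).re - x2) (by linarith)
  have hf : DifferentiableOn ℂ (fun z => K1 z (s + t - z))
      {z : ℂ | x2 - 1 < z.re ∧ z.re < (x1 + ((s + t).re - R)) / 2} := by
    intro z hz
    apply DifferentiableAt.differentiableWithinAt
    refine h1 (fun z => z) (fun z => s + t - z) differentiable_id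
      ((differentiable_const _).sub differentiable_id) z ?_
    have hz2 : z.re < (x1 + ((s + t).re - R)) / 2 := hz.2
    change R < (s + t - z).re
    rw [Complex.sub_re]
    linarith
  have hc := strip_cauchy (α := x2) (β := x1) (α' := x2 - 1)
    (β' := (x1 + ((s + t).re - R)) / 2) (by linarith) (by linarith) (by linarith)
    (f := fun z => K1 z (s + t - z)) hf (A := A) (C := C * (2 + |(s + t).im|) ^ A) hA
    (by
      intro z hz1 hz2
      have h5 := hb z (s + t - z) hz1 hz2 (by rw [Complex.sub_re]; linarith)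
        (by rw [Complex.sub_re]; linarith)
      refine h5.trans ?_
      rw [mul_assoc]
      apply mul_le_mul_of_nonneg_left _ hC
      rw [← Real.mul_rpow (by positivity) (by positivity)]
      apply Real.rpow_le_rpow (by positivity) _ hA
      rw [Complex.sub_im]
      have h6 : |(s + t).im - z.im| ≤ |(s + t).im| + |z.im| := abs_sub _ _
      have h7 : 0 ≤ |(s + t).im| * |z.im| := by positivity
      calc 1 + |z.im| + |(s + t).im - z.im| ≤ 1 + |z.im| + (|(s + t).im| + |z.im|) := by linarith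
        _ ≤ 1 + |z.im| + (|(s + t).im| + |z.im|) + (1 + |(s + t).im| * |z.im|) := by linarith
        _ = (2 + |(s + t).im|) * (1 + |z.im|) := by ring) (s := s) hs1 hs2
  simp only [add_sub_cancel_left] at hc
  rw [hc]
  congr 2
  unfold J
  congr 1
  funext y
  congr 1
  refine he _ _ ?_ ?_ ?_
  · rw [re_line]
    exact hx1
  · rw [Complex.sub_re, re_line]
    linarith
  · unfold ww
    have e1 : (s + t - (x1 + y * Complex.I) - (x1 + y * Complex.I) + 1 / 2).re =
        (s + t).re - 2 * x1 + 1 / 2 := by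
      rw [Complex.add_re, Complex.sub_re, Complex.sub_re, re_line]
      have : ((1 : ℂ) / 2).re = 1 / 2 := by norm_num
      rw [this]
      ring
    rw [e1]
    exact hst2

theorem hart {R : ℝ} (hR : 1 ≤ R) {K1 K2 : ℂ → ℂ → ℂ}
    (h1 : Hol2 {x | R < x.2.re} K1) (b1 : ∀ a b c d : ℝ, R < c → PB K1 a b c d)
    (h2 : Hol2 {x | R < x.1.re ∧ (ww x.1 x.2).re < 0} K2)
    (b2 : ∀ a b c d : ℝ, R < a → d - a + 1 / 2 < 0 → PB K2 a b c d)
    (he : ∀ s t : ℂ, R < s.re → R < t.re → (ww s t).re < 0 → K1 s t = K2 s t)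
    (a b x0 X1 : ℝ) : ∃ E : ℂ → ℂ → ℂ,
      Hol2 {x | a < x.1.re ∧ x.1.re < b ∧ x0 < x.2.re ∧ x.2.re < X1} E ∧
      (∃ A C : ℝ, 0 ≤ A ∧ 0 ≤ C ∧ ∀ s t : ℂ, a < s.re → s.re < b → x0 < t.re → t.re < X1 →
        ‖E s t‖ ≤ C * (1 + |s.im| + |t.im|) ^ A) ∧
      ∀ s t : ℂ, a < s.re → s.re < b → R < t.re → t.re < X1 → x0 < t.re → E s t = K1 s t := by
  obtain ⟨X2, hX1, hXa, hXb⟩ : ∃ X2 : ℝ, X1 ≤ X2 ∧ b + 2 * R - 2 * a + 4 ≤ X2 ∧
      2 * R + |b| + 4 ≤ X2 :=
    ⟨max X1 (max (b + 2 * R - 2 * a + 4) (2 * R + |b| + 4)), le_max_left _ _,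
      (le_max_left _ _).trans (le_max_right _ _), (le_max_right _ _).trans (le_max_right _ _)⟩
  obtain ⟨x1, hx1⟩ : ∃ x1 : ℝ, x1 = (b + X2) / 2 + 1 / 2 := ⟨_, rfl⟩
  obtain ⟨x2, hx2a, hx2b⟩ : ∃ x2 : ℝ, x2 ≤ a - 1 ∧ x2 ≤ a + x0 - R - 1 :=
    ⟨min (a - 1) (a + x0 - R - 1), min_le_left _ _, min_le_right _ _⟩
  have hb0 := neg_abs_le b
  have hb1 := le_abs_self b
  have hx1R : R < x1 := by linarith
  -- the two sides
  obtain ⟨A2, C2, hA2, hC2, hB2⟩ := b2 x1 x1 (a + x0 - x1) (b + X2 - x1) hx1R (by linarith)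
  obtain ⟨A1, C1, hA1, hC1, hB1⟩ := b1 x2 x2 (a + x0 - x2) (b + X2 - x2) (by linarith)
  have hs1 : ∀ s : ℂ, a < s.re → s.re < b → 1 ≤ |x1 - s.re| := by
    intro s _ h
    exact le_trans (by linarith) (le_abs_self _)
  have hs2 : ∀ s : ℂ, a < s.re → s.re < b → 1 ≤ |x2 - s.re| := by
    intro s h _
    rw [abs_sub_comm]
    exact le_trans (by linarith) (le_abs_self _)
  have hB2' : ∀ s t : ℂ, s.re = x1 → a + x0 < (s + t).re → (s + t).re < b + X2 →
      ‖K2 s t‖ ≤ C2 * (1 + |s.im| + |t.im|) ^ A2 := by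
    intro s t g1 g2 g3
    rw [Complex.add_re] at g2 g3
    exact hB2 s t (by linarith) (by linarith) (by linarith) (by linarith)
  have hB1' : ∀ s t : ℂ, s.re = x2 → a + x0 < (s + t).re → (s + t).re < b + X2 →
      ‖K1 s t‖ ≤ C1 * (1 + |s.im| + |t.im|) ^ A1 := by
    intro s t g1 g2 g3
    rw [Complex.add_re] at g2 g3
    exact hB1 s t (by linarith) (by linarith) (by linarith) (by linarith)
  have hJ2 := side_hol (a := a) (b := b) h2 (by
    intro s t g1 g2 g3
    rw [Complex.add_re] at g2 g3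
    refine ⟨by rw [g1]; exact hx1R, ?_⟩
    change (t - s + 1 / 2).re < 0
    have e : ((1 : ℂ) / 2).re = 1 / 2 := by norm_num
    rw [Complex.add_re, Complex.sub_re, e]
    linarith) hs1 hA2 hC2 hB2'
  have hJ1 := side_hol (a := a) (b := b) h1 (by
    intro s t g1 g2 g3
    rw [Complex.add_re] at g2 g3
    change R < t.re
    linarith) hs2 hA1 hC1 hB1'
  obtain ⟨D2, hD2, hE2⟩ := side_bd hs1 hA2 hC2 hB2'
  obtain ⟨D1, hD1, hE1⟩ := side_bd hs2 hA1 hC1 hB1'
  have hreg : ∀ s t : ℂ, a < s.re → s.re < b → x0 < t.re → t.re < X2 →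
      a + x0 < (s + t).re ∧ (s + t).re < b + X2 := by
    intro s t g1 g2 g3 g4
    rw [Complex.add_re]
    constructor <;> linarith
  have hEhol : Hol2 {x | a < x.1.re ∧ x.1.re < b ∧ x0 < x.2.re ∧ x.2.re < X2}
      (fun s t => (2 * Real.pi : ℂ)⁻¹ * (J K2 x1 s t - J K1 x2 s t)) := by
    intro σ τ hσ hτ z hz
    have hz1 : a < (σ z).re ∧ (σ z).re < b ∧ x0 < (τ z).re ∧ (τ z).re < X2 := hz
    have hz2 := hreg (σ z) (τ z) hz1.1 hz1.2.1 hz1.2.2.1 hz1.2.2.2
    exact ((hJ2 σ τ hσ hτ z ⟨⟨hz1.1, hz1.2.1⟩, hz2⟩).sub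
      (hJ1 σ τ hσ hτ z ⟨⟨hz1.1, hz1.2.1⟩, hz2⟩)).const_mul _
  refine ⟨fun s t => (2 * Real.pi : ℂ)⁻¹ * (J K2 x1 s t - J K1 x2 s t), ?_, ?_, ?_⟩
  · intro σ τ hσ hτ z hz
    exact hEhol σ τ hσ hτ z ⟨hz.1, hz.2.1, hz.2.2.1, lt_of_lt_of_le hz.2.2.2 hX1⟩
  · refine ⟨A1 + A2, ‖(2 * Real.pi : ℂ)⁻¹‖ * (D2 + D1), by linarith, by positivity,
      fun s t g1 g2 g3 g4 => ?_⟩
    have g5 := hreg s t g1 g2 g3 (lt_of_lt_of_le g4 hX1)
    have e0 : 1 ≤ 1 + |s.im| + |t.im| := by
      have := abs_nonneg s.im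
      have := abs_nonneg t.im
      linarith
    have e2 := hE2 s t g1 g2 g5.1 g5.2
    have e1 := hE1 s t g1 g2 g5.1 g5.2
    have e2' : (1 + |s.im| + |t.im|) ^ A2 ≤ (1 + |s.im| + |t.im|) ^ (A1 + A2) :=
      Real.rpow_le_rpow_of_exponent_le e0 (by linarith)
    have e1' : (1 + |s.im| + |t.im|) ^ A1 ≤ (1 + |s.im| + |t.im|) ^ (A1 + A2) :=
      Real.rpow_le_rpow_of_exponent_le e0 (by linarith)
    calc ‖(2 * Real.pi : ℂ)⁻¹ * (J K2 x1 s t - J K1 x2 s t)‖
        = ‖(2 * Real.pi : ℂ)⁻¹‖ * ‖J K2 x1 s t - J K1 x2 s t‖ := norm_mul _ _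
      _ ≤ ‖(2 * Real.pi : ℂ)⁻¹‖ * (‖J K2 x1 s t‖ + ‖J K1 x2 s t‖) :=
          mul_le_mul_of_nonneg_left (norm_sub_le _ _) (norm_nonneg _)
      _ ≤ ‖(2 * Real.pi : ℂ)⁻¹‖ * (D2 * (1 + |s.im| + |t.im|) ^ (A1 + A2) +
          D1 * (1 + |s.im| + |t.im|) ^ (A1 + A2)) := by
          apply mul_le_mul_of_nonneg_left _ (norm_nonneg _)
          apply add_le_add
          · exact e2.trans (mul_le_mul_of_nonneg_left e2' hD2)
          · exact e1.trans (mul_le_mul_of_nonneg_left e1' hD1)
      _ = _ := by ring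
  · intro s t g1 g2 g3 g4 g5
    set W : Set ℂ := {w | (R < w.re ∧ x0 < w.re) ∧ w.re < X2} with hW
    have hWo : IsOpen W := by
      apply IsOpen.inter
      · exact (isOpen_lt continuous_const Complex.continuous_re).inter
          (isOpen_lt continuous_const Complex.continuous_re)
      · exact isOpen_lt Complex.continuous_re continuous_const
    have hWc : Convex ℝ W := by
      apply Convex.inter
      · exact (convex_halfSpace_re_gt R).inter (convex_halfSpace_re_gt x0)
      · exact convex_halfSpace_re_lt X2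
    have hWp : IsPreconnected W := hWc.isPreconnected
    have hd1 : DifferentiableOn ℂ
        (fun w => (2 * Real.pi : ℂ)⁻¹ * (J K2 x1 s w - J K1 x2 s w)) W := by
      intro w hw
      apply DifferentiableAt.differentiableWithinAt
      have hw' : (R < w.re ∧ x0 < w.re) ∧ w.re < X2 := hw
      exact hEhol (fun _ => s) (fun w => w) (differentiable_const _) differentiable_id w
        ⟨g1, g2, hw'.1.2, hw'.2⟩
    have hd2 : DifferentiableOn ℂ (fun w => K1 s w) W := by
      intro w hw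
      apply DifferentiableAt.differentiableWithinAt
      have hw' : (R < w.re ∧ x0 < w.re) ∧ w.re < X2 := hw
      exact h1 (fun _ => s) (fun w => w) (differentiable_const _) differentiable_id w hw'.1.1
    obtain ⟨r1, hr1, hr2, hr3⟩ : ∃ r1 : ℝ, x1 + R - s.re ≤ r1 ∧ t.re ≤ r1 ∧ r1 < X2 :=
      ⟨max (x1 + R - s.re) t.re, le_max_left _ _, le_max_right _ _,
        max_lt (by linarith) (by linarith)⟩
    have hev : (fun w => (2 * Real.pi : ℂ)⁻¹ * (J K2 x1 s w - J K1 x2 s w)) =ᶠ[𝓝
        (((r1 + X2) / 2 : ℝ) : ℂ)] fun w => K1 s w := by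
      have hO : IsOpen {w : ℂ | r1 < w.re ∧ w.re < X2} :=
        (isOpen_lt continuous_const Complex.continuous_re).inter
          (isOpen_lt Complex.continuous_re continuous_const)
      filter_upwards [hO.mem_nhds (show (((r1 + X2) / 2 : ℝ) : ℂ) ∈
        {w : ℂ | r1 < w.re ∧ w.re < X2} from by
          rw [Set.mem_ofPred_eq, Complex.ofReal_re]
          constructor <;> linarith)] with w hw
      have hw1 : r1 < w.re := hw.1
      have hw2 : w.re < X2 := hw.2
      refine (agree (K2 := K2) h1 b1 he hx1R s w (x2 := x2) ?_ ?_ ?_ ?_).symm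
      · linarith
      · linarith
      · rw [Complex.add_re]
        linarith
      · rw [Complex.add_re]
        linarith
    have hz0 : (((r1 + X2) / 2 : ℝ) : ℂ) ∈ W := by
      refine ⟨⟨?_, ?_⟩, ?_⟩
      · rw [Complex.ofReal_re]
        linarith
      · rw [Complex.ofReal_re]
        linarith
      · rw [Complex.ofReal_re]
        linarith
    have heq := (hd1.analyticOnNhd hWo).eqOn_of_preconnected_of_eventuallyEq
      (hd2.analyticOnNhd hWo) hWp hz0 hev
    exact heq (show t ∈ W from ⟨⟨g3, g5⟩, lt_of_lt_of_le g4 hX1⟩)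

end Pool.Agent.LD
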