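import Pool.Agent.LD.A.YC

/-!
# LD-Kf1: the invariant linear combination, its two expressions, regularity

PLAN. `K1f`: `g * e ∉ H`, `g * p ∉ H` as `g ∈ H`; `hY.hol`, `hY.bd`;
`r1`, `r2` are entire and bounded in vertical strips (`cpow_bd`, or directly
`‖(q : ℂ) ^ w‖ = q ^ Re w`).  `K2f`: region `R < Re s`, `Re w < 0`, `w = ww s t`: `w⁻¹` is holomorphic and
bounded by `(a - d - 1/2)⁻¹`; `Y c t s` is `Hol2.comp` of `hY.hol` with `(t, s)`, and `PB.swap` of `hY.bd`;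
`S.M c (ww s t)`: `M_diff`, `M_bd` (LD/A/Bd2), `Hol2.comp1`, `PB.comp_ww`.  Sums over `S.G`: `Hol2.sum`, `PB.sum` (they are stated
for index types in `Type`; `if c ∈ H then 0 else ..`: split).
-/

namespace Pool.Agent.LD

open Pool.Agent.QD Pool.Agent.QD.SysD

/-- `√q (1 + q^(w - 3/2))` -/
noncomputable def r1 (q : ℕ) (w : ℂ) : ℂ := (Real.sqrt q : ℂ) * (1 + (q : ℂ) ^ (w - 3 / 2))

/-- `1 + q^(w - 1/2)` -/
noncomputable def r2 (q : ℕ) (w : ℂ) : ℂ := 1 + (q : ℂ) ^ (w - 1 / 2)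

/-- the combination of the two good series, for `Re t` large -/
noncomputable def K1f (S : SysD) (Y : S.G → ℂ → ℂ → ℂ) (e p : S.G) (q : ℕ) (g : S.G)
    (s t : ℂ) : ℂ :=
  r2 q (ww s t) * Y (g * e) s t - r1 q (ww s t) * Y (g * p) s t

open Classical in
/-- the same combination through the other functional equation, for `Re s` large, `Re w < 0` -/
noncomputable def K2f (S : SysD) (H : Subgroup S.G) (Y : S.G → ℂ → ℂ → ℂ) (e p : S.G) (q : ℕ)
    (g : S.G) (s t : ℂ) : ℂ :=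
  (ww s t - 1) ^ 2 * ((ww s t) ^ 2)⁻¹ * ((S.cU : ℂ) ^ 2)⁻¹ * ∑ c : S.G, if c ∈ H then 0 else
    (r2 q (ww s t) * S.M (g * e * c) (ww s t) - r1 q (ww s t) * S.M (g * p * c) (ww s t)) *
      Y c t s

variable {S : SysD} {H : Subgroup S.G} {R : ℝ} {Y : S.G → ℂ → ℂ → ℂ} {e p : S.G} {q : ℕ}
  {lam : ℝ}

private theorem qne (hq : 101 ≤ q) : (q : ℂ) ≠ 0 := by
  have : q ≠ 0 := by omega
  exact_mod_cast this

private theorem diff_cp (hq : 101 ≤ q) (z : ℂ) : Differentiable ℂ (fun w : ℂ => (q : ℂ) ^ (w - z)) := by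
  intro w
  exact DifferentiableAt.const_cpow (differentiableAt_id.sub_const z) (Or.inl (qne hq))

private theorem r1_diff (hq : 101 ≤ q) : Differentiable ℂ (r1 q) := by
  unfold r1
  exact ((differentiable_const _).add (diff_cp hq _)).const_mul _

private theorem r2_diff (hq : 101 ≤ q) : Differentiable ℂ (r2 q) := by
  unfold r2
  exact (differentiable_const _).add (diff_cp hq _)

private theorem hol2_entire {f : ℂ → ℂ} (hf : Differentiable ℂ f) :
    Hol2 Set.univ (fun s t => f (ww s t)) := by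
  have h := Hol2.comp1 (V := Set.univ) isOpen_univ hf.differentiableOn hol2_ww
  exact h.mono (fun x _ => Set.mem_univ _)

private theorem norm_cp (hq : 101 ≤ q) {y α : ℝ} {w : ℂ} (hw : w.re ≤ y) (z : ℂ) (hz : z.re = α) :
    ‖(q : ℂ) ^ (w - z)‖ ≤ (q : ℝ) ^ (y - α) := by
  rw [Complex.norm_natCast_cpow_of_pos (by omega)]
  refine Real.rpow_le_rpow_of_exponent_le ?_ ?_
  · have : 1 ≤ q := by omega
    exact_mod_cast this
  · rw [Complex.sub_re, hz]
    linarith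

theorem hol2_r1 (hq : 101 ≤ q) : Hol2 Set.univ (fun s t => r1 q (ww s t)) :=
  hol2_entire (r1_diff hq)

theorem hol2_r2 (hq : 101 ≤ q) : Hol2 Set.univ (fun s t => r2 q (ww s t)) :=
  hol2_entire (r2_diff hq)

theorem r1_bd (hq : 101 ≤ q) (x y : ℝ) : ∃ A C : ℝ, 0 ≤ A ∧ 0 ≤ C ∧ ∀ w : ℂ,
    x ≤ w.re → w.re ≤ y → ‖r1 q w‖ ≤ C * (1 + |w.im|) ^ A := by
  refine ⟨0, Real.sqrt q * (1 + (q : ℝ) ^ (y - 3 / 2)), le_rfl, by positivity, fun w _ hw => ?_⟩
  rw [Real.rpow_zero, mul_one]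
  unfold r1
  rw [norm_mul]
  have e1 : ‖(Real.sqrt q : ℂ)‖ = Real.sqrt q := by
    rw [Complex.norm_real, Real.norm_eq_abs, abs_of_nonneg (Real.sqrt_nonneg _)]
  have e2 : ‖(1 : ℂ) + (q : ℂ) ^ (w - 3 / 2)‖ ≤ 1 + (q : ℝ) ^ (y - 3 / 2) := by
    refine (norm_add_le _ _).trans ?_
    rw [norm_one]
    have := norm_cp hq hw (3 / 2) (α := 3 / 2) (by norm_num)
    linarith
  rw [e1]
  exact mul_le_mul_of_nonneg_left e2 (Real.sqrt_nonneg _)

theorem r2_bd (hq : 101 ≤ q) (x y : ℝ) : ∃ A C : ℝ, 0 ≤ A ∧ 0 ≤ C ∧ ∀ w : ℂ,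
    x ≤ w.re → w.re ≤ y → ‖r2 q w‖ ≤ C * (1 + |w.im|) ^ A := by
  refine ⟨0, 1 + (q : ℝ) ^ (y - 1 / 2), le_rfl, by positivity, fun w _ hw => ?_⟩
  rw [Real.rpow_zero, mul_one]
  unfold r2
  refine (norm_add_le _ _).trans ?_
  rw [norm_one]
  have := norm_cp hq hw (1 / 2) (α := 1 / 2) (by norm_num)
  linarith

private theorem nm_mul {x g : S.G} (hg : g ∈ H) (hx : x ∉ H) : g * x ∉ H := by
  intro h
  apply hx
  have := H.mul_mem (H.inv_mem hg) h
  simpa [← mul_assoc] using this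

theorem K1f_hol (hL : IsLoc S H e p q lam) (hY : IsY S H R Y) {g : S.G} (hg : g ∈ H) :
    Hol2 {x | R < x.2.re} (K1f S Y e p q g) := by
  have h1 := ((hol2_r2 hL.hq).mono (Set.subset_univ _)).mul (hY.hol _ (nm_mul hg hL.e_nm))
  have h2 := ((hol2_r1 hL.hq).mono (Set.subset_univ _)).mul (hY.hol _ (nm_mul hg hL.p_nm))
  exact h1.sub h2

theorem K1f_bd (hL : IsLoc S H e p q lam) (hY : IsY S H R Y) {g : S.G} (hg : g ∈ H)
    (a b c d : ℝ) (hc : R < c) : PB (K1f S Y e p q g) a b c d := by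
  have h1 := (PB.comp_ww (a := a) (b := b) (c := c) (d := d)
    (r2_bd hL.hq (c - b + 1 / 2) (d - a + 1 / 2)) le_rfl le_rfl).mul
    (hY.bd _ (nm_mul hg hL.e_nm) a b c d hc)
  have h2 := (PB.comp_ww (a := a) (b := b) (c := c) (d := d)
    (r1_bd hL.hq (c - b + 1 / 2) (d - a + 1 / 2)) le_rfl le_rfl).mul
    (hY.bd _ (nm_mul hg hL.p_nm) a b c d hc)
  exact h1.sub h2

theorem K2f_hol (hS : IsSys0 S) (hL : IsLoc S H e p q lam) (hY : IsY S H R Y) (g : S.G) :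
    Hol2 {x | R < x.1.re ∧ (ww x.1 x.2).re < 0} (K2f S H Y e p q g) := by
  have hop : IsOpen {w : ℂ | w.re < 0} := isOpen_lt Complex.continuous_re continuous_const
  have h1 : Hol2 {x | R < x.1.re ∧ (ww x.1 x.2).re < 0} (fun s t => (ww s t - 1) ^ 2) := by
    have := hol2_entire (f := fun w => (w - 1) ^ 2) (by fun_prop)
    exact this.mono (Set.subset_univ _)
  have h2 : Hol2 {x | R < x.1.re ∧ (ww x.1 x.2).re < 0} (fun s t => ((ww s t) ^ 2)⁻¹) := by
    have hd : DifferentiableOn ℂ (fun w : ℂ => (w ^ 2)⁻¹) {w : ℂ | w.re < 0} := by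
      refine DifferentiableOn.inv (by fun_prop) (fun w hw => ?_)
      refine pow_ne_zero 2 ?_
      rintro rfl
      simp at hw
    exact (Hol2.comp1 hop hd hol2_ww).mono (fun x hx => hx.2)
  have h3 : ∀ g' : S.G, Hol2 {x | R < x.1.re ∧ (ww x.1 x.2).re < 0}
      (fun s t => S.M g' (ww s t)) := fun g' =>
    (Hol2.comp1 hop (M_diff hS g') hol2_ww).mono (fun x hx => hx.2)
  have h4 : ∀ c : S.G, c ∉ H → Hol2 {x | R < x.1.re ∧ (ww x.1 x.2).re < 0}
      (fun s t => Y c t s) := fun c hc =>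
    (Hol2.comp (hY.hol c hc) hol2_snd hol2_fst).mono (fun x hx => hx.1)
  have h5 : Hol2 {x | R < x.1.re ∧ (ww x.1 x.2).re < 0}
      (fun s t => r1 q (ww s t)) := (hol2_r1 hL.hq).mono (Set.subset_univ _)
  have h6 : Hol2 {x | R < x.1.re ∧ (ww x.1 x.2).re < 0}
      (fun s t => r2 q (ww s t)) := (hol2_r2 hL.hq).mono (Set.subset_univ _)
  unfold K2f
  refine ((h1.mul h2).mul (Hol2.const _ _)).mul (Hol2.sum _ fun c _ => ?_)
  split_ifs with hc
  · exact Hol2.const _ _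
  · exact ((h6.mul (h3 _)).sub (h5.mul (h3 _))).mul (h4 c hc)

theorem K2f_bd (hS : IsSys0 S) (hL : IsLoc S H e p q lam) (hY : IsY S H R Y) (g : S.G)
    (a b c d : ℝ) (ha : R < a) (hd : d - a + 1 / 2 < 0) : PB (K2f S H Y e p q g) a b c d := by
  have h1 : PB (fun s t => (ww s t - 1) ^ 2) a b c d :=
    PB.comp_ww (f := fun w => (w - 1) ^ 2) (lin_pow_bd 2 1 (c - b + 1 / 2) (d - a + 1 / 2))
      le_rfl le_rfl
  have h2 : PB (fun s t => ((ww s t) ^ 2)⁻¹) a b c d := by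
    refine PB.of_bdd ⟨((-(d - a + 1 / 2)) ^ 2)⁻¹, fun s t hs _ _ ht => ?_⟩
    have e1 : (ww s t).re ≤ d - a + 1 / 2 := by
      have : (ww s t).re = t.re - s.re + 1 / 2 := by
        unfold ww
        simp [Complex.add_re, Complex.sub_re]
      rw [this]
      linarith
    have e2 : -(d - a + 1 / 2) ≤ ‖ww s t‖ := by
      refine le_trans ?_ (Complex.abs_re_le_norm (ww s t))
      have := neg_abs_le (ww s t).re
      linarith
    rw [norm_inv, norm_pow]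
    have e3 : 0 < (-(d - a + 1 / 2)) ^ 2 := by
      have : 0 < -(d - a + 1 / 2) := by linarith
      positivity
    exact inv_anti₀ e3 (pow_le_pow_left₀ (by linarith) e2 2)
  have h3 : ∀ g' : S.G, PB (fun s t => S.M g' (ww s t)) a b c d := fun g' =>
    PB.comp_ww (M_bd hS g' (c - b + 1 / 2) (d - a + 1 / 2) hd) le_rfl le_rfl
  have h4 : ∀ c' : S.G, c' ∉ H → PB (fun s t => Y c' t s) a b c d := fun c' hc =>
    (hY.bd c' hc c d a b ha).swap
  have h5 : PB (fun s t => r1 q (ww s t)) a b c d :=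
    PB.comp_ww (r1_bd hL.hq (c - b + 1 / 2) (d - a + 1 / 2)) le_rfl le_rfl
  have h6 : PB (fun s t => r2 q (ww s t)) a b c d :=
    PB.comp_ww (r2_bd hL.hq (c - b + 1 / 2) (d - a + 1 / 2)) le_rfl le_rfl
  have h0 : ∀ z : ℂ, PB (fun _ _ => z) a b c d := fun z =>
    PB.of_bdd ⟨‖z‖, fun _ _ _ _ _ _ => le_rfl⟩
  unfold K2f
  refine ((h1.mul h2).mul (h0 _)).mul (PB.sum _ fun c' _ => ?_)
  split_ifs with hc
  · exact h0 0
  · exact ((h6.mul (h3 _)).sub (h5.mul (h3 _))).mul (h4 c' hc)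

end Pool.Agent.LD
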