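import Pool.Agent.LD.A.Kf1
import Pool.Agent.LD.A.Hart

/-!
# LD-Kf2: agreement of the two expressions of the invariant combination, its continuation

PLAN. `K_agree`: `w = ww s t`, `Re w < 0` so `w ≠ 0`.  `hY.eq` for `(s, t)` and for `(t, s)` (both real parts
are `> R`).  Multiply `hB (g e) s t` by `r2`, `hB (g p) s t` by `r1`, subtract:
`w^2 K1f = (w-1)^2 (cU^2)⁻¹ ∑ c', (r2 M (g e c') - r1 M (g p c')) YR c' t s`.  For `c' ∈ H` the coefficient
vanishes by `hL.M_rel` with `h = g c'` (`g * c' * e = g * e * c'`, commutative group).  For `c' ∉ H`,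
`YR S c' t s = Y c' t s` by `hY.eq`.  `exists_E`: `hart` with `K1f`, `K2f`.
-/

namespace Pool.Agent.LD

open Pool.Agent.QD Pool.Agent.QD.SysD

/-- the functional equation `beta`, valid for `Re s, Re t > R` -/
def Beta (S : SysD) (R : ℝ) : Prop :=
  ∀ (c : S.G) (s t : ℂ), R < s.re → R < t.re → (ww s t).re < 0 →
    (ww s t) ^ 2 * YR S c s t = (ww s t - 1) ^ 2 * ((S.cU : ℂ) ^ 2)⁻¹ *
      ∑ c' : S.G, S.M (c * c') (ww s t) * YR S c' t s

variable {S : SysD} {H : Subgroup S.G} {R : ℝ} {Y : S.G → ℂ → ℂ → ℂ} {e p : S.G} {q : ℕ}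
  {lam : ℝ}

theorem K_agree (hL : IsLoc S H e p q lam) (hY : IsY S H R Y) (hB : Beta S R) {g : S.G}
    (hg : g ∈ H) (s t : ℂ) (hs : R < s.re) (ht : R < t.re) (hw : (ww s t).re < 0) :
    K1f S Y e p q g s t = K2f S H Y e p q g s t := by
  classical
  have hw0 : ww s t ≠ 0 := by
    intro h
    rw [h, Complex.zero_re] at hw
    exact lt_irrefl _ hw
  have hge : g * e ∉ H := fun h => hL.e_nm ((Subgroup.mul_mem_cancel_left H hg).mp h)
  have hgp : g * p ∉ H := fun h => hL.p_nm ((Subgroup.mul_mem_cancel_left H hg).mp h)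
  have h1 := hB (g * e) s t hs ht hw
  have h2 := hB (g * p) s t hs ht hw
  have h3 : ∀ c : S.G, (if c ∈ H then 0 else
      (r2 q (ww s t) * S.M (g * e * c) (ww s t) - r1 q (ww s t) * S.M (g * p * c) (ww s t)) *
        Y c t s) =
      r2 q (ww s t) * (S.M (g * e * c) (ww s t) * YR S c t s) -
        r1 q (ww s t) * (S.M (g * p * c) (ww s t) * YR S c t s) := by
    intro c
    by_cases hc : c ∈ H
    · rw [if_pos hc]
      have h4 := hL.M_rel (g * c) (H.mul_mem hg hc) (ww s t) hw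
      have h5 : g * c * e = g * e * c := by
        rw [mul_assoc, mul_comm c e, ← mul_assoc]
      have h6 : g * c * p = g * p * c := by
        rw [mul_assoc, mul_comm c p, ← mul_assoc]
      rw [h5, h6] at h4
      have h7 : r2 q (ww s t) * S.M (g * e * c) (ww s t) =
          r1 q (ww s t) * S.M (g * p * c) (ww s t) := h4
      rw [← mul_assoc, ← mul_assoc, h7, sub_self]
    · rw [if_neg hc, hY.eq c hc t s ht hs]
      ring
  have h4 : K2f S H Y e p q g s t = (ww s t - 1) ^ 2 * ((ww s t) ^ 2)⁻¹ * ((S.cU : ℂ) ^ 2)⁻¹ *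
      (r2 q (ww s t) * (∑ c' : S.G, S.M (g * e * c') (ww s t) * YR S c' t s) -
        r1 q (ww s t) * ∑ c' : S.G, S.M (g * p * c') (ww s t) * YR S c' t s) := by
    unfold K2f
    rw [Finset.sum_congr rfl fun c _ => h3 c, Finset.sum_sub_distrib, ← Finset.mul_sum,
      ← Finset.mul_sum]
  have h5 : K1f S Y e p q g s t = r2 q (ww s t) * YR S (g * e) s t -
      r1 q (ww s t) * YR S (g * p) s t := by
    unfold K1f
    rw [hY.eq (g * e) hge s t hs ht, hY.eq (g * p) hgp s t hs ht]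
  have hw2 : (ww s t) ^ 2 ≠ 0 := pow_ne_zero 2 hw0
  have h6 : (ww s t) ^ 2 * K1f S Y e p q g s t = (ww s t) ^ 2 * K2f S H Y e p q g s t := by
    calc (ww s t) ^ 2 * K1f S Y e p q g s t
        = r2 q (ww s t) * ((ww s t) ^ 2 * YR S (g * e) s t) -
          r1 q (ww s t) * ((ww s t) ^ 2 * YR S (g * p) s t) := by rw [h5]; ring
      _ = (ww s t - 1) ^ 2 * ((S.cU : ℂ) ^ 2)⁻¹ *
          (r2 q (ww s t) * (∑ c' : S.G, S.M (g * e * c') (ww s t) * YR S c' t s) -
          r1 q (ww s t) * ∑ c' : S.G, S.M (g * p * c') (ww s t) * YR S c' t s) := by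
          rw [h1, h2]
          ring
      _ = ((ww s t) ^ 2 * ((ww s t) ^ 2)⁻¹) * ((ww s t - 1) ^ 2 * ((S.cU : ℂ) ^ 2)⁻¹ *
          (r2 q (ww s t) * (∑ c' : S.G, S.M (g * e * c') (ww s t) * YR S c' t s) -
          r1 q (ww s t) * ∑ c' : S.G, S.M (g * p * c') (ww s t) * YR S c' t s)) := by
          rw [mul_inv_cancel₀ hw2, one_mul]
      _ = _ := by rw [h4]; ring
  exact mul_left_cancel₀ hw2 h6

theorem exists_E (hS : IsSys0 S) (hL : IsLoc S H e p q lam) (hR : 1 ≤ R) (hY : IsY S H R Y)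
    (hB : Beta S R) {g : S.G} (hg : g ∈ H) (a b x0 X1 : ℝ) : ∃ E : ℂ → ℂ → ℂ,
      Hol2 {x | a < x.1.re ∧ x.1.re < b ∧ x0 < x.2.re ∧ x.2.re < X1} E ∧
      (∃ A C : ℝ, 0 ≤ A ∧ 0 ≤ C ∧ ∀ s t : ℂ, a < s.re → s.re < b → x0 < t.re → t.re < X1 →
        ‖E s t‖ ≤ C * (1 + |s.im| + |t.im|) ^ A) ∧
      ∀ s t : ℂ, a < s.re → s.re < b → R < t.re → t.re < X1 → x0 < t.re →
        E s t = K1f S Y e p q g s t :=
  hart hR (K1f_hol hL hY hg) (fun a b c d hc => K1f_bd hL hY hg a b c d hc)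
    (K2f_hol hS hL hY g) (fun a b c d ha hd => K2f_bd hS hL hY g a b c d ha hd)
    (fun s t hs ht hw => K_agree hL hY hB hg s t hs ht hw) a b x0 X1

end Pool.Agent.LD
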