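import Pool.Agent.LD.A.Util

/-!
# LD-Line: functions of `(s, t)` with `s` on a line

PLAN. All immediate.  `of_hol`: along the curves `(const, z)` resp. `(σ + i z, const)`
(`Hol2` gives `DifferentiableAt`, restrict to real `z`: continuity).  `of_refl` the same with
`(2 - σ - i z, ..)`.  `mul`: add the exponents, `1 ≤ 1 + |Im s| + |Im t|`; `add`: maximum or sum of
the exponents.  `of_ww`: `z ↦ ww s z` etc. are affine.
-/

namespace Pool.Agent.LD

open Pool.Agent.QD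

/-- functions of `(s, t)` for `Re s = σ`, `x0 < Re t < X1`: holomorphic in `t`, continuous in `s`, of
polynomial growth -/
structure OnLine (σ x0 X1 : ℝ) (W : ℂ → ℂ → ℂ) : Prop where
  dif : ∀ s : ℂ, s.re = σ → DifferentiableOn ℂ (W s) {t : ℂ | x0 < t.re ∧ t.re < X1}
  con : ∀ t : ℂ, x0 < t.re → t.re < X1 → Continuous fun y : ℝ => W (σ + y * Complex.I) t
  bd : ∃ A C : ℝ, 0 ≤ A ∧ 0 ≤ C ∧ ∀ s t : ℂ, s.re = σ → x0 < t.re → t.re < X1 →
    ‖W s t‖ ≤ C * (1 + |s.im| + |t.im|) ^ A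

variable {σ x0 X1 : ℝ} {V W : ℂ → ℂ → ℂ}

private theorem one_le_base (s t : ℂ) : 1 ≤ 1 + |s.im| + |t.im| := by
  have h1 := abs_nonneg s.im
  have h2 := abs_nonneg t.im
  linarith

private theorem bd_mono {s t : ℂ} {C A A' : ℝ} (hC : 0 ≤ C) (h : A ≤ A') :
    C * (1 + |s.im| + |t.im|) ^ A ≤ C * (1 + |s.im| + |t.im|) ^ A' :=
  mul_le_mul_of_nonneg_left (Real.rpow_le_rpow_of_exponent_le (one_le_base s t) h) hC

private theorem line_re (σ y : ℝ) : ((σ : ℂ) + y * Complex.I).re = σ := by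
  simp

private theorem add_bd {a b s t : ℂ} {A B C D : ℝ} (hC : 0 ≤ C) (hD : 0 ≤ D)
    (ha : ‖a‖ ≤ C * (1 + |s.im| + |t.im|) ^ A) (hb : ‖b‖ ≤ D * (1 + |s.im| + |t.im|) ^ B) :
    ‖a‖ + ‖b‖ ≤ (C + D) * (1 + |s.im| + |t.im|) ^ (max A B) := by
  rw [add_mul]
  exact add_le_add (ha.trans (bd_mono hC (le_max_left A B)))
    (hb.trans (bd_mono hD (le_max_right A B)))

theorem OnLine.add (hV : OnLine σ x0 X1 V) (hW : OnLine σ x0 X1 W) :
    OnLine σ x0 X1 (fun s t => V s t + W s t) := by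
  obtain ⟨A, C, hA, hC, h1⟩ := hV.bd
  obtain ⟨B, D, hB, hD, h2⟩ := hW.bd
  refine ⟨fun s hs => (hV.dif s hs).add (hW.dif s hs),
    fun t ht0 ht1 => (hV.con t ht0 ht1).add (hW.con t ht0 ht1),
    max A B, C + D, le_max_of_le_left hA, add_nonneg hC hD, fun s t hs ht0 ht1 => ?_⟩
  exact (norm_add_le _ _).trans (add_bd hC hD (h1 s t hs ht0 ht1) (h2 s t hs ht0 ht1))

theorem OnLine.sub (hV : OnLine σ x0 X1 V) (hW : OnLine σ x0 X1 W) :
    OnLine σ x0 X1 (fun s t => V s t - W s t) := by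
  obtain ⟨A, C, hA, hC, h1⟩ := hV.bd
  obtain ⟨B, D, hB, hD, h2⟩ := hW.bd
  refine ⟨fun s hs => (hV.dif s hs).sub (hW.dif s hs),
    fun t ht0 ht1 => (hV.con t ht0 ht1).sub (hW.con t ht0 ht1),
    max A B, C + D, le_max_of_le_left hA, add_nonneg hC hD, fun s t hs ht0 ht1 => ?_⟩
  exact (norm_sub_le _ _).trans (add_bd hC hD (h1 s t hs ht0 ht1) (h2 s t hs ht0 ht1))

theorem OnLine.mul (hV : OnLine σ x0 X1 V) (hW : OnLine σ x0 X1 W) :
    OnLine σ x0 X1 (fun s t => V s t * W s t) := by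
  obtain ⟨A, C, hA, hC, h1⟩ := hV.bd
  obtain ⟨B, D, hB, hD, h2⟩ := hW.bd
  refine ⟨fun s hs => (hV.dif s hs).mul (hW.dif s hs),
    fun t ht0 ht1 => (hV.con t ht0 ht1).mul (hW.con t ht0 ht1),
    A + B, C * D, add_nonneg hA hB, mul_nonneg hC hD, fun s t hs ht0 ht1 => ?_⟩
  have hpos : 0 < 1 + |s.im| + |t.im| := lt_of_lt_of_le one_pos (one_le_base s t)
  rw [norm_mul, Real.rpow_add hpos, mul_mul_mul_comm]
  exact mul_le_mul (h1 s t hs ht0 ht1) (h2 s t hs ht0 ht1) (norm_nonneg _) (by positivity)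

theorem OnLine.const (c : ℂ) : OnLine σ x0 X1 (fun _ _ => c) := by
  refine ⟨fun s _ => differentiableOn_const c, fun t _ _ => continuous_const,
    0, ‖c‖, le_refl 0, norm_nonneg c, fun s t _ _ _ => ?_⟩
  rw [Real.rpow_zero, mul_one]

theorem OnLine.sum {ι : Type} (s : Finset ι) {f : ι → ℂ → ℂ → ℂ}
    (h : ∀ i ∈ s, OnLine σ x0 X1 (f i)) : OnLine σ x0 X1 (fun x y => ∑ i ∈ s, f i x y) := by
  classical
  induction s using Finset.induction_on with
  | empty =>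
    simp only [Finset.sum_empty]
    exact OnLine.const 0
  | insert a s ha ih =>
    simp only [Finset.sum_insert ha]
    exact (h a (Finset.mem_insert_self a s)).add
      (ih fun i hi => h i (Finset.mem_insert_of_mem hi))

theorem OnLine.congr (hW : OnLine σ x0 X1 W)
    (h : ∀ s t : ℂ, s.re = σ → x0 < t.re → t.re < X1 → V s t = W s t) : OnLine σ x0 X1 V := by
  obtain ⟨A, C, hA, hC, h1⟩ := hW.bd
  refine ⟨fun s hs => (hW.dif s hs).congr fun t ht => h s t hs ht.1 ht.2,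
    fun t ht0 ht1 => (hW.con t ht0 ht1).congr fun y => (h _ t (line_re σ y) ht0 ht1).symm,
    A, C, hA, hC, fun s t hs ht0 ht1 => ?_⟩
  rw [h s t hs ht0 ht1]
  exact h1 s t hs ht0 ht1

theorem OnLine.mono {x0' X1' : ℝ} (hW : OnLine σ x0 X1 W) (h0 : x0 ≤ x0') (h1 : X1' ≤ X1) :
    OnLine σ x0' X1' W := by
  obtain ⟨A, C, hA, hC, h2⟩ := hW.bd
  exact ⟨fun s hs => (hW.dif s hs).mono fun t ht =>
      ⟨lt_of_le_of_lt h0 ht.1, lt_of_lt_of_le ht.2 h1⟩,
    fun t ht0 ht1 => hW.con t (lt_of_le_of_lt h0 ht0) (lt_of_lt_of_le ht1 h1),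
    A, C, hA, hC, fun s t hs ht0 ht1 =>
      h2 s t hs (lt_of_le_of_lt h0 ht0) (lt_of_lt_of_le ht1 h1)⟩

/-- restriction to the line -/
theorem OnLine.of_hol {U : Set (ℂ × ℂ)} (hf : Hol2 U W)
    (hU : ∀ s t : ℂ, s.re = σ → x0 < t.re → t.re < X1 → (s, t) ∈ U)
    (hb : ∃ A C : ℝ, 0 ≤ A ∧ 0 ≤ C ∧ ∀ s t : ℂ, s.re = σ → x0 < t.re → t.re < X1 →
      ‖W s t‖ ≤ C * (1 + |s.im| + |t.im|) ^ A) : OnLine σ x0 X1 W := by
  refine ⟨fun s hs t ht => ?_, fun t ht0 ht1 => ?_, hb⟩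
  · exact (hf (fun _ => s) (fun z => z) (differentiable_const s) differentiable_id t
      (hU s t hs ht.1 ht.2)).differentiableWithinAt
  · refine continuous_iff_continuousAt.2 fun y => ?_
    have h1 := (hf (fun z => σ + z * Complex.I) (fun _ => t)
      ((differentiable_const _).add (differentiable_id.mul_const _)) (differentiable_const t) (y : ℂ)
      (hU _ t (line_re σ y) ht0 ht1)).continuousAt
    exact ContinuousAt.comp (f := fun y : ℝ => (y : ℂ))
      (g := fun z : ℂ => W (σ + z * Complex.I) t) h1 Complex.continuous_ofReal.continuousAt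

/-- restriction to the reflected line -/
theorem OnLine.of_refl {U : Set (ℂ × ℂ)} (hf : Hol2 U W)
    (hU : ∀ s t : ℂ, s.re = 2 - σ → x0 < t.re → t.re < X1 → (s, t) ∈ U)
    (hb : ∃ A C : ℝ, 0 ≤ A ∧ 0 ≤ C ∧ ∀ s t : ℂ, s.re = 2 - σ → x0 < t.re → t.re < X1 →
      ‖W s t‖ ≤ C * (1 + |s.im| + |t.im|) ^ A) : OnLine σ x0 X1 (fun s t => W (2 - s) t) := by
  have hre : ∀ s : ℂ, s.re = σ → (2 - s).re = 2 - σ := by
    intro s hs
    rw [Complex.sub_re, hs]
    rfl
  have him : ∀ s : ℂ, |(2 - s).im| = |s.im| := by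
    intro s
    have h2 : (2 - s).im = - s.im := by
      rw [Complex.sub_im]
      have h3 : (2 : ℂ).im = 0 := rfl
      rw [h3, zero_sub]
    rw [h2, abs_neg]
  refine ⟨fun s hs t ht => ?_, fun t ht0 ht1 => ?_, ?_⟩
  · exact (hf (fun _ => 2 - s) (fun z => z) (differentiable_const _) differentiable_id t
      (hU _ t (hre s hs) ht.1 ht.2)).differentiableWithinAt
  · refine continuous_iff_continuousAt.2 fun y => ?_
    have h1 := (hf (fun z => 2 - (σ + z * Complex.I)) (fun _ => t)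
      ((differentiable_const _).sub ((differentiable_const _).add (differentiable_id.mul_const _)))
      (differentiable_const t) (y : ℂ)
      (hU _ t (hre _ (line_re σ y)) ht0 ht1)).continuousAt
    exact ContinuousAt.comp (f := fun y : ℝ => (y : ℂ))
      (g := fun z : ℂ => W (2 - (σ + z * Complex.I)) t) h1 Complex.continuous_ofReal.continuousAt
  · obtain ⟨A, C, hA, hC, h1⟩ := hb
    refine ⟨A, C, hA, hC, fun s t hs ht0 ht1 => ?_⟩
    have h2 := h1 (2 - s) t (hre s hs) ht0 ht1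
    rw [him] at h2
    exact h2

/-- restriction with exchanged variables -/
theorem OnLine.of_swap {U : Set (ℂ × ℂ)} (hf : Hol2 U W)
    (hU : ∀ s t : ℂ, s.re = σ → x0 < t.re → t.re < X1 → (t, s) ∈ U)
    (hb : PB W x0 X1 σ σ) : OnLine σ x0 X1 (fun s t => W t s) := by
  refine ⟨fun s hs t ht => ?_, fun t ht0 ht1 => ?_, ?_⟩
  · exact (hf (fun z => z) (fun _ => s) differentiable_id (differentiable_const s) t
      (hU s t hs ht.1 ht.2)).differentiableWithinAt
  · refine continuous_iff_continuousAt.2 fun y => ?_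
    have h1 := (hf (fun _ => t) (fun z => σ + z * Complex.I) (differentiable_const t)
      ((differentiable_const _).add (differentiable_id.mul_const _)) (y : ℂ)
      (hU _ t (line_re σ y) ht0 ht1)).continuousAt
    exact ContinuousAt.comp (f := fun y : ℝ => (y : ℂ))
      (g := fun z : ℂ => W t (σ + z * Complex.I)) h1 Complex.continuous_ofReal.continuousAt
  · obtain ⟨A, C, hA, hC, h1⟩ := hb
    refine ⟨A, C, hA, hC, fun s t hs ht0 ht1 => ?_⟩
    have h2 := h1 t s ht0.le ht1.le hs.ge hs.le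
    have h3 : 1 + |t.im| + |s.im| = 1 + |s.im| + |t.im| := by ring
    rw [h3] at h2
    exact h2

/-- functions of `s` -/
theorem OnLine.of_fst {f : ℂ → ℂ} (hc : Continuous fun y : ℝ => f (σ + y * Complex.I))
    (hb : ∃ A C : ℝ, 0 ≤ A ∧ 0 ≤ C ∧ ∀ s : ℂ, s.re = σ → ‖f s‖ ≤ C * (1 + |s.im|) ^ A) :
    OnLine σ x0 X1 (fun s _ => f s) := by
  obtain ⟨A, C, hA, hC, h1⟩ := hb
  refine ⟨fun s _ => differentiableOn_const _, fun t _ _ => hc, A, C, hA, hC,
    fun s t hs _ _ => (h1 s hs).trans ?_⟩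
  have h2 := abs_nonneg s.im
  have h3 := abs_nonneg t.im
  exact mul_le_mul_of_nonneg_left (Real.rpow_le_rpow (by linarith) (by linarith) hA) hC

/-- functions of `t` -/
theorem OnLine.of_snd {f : ℂ → ℂ} (hd : DifferentiableOn ℂ f {t : ℂ | x0 < t.re ∧ t.re < X1})
    (hb : ∃ A C : ℝ, 0 ≤ A ∧ 0 ≤ C ∧ ∀ t : ℂ, x0 ≤ t.re → t.re ≤ X1 →
      ‖f t‖ ≤ C * (1 + |t.im|) ^ A) : OnLine σ x0 X1 (fun _ t => f t) := by
  obtain ⟨A, C, hA, hC, h1⟩ := hb
  refine ⟨fun s _ => hd, fun t _ _ => continuous_const, A, C, hA, hC,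
    fun s t _ ht0 ht1 => (h1 t ht0.le ht1.le).trans ?_⟩
  have h2 := abs_nonneg s.im
  have h3 := abs_nonneg t.im
  exact mul_le_mul_of_nonneg_left (Real.rpow_le_rpow (by linarith) (by linarith) hA) hC

private theorem of_aff {f : ℂ → ℂ} {x y : ℝ} {g : ℂ → ℂ → ℂ}
    (hgt : ∀ s, Differentiable ℂ (g s)) (hgs : ∀ t, Continuous fun s => g s t)
    (hre : ∀ s t : ℂ, s.re = σ → x0 < t.re → t.re < X1 → x < (g s t).re ∧ (g s t).re < y)
    (him : ∀ s t : ℂ, |(g s t).im| ≤ |s.im| + |t.im|)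
    (hd : DifferentiableOn ℂ f {w : ℂ | x < w.re ∧ w.re < y})
    (hb : ∃ A C : ℝ, 0 ≤ A ∧ 0 ≤ C ∧ ∀ w : ℂ, x < w.re → w.re < y →
      ‖f w‖ ≤ C * (1 + |w.im|) ^ A) : OnLine σ x0 X1 (fun s t => f (g s t)) := by
  obtain ⟨A, C, hA, hC, h1⟩ := hb
  refine ⟨fun s hs => ?_, fun t ht0 ht1 => ?_, A, C, hA, hC, fun s t hs ht0 ht1 => ?_⟩
  · exact hd.comp (hgt s).differentiableOn fun t ht => hre s t hs ht.1 ht.2
  · have hc : Continuous fun y : ℝ => g (σ + y * Complex.I) t :=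
      (hgs t).comp (continuous_const.add (Complex.continuous_ofReal.mul continuous_const))
    exact hd.continuousOn.comp_continuous hc fun y => hre _ t (line_re σ y) ht0 ht1
  · obtain ⟨h2, h3⟩ := hre s t hs ht0 ht1
    refine (h1 _ h2 h3).trans ?_
    have h4 := abs_nonneg (g s t).im
    have h5 := him s t
    exact mul_le_mul_of_nonneg_left (Real.rpow_le_rpow (by linarith) (by linarith) hA) hC

/-- functions of `w = t - s + 1/2` -/
theorem OnLine.of_ww {f : ℂ → ℂ} {x y : ℝ} (hx : x ≤ x0 - σ + 1 / 2) (hy : X1 - σ + 1 / 2 ≤ y)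
    (hd : DifferentiableOn ℂ f {w : ℂ | x < w.re ∧ w.re < y})
    (hb : ∃ A C : ℝ, 0 ≤ A ∧ 0 ≤ C ∧ ∀ w : ℂ, x < w.re → w.re < y →
      ‖f w‖ ≤ C * (1 + |w.im|) ^ A) : OnLine σ x0 X1 (fun s t => f (ww s t)) := by
  have hre : ∀ s t : ℂ, (ww s t).re = t.re - s.re + 1 / 2 := by
    intro s t
    unfold ww
    simp
  have him : ∀ s t : ℂ, (ww s t).im = t.im - s.im := by
    intro s t
    unfold ww
    simp
  refine of_aff (fun s => ?_) (fun t => ?_) (fun s t hs ht0 ht1 => ?_) (fun s t => ?_) hd hb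
  · unfold ww
    exact (differentiable_id.sub_const s).add_const _
  · unfold ww
    exact (continuous_const.sub continuous_id).add continuous_const
  · rw [hre, hs]
    constructor
    · linarith
    · linarith
  · rw [him]
    have h1 := abs_sub t.im s.im
    linarith

/-- functions of `w' = t + s - 3/2` -/
theorem OnLine.of_wp {f : ℂ → ℂ} {x y : ℝ} (hx : x ≤ x0 + σ - 3 / 2) (hy : X1 + σ - 3 / 2 ≤ y)
    (hd : DifferentiableOn ℂ f {w : ℂ | x < w.re ∧ w.re < y})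
    (hb : ∃ A C : ℝ, 0 ≤ A ∧ 0 ≤ C ∧ ∀ w : ℂ, x < w.re → w.re < y →
      ‖f w‖ ≤ C * (1 + |w.im|) ^ A) : OnLine σ x0 X1 (fun s t => f (wp s t)) := by
  have hre : ∀ s t : ℂ, (wp s t).re = t.re + s.re - 3 / 2 := by
    intro s t
    unfold wp
    simp
  have him : ∀ s t : ℂ, (wp s t).im = t.im + s.im := by
    intro s t
    unfold wp
    simp
  refine of_aff (fun s => ?_) (fun t => ?_) (fun s t hs ht0 ht1 => ?_) (fun s t => ?_) hd hb
  · unfold wp
    exact (differentiable_id.add_const s).sub_const _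
  · unfold wp
    exact (continuous_const.add continuous_id).sub continuous_const
  · rw [hre, hs]
    constructor
    · linarith
    · linarith
  · rw [him]
    have h1 := abs_add_le t.im s.im
    linarith

end Pool.Agent.LD
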