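import Pool.Agent.LD.A.Solve

/-!
# LD-RN: the bad series `YR 1 t s`, times `Λ(t)` and a polynomial, continues in `t` on the line

PLAN. `n0` = maximum over `g ∈ H` of the `n0` of `exists_W`, of `R + 2` and `4`.  `σ = n + 1/2`,
`X = σ + 1`; `P`, `Nf` from `hL.M_inv X`.  `w = ww s t`: for `0 < Re t < X1 ≤ n - 1`:
`-X < -σ + 1/2 < Re w < X1 - σ + 1/2 ≤ -1`.  `W g` from `exists_W` (for `x0 = 0`, `X1`; choice for `g ∈ H`,
`0` otherwise).
`V s t = ((wp s t - 1)^2 (ww t s - 1)^2)⁻¹ (cU^2 w^2 ((w-1)^2)⁻¹ ∑ g, (if g ∈ H then Nf g w * W g s t else 0)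
   - Lam t * ∑ c, (if c ∈ H then 0 else (∑ g, if g ∈ H then Nf g w * M (g e c) w else 0) * Y c t s))`.
`OnLine`: `Nf g (ww s t)`, `M (..) (ww s t)`, `w^2 ((w-1)^2)⁻¹`, `((ww t s - 1)^2)⁻¹` (`ww t s = 1 - ww s t`, so
this is `(w^2)⁻¹`): `of_ww` with `x = -σ + 1/2`, `y = -1` (bounds for the closed strip imply those on
the open one); `((wp s t - 1)^2)⁻¹`: `of_wp`, `Re (wp - 1) > σ - 5/2 ≥ 1`; `Y c t s`: `of_swap` (`R < σ`);
`Lam t`: `of_snd`.
Agreement for `R < Re t < X1`: `W g s t = Lam t * Y (g e) s t`; `hY.eq`: `Y (g e) s t = YR (g e) s t`; `hB (g e) s t`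
multiplied by `Nf g w` and summed over `g ∈ H`; the coefficient of `YR c' t s`, `c' ∈ H`, is
`∑ g, if g ∈ H then Nf g w * M (g c' e) w else 0 = if c' = 1 then P w else 0` (`g * e * c' = g * c' * e`), for
`c' ∉ H`: `YR c' t s = Y c' t s`.
-/

namespace Pool.Agent.LD

open Pool.Agent.QD Pool.Agent.QD.SysD

variable {S : SysD} {H : Subgroup S.G} {R : ℝ} {Y : S.G → ℂ → ℂ → ℂ} {e p : S.G} {q : ℕ}
  {lam : ℝ}

private theorem ww_swap (s t : ℂ) : ww t s - 1 = -ww s t := by
  unfold ww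
  ring

private theorem norm_le_sub_one {w : ℂ} (hw : w.re < 0) : ‖w‖ ≤ ‖w - 1‖ := by
  have h1 : ‖w‖ ^ 2 ≤ ‖w - 1‖ ^ 2 := by
    rw [Complex.sq_norm, Complex.sq_norm, Complex.normSq_apply, Complex.normSq_apply,
      Complex.sub_re, Complex.sub_im, Complex.one_re, Complex.one_im]
    nlinarith
  exact (sq_le_sq₀ (norm_nonneg _) (norm_nonneg _)).1 h1

private theorem one_le_norm {w : ℂ} (hw : 1 ≤ |w.re|) : 1 ≤ ‖w‖ :=
  hw.trans (Complex.abs_re_le_norm w)

private theorem inv_sq_le {w : ℂ} (hw : 1 ≤ |w.re|) : ‖(w ^ 2)⁻¹‖ ≤ 1 := by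
  rw [norm_inv, norm_pow]
  exact inv_le_one_of_one_le₀ (one_le_pow₀ (one_le_norm hw))

/-- the inverse of the square of `w' - 1` -/
private theorem on_wp {n : ℕ} (hn : 3 ≤ n) (X1 : ℝ) :
    OnLine ((n : ℝ) + 1 / 2) 0 X1 (fun s t => ((wp s t - 1) ^ 2)⁻¹) := by
  have hn' : (3 : ℝ) ≤ n := by exact_mod_cast hn
  refine OnLine.of_wp (f := fun w => ((w - 1) ^ 2)⁻¹) (x := (n : ℝ) - 1) (y := X1 + n - 1)
    (by linarith) (by linarith) ?_ ?_
  · intro w hw
    have h0 : w - 1 ≠ 0 := by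
      intro h
      have h1 : (w - 1).re = 0 := by rw [h]; rfl
      rw [Complex.sub_re, Complex.one_re] at h1
      have := hw.1
      linarith
    apply DifferentiableAt.differentiableWithinAt
    fun_prop (disch := exact pow_ne_zero 2 h0)
  · refine ⟨0, 1, le_rfl, zero_le_one, fun w hw _ => ?_⟩
    rw [Real.rpow_zero, mul_one]
    apply inv_sq_le
    rw [Complex.sub_re, Complex.one_re]
    exact le_abs.2 (Or.inl (by linarith))

/-- the inverse of the square of `w` -/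
private theorem on_ww {n : ℕ} {X1 : ℝ} (hX : X1 ≤ n - 1) :
    OnLine ((n : ℝ) + 1 / 2) 0 X1 (fun s t => ((ww t s - 1) ^ 2)⁻¹) := by
  have h1 : (fun s t => ((ww t s - 1) ^ 2)⁻¹) = fun s t => (fun w : ℂ => (w ^ 2)⁻¹) (ww s t) := by
    funext s t
    rw [ww_swap, neg_sq]
  rw [h1]
  refine OnLine.of_ww (f := fun w : ℂ => (w ^ 2)⁻¹) (σ := (n : ℝ) + 1 / 2) (x0 := 0) (X1 := X1)
    (x := -(n : ℝ)) (y := -1) (by linarith) (by linarith) ?_ ?_
  · intro w hw
    have h0 : w ≠ 0 := by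
      intro h
      have h1 : w.re = 0 := by rw [h]; rfl
      have := hw.2
      linarith
    apply DifferentiableAt.differentiableWithinAt
    fun_prop (disch := exact pow_ne_zero 2 h0)
  · refine ⟨0, 1, le_rfl, zero_le_one, fun w _ hw => ?_⟩
    rw [Real.rpow_zero, mul_one]
    apply inv_sq_le
    exact le_abs.2 (Or.inr (by linarith))

private theorem on_quot {n : ℕ} {X1 : ℝ} (hX : X1 ≤ n - 1) :
    OnLine ((n : ℝ) + 1 / 2) 0 X1 (fun s t => (ww s t) ^ 2 * ((ww s t - 1) ^ 2)⁻¹) := by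
  refine OnLine.of_ww (f := fun w => w ^ 2 * ((w - 1) ^ 2)⁻¹) (x := -(n : ℝ)) (y := -1)
    (by linarith) (by linarith) ?_ ?_
  · intro w hw
    have h0 : w - 1 ≠ 0 := by
      intro h
      have h1 : (w - 1).re = 0 := by rw [h]; rfl
      rw [Complex.sub_re, Complex.one_re] at h1
      have := hw.2
      linarith
    apply DifferentiableAt.differentiableWithinAt
    fun_prop (disch := exact pow_ne_zero 2 h0)
  · refine ⟨0, 1, le_rfl, zero_le_one, fun w _ hw => ?_⟩
    rw [Real.rpow_zero, mul_one, norm_mul, norm_inv, norm_pow, norm_pow, ← div_eq_mul_inv]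
    apply div_le_one_of_le₀
    · exact pow_le_pow_left₀ (norm_nonneg _) (norm_le_sub_one (by linarith)) 2
    · positivity

private theorem on_Lam {q : ℕ} (hq : 101 ≤ q) (lam : ℝ) (σ x0 X1 : ℝ) :
    OnLine σ x0 X1 (fun _ t => Lam q lam t) := by
  have hq0 : 0 < q := by omega
  have hqC : (q : ℂ) ≠ 0 := by exact_mod_cast hq0.ne'
  have hq1 : (1 : ℝ) ≤ q := by exact_mod_cast (by omega : 1 ≤ q)
  refine OnLine.of_snd ?_ ?_
  · intro t _
    apply DifferentiableAt.differentiableWithinAt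
    unfold Lam
    have h1 : DifferentiableAt ℂ (fun t : ℂ => (q : ℂ) ^ (t - 1)) t :=
      DifferentiableAt.const_cpow (by fun_prop) (Or.inl hqC)
    have h2 : DifferentiableAt ℂ (fun t : ℂ => (q : ℂ) ^ (2 - t)) t :=
      DifferentiableAt.const_cpow (by fun_prop) (Or.inl hqC)
    exact (h1.add h2).sub_const _
  · refine ⟨0, (q : ℝ) ^ (X1 - 1) + (q : ℝ) ^ (2 - x0) + |lam|, le_rfl, by positivity,
      fun t h0 h1 => ?_⟩
    rw [Real.rpow_zero, mul_one]
    unfold Lam
    have e1 : ‖(q : ℂ) ^ (t - 1)‖ = (q : ℝ) ^ (t.re - 1) := by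
      rw [Complex.norm_natCast_cpow_of_pos hq0, Complex.sub_re, Complex.one_re]
    have e2 : ‖(q : ℂ) ^ (2 - t)‖ = (q : ℝ) ^ (2 - t.re) := by
      rw [Complex.norm_natCast_cpow_of_pos hq0, Complex.sub_re]
      rfl
    calc ‖(q : ℂ) ^ (t - 1) + (q : ℂ) ^ (2 - t) - (lam : ℂ)‖
        ≤ ‖(q : ℂ) ^ (t - 1)‖ + ‖(q : ℂ) ^ (2 - t)‖ + ‖(lam : ℂ)‖ :=
          (norm_sub_le _ _).trans (add_le_add (norm_add_le _ _) le_rfl)
      _ ≤ (q : ℝ) ^ (X1 - 1) + (q : ℝ) ^ (2 - x0) + |lam| := by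
          rw [e1, e2, Complex.norm_real, Real.norm_eq_abs]
          gcongr <;> linarith

theorem exists_V (hS : IsSys0 S) (hG : IsGd S H) (hL : IsLoc S H e p q lam) (hR : 1 ≤ R)
    (hY : IsY S H R Y) (hB : Beta S R) :
    ∃ n0 : ℕ, ∀ n : ℕ, n0 ≤ n → ∀ X1 : ℝ, X1 ≤ n - 1 →
      ∃ (P : Polynomial ℂ) (V : ℂ → ℂ → ℂ), P ≠ 0 ∧ OnLine ((n : ℝ) + 1 / 2) 0 X1 V ∧
      ∀ s t : ℂ, s.re = (n : ℝ) + 1 / 2 → R < t.re → t.re < X1 →
        V s t = Lam q lam t * P.eval (ww s t) * Gq S s t := by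
  classical
  have hW0 : ∀ g : S.G, ∃ n0 : ℕ, g ∈ H → ∀ n : ℕ, n0 ≤ n → ∀ x0 X1 : ℝ, ∃ W : ℂ → ℂ → ℂ,
      OnLine ((n : ℝ) + 1 / 2) x0 X1 W ∧
      ∀ s t : ℂ, s.re = (n : ℝ) + 1 / 2 → R < t.re → x0 < t.re → t.re < X1 →
        W s t = Lam q lam t * Y (g * e) s t := by
    intro g
    by_cases hg : g ∈ H
    · obtain ⟨n0, h⟩ := exists_W hS hG hL hR hY hB hg
      exact ⟨n0, fun _ => h⟩
    · exact ⟨0, fun h => absurd h hg⟩
  choose n0 hn0 using hW0
  refine ⟨max (Finset.univ.sup n0) (⌈R⌉₊ + 4), ?_⟩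
  intro n hn X1 hX1
  have hnR : ⌈R⌉₊ + 4 ≤ n := (le_max_right _ _).trans hn
  have hn3 : 3 ≤ n := by omega
  have hRn : R + 4 ≤ n := by
    have h1 := Nat.le_ceil R
    have h2 : ((⌈R⌉₊ + 4 : ℕ) : ℝ) ≤ n := by exact_mod_cast hnR
    push_cast at h2
    linarith
  have hW1 : ∀ g : S.G, ∃ W : ℂ → ℂ → ℂ, g ∈ H → (OnLine ((n : ℝ) + 1 / 2) 0 X1 W ∧
      ∀ s t : ℂ, s.re = (n : ℝ) + 1 / 2 → R < t.re → t.re < X1 →
        W s t = Lam q lam t * Y (g * e) s t) := by
    intro g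
    by_cases hg : g ∈ H
    · have hle : n0 g ≤ n :=
        ((Finset.le_sup (f := n0) (Finset.mem_univ g)).trans (le_max_left _ _)).trans hn
      obtain ⟨W, h1, h2⟩ := hn0 g hg n hle 0 X1
      exact ⟨W, fun _ => ⟨h1, fun s t hs ht ht1 => h2 s t hs ht (by linarith) ht1⟩⟩
    · exact ⟨fun _ _ => 0, fun h => absurd h hg⟩
  choose W hW using hW1
  obtain ⟨P, Nf, hP, hNd, hNb, hNM⟩ := hL.M_inv ((n : ℝ) + 3 / 2) (by linarith)
  refine ⟨P, fun s t => (((wp s t - 1) ^ 2)⁻¹ * ((ww t s - 1) ^ 2)⁻¹) *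
    (((S.cU : ℂ) ^ 2) * ((ww s t) ^ 2 * ((ww s t - 1) ^ 2)⁻¹) *
      (∑ g : S.G, if g ∈ H then Nf g (ww s t) * W g s t else 0) -
    Lam q lam t * ∑ c : S.G, if c ∈ H then 0 else
      (∑ g : S.G, if g ∈ H then Nf g (ww s t) * S.M (g * e * c) (ww s t) else 0) * Y c t s),
    hP, ?_, ?_⟩
  · -- regularity
    have hNf : ∀ g, OnLine ((n : ℝ) + 1 / 2) 0 X1 (fun s t => Nf g (ww s t)) := by
      intro g
      refine OnLine.of_ww (x := -(n : ℝ)) (y := -1) (by linarith) (by linarith) ?_ ?_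
      · refine (hNd g).mono ?_
        rintro w ⟨h1, h2⟩
        exact ⟨by linarith, by linarith⟩
      · obtain ⟨A, C, hA, hC, h⟩ := hNb g (-(n : ℝ)) (-1) (by linarith) (by norm_num)
        exact ⟨A, C, hA, hC, fun w h1 h2 => h w h1.le h2.le⟩
    have hM : ∀ c, OnLine ((n : ℝ) + 1 / 2) 0 X1 (fun s t => S.M c (ww s t)) := by
      intro c
      refine OnLine.of_ww (x := -(n : ℝ)) (y := -1) (by linarith) (by linarith) ?_ ?_
      · refine (M_diff hS c).mono ?_
        rintro w ⟨_, h2⟩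
        show w.re < 0
        linarith
      · obtain ⟨A, C, hA, hC, h⟩ := M_bd hS c (-(n : ℝ)) (-1) (by norm_num)
        exact ⟨A, C, hA, hC, fun w h1 h2 => h w h1.le h2.le⟩
    have hsum1 : OnLine ((n : ℝ) + 1 / 2) 0 X1
        (fun s t => ∑ g : S.G, if g ∈ H then Nf g (ww s t) * W g s t else 0) := by
      refine OnLine.sum Finset.univ
        (f := fun g s t => if g ∈ H then Nf g (ww s t) * W g s t else 0) ?_
      intro g _
      by_cases hg : g ∈ H
      · simp only [hg, if_true]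
        exact (hNf g).mul (hW g hg).1
      · simp only [hg, if_false]
        exact OnLine.const 0
    have hsum2 : ∀ c, OnLine ((n : ℝ) + 1 / 2) 0 X1
        (fun s t => ∑ g : S.G, if g ∈ H then Nf g (ww s t) * S.M (g * e * c) (ww s t) else 0) := by
      intro c
      refine OnLine.sum Finset.univ
        (f := fun g s t => if g ∈ H then Nf g (ww s t) * S.M (g * e * c) (ww s t) else 0) ?_
      intro g _
      by_cases hg : g ∈ H
      · simp only [hg, if_true]
        exact (hNf g).mul (hM _)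
      · simp only [hg, if_false]
        exact OnLine.const 0
    have hsum3 : OnLine ((n : ℝ) + 1 / 2) 0 X1 (fun s t => ∑ c : S.G, if c ∈ H then 0 else
        (∑ g : S.G, if g ∈ H then Nf g (ww s t) * S.M (g * e * c) (ww s t) else 0) *
          Y c t s) := by
      refine OnLine.sum Finset.univ (f := fun c s t => if c ∈ H then 0 else
        (∑ g : S.G, if g ∈ H then Nf g (ww s t) * S.M (g * e * c) (ww s t) else 0) *
          Y c t s) ?_
      intro c _
      by_cases hc : c ∈ H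
      · simp only [hc, if_true]
        exact OnLine.const 0
      · simp only [hc, if_false]
        refine (hsum2 c).mul (OnLine.of_swap (hY.hol c hc) ?_ ?_)
        · intro s t hs _ _
          show R < s.re
          rw [hs]
          linarith
        · exact hY.bd c hc _ _ _ _ (by linarith)
    exact ((on_wp hn3 X1).mul (on_ww hX1)).mul
      ((((OnLine.const _).mul (on_quot hX1)).mul hsum1).sub
        ((on_Lam hL.hq lam _ _ _).mul hsum3))
  · -- agreement
    intro s t hs ht htX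
    have hsR : R < s.re := by rw [hs]; linarith
    have hwre : (ww s t).re = t.re - n := by
      have e1 : (1 / 2 : ℂ) = ((1 / 2 : ℝ) : ℂ) := by push_cast; rfl
      unfold ww
      rw [Complex.add_re, Complex.sub_re, hs, e1, Complex.ofReal_re]
      ring
    have hw0 : (ww s t).re < 0 := by rw [hwre]; linarith
    have hwX : -((n : ℝ) + 3 / 2) < (ww s t).re := by rw [hwre]; linarith
    set w := ww s t with hw
    have hw1 : w - 1 ≠ 0 := by
      intro h
      have h1 : (w - 1).re = 0 := by rw [h]; rfl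
      rw [Complex.sub_re, Complex.one_re] at h1
      linarith
    have hcU : (S.cU : ℂ) ≠ 0 := cU_ne hS
    -- the functional equations
    have hb1 : ∀ g ∈ H, (S.cU : ℂ) ^ 2 * (w ^ 2 * ((w - 1) ^ 2)⁻¹) * Y (g * e) s t =
        ∑ c : S.G, S.M (g * e * c) w * YR S c t s := by
      intro g hg
      have hge : g * e ∉ H := fun h => hL.e_nm ((H.mul_mem_cancel_left hg).1 h)
      have h1 := hB (g * e) s t hsR ht hw0
      rw [← hY.eq _ hge s t hsR ht, ← hw] at h1
      have h2 : (w - 1) ^ 2 ≠ 0 := pow_ne_zero 2 hw1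
      have h3 : (S.cU : ℂ) ^ 2 ≠ 0 := pow_ne_zero 2 hcU
      calc (S.cU : ℂ) ^ 2 * (w ^ 2 * ((w - 1) ^ 2)⁻¹) * Y (g * e) s t
          = (S.cU : ℂ) ^ 2 * ((w - 1) ^ 2)⁻¹ * (w ^ 2 * Y (g * e) s t) := by ring
        _ = (S.cU : ℂ) ^ 2 * ((w - 1) ^ 2)⁻¹ * ((w - 1) ^ 2 * ((S.cU : ℂ) ^ 2)⁻¹ *
            ∑ c : S.G, S.M (g * e * c) w * YR S c t s) := by rw [h1]
        _ = _ := by field_simp
    have hs1 : (S.cU : ℂ) ^ 2 * (w ^ 2 * ((w - 1) ^ 2)⁻¹) *
        (∑ g : S.G, if g ∈ H then Nf g w * W g s t else 0) =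
        Lam q lam t * ∑ c : S.G,
          (∑ g : S.G, if g ∈ H then Nf g w * S.M (g * e * c) w else 0) * YR S c t s := by
      have h1 : ∀ c : S.G, (∑ g : S.G, if g ∈ H then Nf g w * S.M (g * e * c) w else 0) *
          YR S c t s = ∑ g : S.G, if g ∈ H then Nf g w * (S.M (g * e * c) w * YR S c t s)
            else 0 := by
        intro c
        rw [Finset.sum_mul]
        apply Finset.sum_congr rfl
        intro g _
        by_cases hg : g ∈ H
        · rw [if_pos hg, if_pos hg]; ring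
        · rw [if_neg hg, if_neg hg, zero_mul]
      rw [Finset.sum_congr rfl fun c _ => h1 c, Finset.sum_comm, Finset.mul_sum, Finset.mul_sum]
      apply Finset.sum_congr rfl
      intro g _
      by_cases hg : g ∈ H
      · simp only [hg, if_true]
        rw [← Finset.mul_sum, ← hb1 g hg, (hW g hg).2 s t hs ht htX]
        ring
      · simp only [hg, if_false]
        rw [Finset.sum_const_zero, mul_zero, mul_zero]
    have hs2 : ∑ c : S.G, (∑ g : S.G, if g ∈ H then Nf g w * S.M (g * e * c) w else 0) *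
        YR S c t s = P.eval w * YR S 1 t s + ∑ c : S.G, if c ∈ H then 0 else
          (∑ g : S.G, if g ∈ H then Nf g w * S.M (g * e * c) w else 0) * Y c t s := by
      have h1 : ∀ c : S.G, (∑ g : S.G, if g ∈ H then Nf g w * S.M (g * e * c) w else 0) *
          YR S c t s = (if c = 1 then P.eval w * YR S 1 t s else 0) + (if c ∈ H then 0 else
          (∑ g : S.G, if g ∈ H then Nf g w * S.M (g * e * c) w else 0) * Y c t s) := by
        intro c
        by_cases hc : c ∈ H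
        · rw [if_pos hc, add_zero]
          have h2 := hNM c hc w hwX hw0
          have h3 : (∑ g : S.G, if g ∈ H then Nf g w * S.M (g * e * c) w else 0) =
              if c = 1 then P.eval w else 0 := by
            rw [← h2]
            apply Finset.sum_congr rfl
            intro g _
            rw [mul_assoc, mul_comm e c, ← mul_assoc]
          rw [h3]
          by_cases hc1 : c = 1
          · rw [if_pos hc1, if_pos hc1, hc1]
          · rw [if_neg hc1, if_neg hc1, zero_mul]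
        · rw [if_neg hc, hY.eq c hc t s ht hsR]
          have hc1 : c ≠ 1 := by
            rintro rfl
            exact hc H.one_mem
          rw [if_neg hc1, zero_add]
      rw [Finset.sum_congr rfl fun c _ => h1 c, Finset.sum_add_distrib, Finset.sum_ite_eq',
        if_pos (Finset.mem_univ _)]
    dsimp only
    rw [← hw, hs1, hs2]
    unfold Gq
    rw [div_eq_mul_inv, mul_inv]
    ring

end Pool.Agent.LD
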