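import Pool.Agent.QD.A.Defs

/-!
# LD-Shift: shifting the line of integration to the right

PLAN. `line_shift`: Cauchy's theorem for the rectangles `[a, b] × [-Y, Y]` (Mathlib:
`Complex.integral_boundary_rect_eq_zero_of_differentiableOn`), the horizontal sides are at most
`(b - a) C (1 + Y)^(-2)`; let `Y → ∞` (`MeasureTheory.intervalIntegral_tendsto_integral`).
`shift_zero`: by `line_shift` the integral over `Re s = σ` equals the integral over `Re s = σ'` for all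
`σ' ≥ σ`, which is at most `C ρ^σ' ∫ (1 + |y|)^(-2)`, so it is `0`.
`shift_main`: `P (t - s + 1/2) Ψ (s - t) G s = P Ψ (G s - L) + L P Ψ`.  First part: `shift_zero` with
`ρ = e/101`-type bound: `‖P (t - s + 1/2)‖ ≤ C (1 + |Re s|)^d (1 + |Im s|)^d` (constants depending on `t`),
`‖Ψ (s - t)‖ ≤ C exp (Re s) (1 + |Im s|)^(-N)` (`|Im s| ≤ |Im (s - t)| + |Im t|`),
`(1 + |Re s|)^d exp (Re s) 101^(-Re s) ≤ C 2^(-Re s)`; `N = natDegree P + 2`.  Second part: `line_shift` for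
`u ↦ P (1/2 - u) Ψ u` from `Re u = σ - Re t` to `Re u = 0`, and translation
`∫ f (σ + iy - t) dy = ∫ f (σ - Re t + iy) dy` (`integral_sub_right_eq_self`).
-/

namespace Pool.Agent.LD

open Pool.Agent.QD

open MeasureTheory Filter Topology

private theorem sh_wint : Integrable (fun y : ℝ => ((1 + |y|) ^ 2)⁻¹) := by
  have h := integrable_one_add_norm (E := ℝ) (μ := volume) (r := 2) (by
    rw [Module.finrank_self]
    norm_num)
  refine h.congr (Eventually.of_forall fun y => ?_)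
  show (1 + ‖y‖) ^ (-(2 : ℝ)) = ((1 + |y|) ^ 2)⁻¹
  rw [Real.rpow_neg (by positivity), Real.norm_eq_abs]
  norm_cast

private theorem sh_int {g : ℝ → ℂ} (hg : Continuous g) {C : ℝ}
    (hC : ∀ y, ‖g y‖ ≤ C * ((1 + |y|) ^ 2)⁻¹) : Integrable g :=
  (sh_wint.const_mul C).mono' hg.aestronglyMeasurable (Eventually.of_forall hC)

private theorem sh_re (σ y : ℝ) : ((σ : ℂ) + y * Complex.I).re = σ := by simp

private theorem sh_im (σ y : ℝ) : ((σ : ℂ) + y * Complex.I).im = y := by simp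

private theorem sh_cont {f : ℂ → ℂ} {U : Set ℂ} (hf : DifferentiableOn ℂ f U) {σ : ℝ}
    (hU : ∀ y : ℝ, (σ : ℂ) + y * Complex.I ∈ U) :
    Continuous fun y : ℝ => f (σ + y * Complex.I) :=
  hf.continuousOn.comp_continuous (by fun_prop) hU

theorem line_shift {a b : ℝ} (hab : a ≤ b) {U : Set ℂ} (hU : IsOpen U) {f : ℂ → ℂ}
    (hsub : ∀ z : ℂ, a ≤ z.re → z.re ≤ b → z ∈ U) (hf : DifferentiableOn ℂ f U) {C : ℝ}
    (hC : ∀ z : ℂ, a ≤ z.re → z.re ≤ b → ‖f z‖ ≤ C * ((1 + |z.im|) ^ 2)⁻¹) :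
    (∫ y : ℝ, f (a + y * Complex.I)) = ∫ y : ℝ, f (b + y * Complex.I) := by
  have hC0 : 0 ≤ C := by
    have h1 := hC (a : ℂ) (by simp) (by simpa using hab)
    have h2 : 0 ≤ C * ((1 + |(a : ℂ).im|) ^ 2)⁻¹ := (norm_nonneg _).trans h1
    simpa using h2
  have hbd : ∀ σ : ℝ, a ≤ σ → σ ≤ b → ∀ y : ℝ,
      ‖f (σ + y * Complex.I)‖ ≤ C * ((1 + |y|) ^ 2)⁻¹ := by
    intro σ h1 h2 y
    have h3 := hC (σ + y * Complex.I) (by rw [sh_re]; exact h1) (by rw [sh_re]; exact h2)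
    rwa [sh_im] at h3
  have hlim : ∀ σ : ℝ, a ≤ σ → σ ≤ b → Tendsto (fun Y : ℝ => ∫ y in (-Y)..Y,
      f (σ + y * Complex.I)) atTop (𝓝 (∫ y : ℝ, f (σ + y * Complex.I))) := by
    intro σ h1 h2
    refine intervalIntegral_tendsto_integral (sh_int (sh_cont hf fun y => ?_) (hbd σ h1 h2))
      tendsto_neg_atTop_atBot tendsto_id
    exact hsub _ (by rw [sh_re]; exact h1) (by rw [sh_re]; exact h2)
  have hdiff := (hlim b hab le_rfl).sub (hlim a le_rfl hab)
  have hzero : Tendsto (fun Y : ℝ => (∫ y in (-Y)..Y, f (b + y * Complex.I)) -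
      ∫ y in (-Y)..Y, f (a + y * Complex.I)) atTop (𝓝 0) := by
    have hb0 : Tendsto (fun Y : ℝ => 2 * (C * (b - a)) * ((1 + |Y|) ^ 2)⁻¹) atTop (𝓝 0) := by
      have h1 : Tendsto (fun Y : ℝ => (1 + |Y|) ^ 2) atTop atTop := by
        refine (tendsto_pow_atTop (n := 2) (by norm_num)).comp ?_
        exact tendsto_atTop_add_const_left _ _ tendsto_abs_atTop_atTop
      have h2 := h1.inv_tendsto_atTop.const_mul (2 * (C * (b - a)))
      rw [mul_zero] at h2
      exact h2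
    refine squeeze_zero_norm (fun Y => ?_) hb0
    have h1 := Complex.integral_boundary_rect_eq_zero_of_differentiableOn f
      ((a : ℂ) + (-Y : ℝ) * Complex.I) ((b : ℂ) + (Y : ℝ) * Complex.I) (by
        refine hf.mono fun z hz => ?_
        have hz1 : z.re ∈ Set.uIcc a b := by
          have := hz.1
          rwa [Set.mem_preimage, sh_re, sh_re] at this
        rw [Set.uIcc_of_le hab] at hz1
        exact hsub z hz1.1 hz1.2)
    rw [sh_re, sh_im, sh_re, sh_im] at h1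
    have hh : ∀ Y' : ℝ, |Y'| = |Y| → ‖∫ x : ℝ in a..b, f (x + Y' * Complex.I)‖ ≤
        C * ((1 + |Y|) ^ 2)⁻¹ * (b - a) := by
      intro Y' hY'
      have h2 := intervalIntegral.norm_integral_le_of_norm_le_const (a := a) (b := b)
        (f := fun x : ℝ => f (x + Y' * Complex.I)) (C := C * ((1 + |Y|) ^ 2)⁻¹) (fun x hx => by
          rw [Set.uIoc_of_le hab] at hx
          have h3 := hbd x hx.1.le hx.2 Y'
          rwa [hY'] at h3)
      rwa [abs_of_nonneg (sub_nonneg.2 hab)] at h2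
    have h4 := hh (-Y) (abs_neg Y)
    have h5 := hh Y rfl
    have h6 : Complex.I * ((∫ y in (-Y)..Y, f (b + y * Complex.I)) -
        ∫ y in (-Y)..Y, f (a + y * Complex.I)) =
        (∫ x : ℝ in a..b, f (x + Y * Complex.I)) -
          ∫ x : ℝ in a..b, f (x + (-Y : ℝ) * Complex.I) := by
      simp only [smul_eq_mul] at h1
      linear_combination h1
    have h7 := congrArg norm h6
    rw [norm_mul, Complex.norm_I, one_mul] at h7
    rw [h7]
    refine (norm_sub_le _ _).trans ?_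
    linarith
  have h8 := tendsto_nhds_unique hdiff hzero
  exact (sub_eq_zero.1 h8).symm

theorem shift_zero {σ0 σ : ℝ} (h0 : σ0 < σ) {f : ℂ → ℂ}
    (hf : DifferentiableOn ℂ f {s : ℂ | σ0 < s.re}) {C ρ : ℝ} (hC0 : 0 ≤ C) (hρ : 0 < ρ)
    (hρ1 : ρ < 1)
    (hC : ∀ s : ℂ, σ0 < s.re → ‖f s‖ ≤ C * ρ ^ s.re * ((1 + |s.im|) ^ 2)⁻¹) :
    (∫ y : ℝ, f (σ + y * Complex.I)) = 0 := by
  have hop : IsOpen {s : ℂ | σ0 < s.re} := isOpen_lt continuous_const Complex.continuous_re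
  have hw : 0 ≤ ∫ y : ℝ, ((1 + |y|) ^ 2)⁻¹ := integral_nonneg fun y => by positivity
  have hb : ∀ n : ℕ, ‖∫ y : ℝ, f (σ + y * Complex.I)‖ ≤
      C * ρ ^ σ * (∫ y : ℝ, ((1 + |y|) ^ 2)⁻¹) * ρ ^ n := by
    intro n
    have h1 : (∫ y : ℝ, f (σ + y * Complex.I)) = ∫ y : ℝ, f ((σ + n : ℝ) + y * Complex.I) := by
      refine line_shift (le_add_of_nonneg_right (Nat.cast_nonneg n)) hop
        (fun z hz _ => lt_of_lt_of_le h0 hz) hf (C := C * ρ ^ σ) ?_
      intro z hz _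
      refine (hC z (lt_of_lt_of_le h0 hz)).trans ?_
      have h2 : ρ ^ z.re ≤ ρ ^ σ := Real.rpow_le_rpow_of_exponent_ge hρ hρ1.le hz
      gcongr
    rw [h1]
    have h3 : ∀ y : ℝ, ‖f ((σ + n : ℝ) + y * Complex.I)‖ ≤
        C * ρ ^ σ * ρ ^ n * ((1 + |y|) ^ 2)⁻¹ := by
      intro y
      have h4 := hC ((σ + n : ℝ) + y * Complex.I) (by
        rw [sh_re]
        have := Nat.cast_nonneg (α := ℝ) n
        linarith)
      rw [sh_re, sh_im, Real.rpow_add hρ, Real.rpow_natCast] at h4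
      calc ‖f ((σ + n : ℝ) + y * Complex.I)‖ ≤ C * (ρ ^ σ * ρ ^ n) * ((1 + |y|) ^ 2)⁻¹ := h4
        _ = C * ρ ^ σ * ρ ^ n * ((1 + |y|) ^ 2)⁻¹ := by ring
    have h5 := norm_integral_le_of_norm_le (sh_wint.const_mul (C * ρ ^ σ * ρ ^ n))
      (Eventually.of_forall h3)
    rw [integral_const_mul] at h5
    refine h5.trans (le_of_eq ?_)
    ring
  have hlim : Tendsto (fun n : ℕ => C * ρ ^ σ * (∫ y : ℝ, ((1 + |y|) ^ 2)⁻¹) * ρ ^ n) atTop
      (𝓝 0) := by
    have h1 := (tendsto_pow_atTop_nhds_zero_of_lt_one hρ.le hρ1).const_mul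
      (C * ρ ^ σ * (∫ y : ℝ, ((1 + |y|) ^ 2)⁻¹))
    rwa [mul_zero] at h1
  have h2 : ‖∫ y : ℝ, f (σ + y * Complex.I)‖ ≤ 0 := ge_of_tendsto' hlim hb
  exact norm_le_zero_iff.1 h2

private theorem sh_poly (P : Polynomial ℂ) : ∃ A : ℝ, 0 ≤ A ∧
    ∀ z : ℂ, ‖P.eval z‖ ≤ A * (1 + ‖z‖) ^ P.natDegree := by
  refine ⟨∑ i ∈ Finset.range (P.natDegree + 1), ‖P.coeff i‖,
    Finset.sum_nonneg fun _ _ => norm_nonneg _, fun z => ?_⟩
  rw [Polynomial.eval_eq_sum_range, Finset.sum_mul]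
  refine (norm_sum_le _ _).trans (Finset.sum_le_sum fun i hi => ?_)
  rw [norm_mul, norm_pow]
  have h1 : ‖z‖ ^ i ≤ (1 + ‖z‖) ^ i :=
    pow_le_pow_left₀ (norm_nonneg _) (by linarith) _
  have h2 : (1 + ‖z‖) ^ i ≤ (1 + ‖z‖) ^ P.natDegree :=
    pow_le_pow_right₀ (by linarith [norm_nonneg z]) (by have := Finset.mem_range.1 hi; omega)
  exact mul_le_mul_of_nonneg_left (h1.trans h2) (norm_nonneg _)

private theorem sh_kernel (P : Polynomial ℂ) {Ψ : ℂ → ℂ} {C : ℝ} (hC0 : 0 ≤ C)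
    (hb : ∀ u : ℂ, ‖Ψ u‖ ≤ C * Real.exp |u.re| * ((1 + |u.im|) ^ (P.natDegree + 2))⁻¹) (t : ℂ) :
    ∃ K : ℝ, 0 ≤ K ∧ ∀ s : ℂ, ‖P.eval (t - s + 1 / 2) * Ψ (s - t)‖ ≤
      K * ((1 + |s.re|) ^ P.natDegree * Real.exp |s.re|) * ((1 + |s.im|) ^ 2)⁻¹ := by
  obtain ⟨A, hA0, hA⟩ := sh_poly P
  set d := P.natDegree with hd
  set T := 2 + ‖t‖ with hT
  have hT1 : 1 ≤ T := by rw [hT]; linarith [norm_nonneg t]
  refine ⟨A * T ^ d * (C * Real.exp |t.re| * T ^ (d + 2)), by positivity, fun s => ?_⟩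
  have hx : 0 ≤ |s.re| := abs_nonneg _
  have hy : 0 ≤ |s.im| := abs_nonneg _
  have h1 : 1 + ‖t - s + 1 / 2‖ ≤ T * ((1 + |s.re|) * (1 + |s.im|)) := by
    have h2 : ‖t - s + 1 / 2‖ ≤ ‖t‖ + ‖s‖ + 1 := by
      refine (norm_add_le _ _).trans ?_
      have h3 := norm_sub_le t s
      have h4 : ‖(1 / 2 : ℂ)‖ ≤ 1 := by norm_num
      linarith
    have h5 := Complex.norm_le_abs_re_add_abs_im s
    have h6 : 1 + |s.re| + |s.im| ≤ (1 + |s.re|) * (1 + |s.im|) := by nlinarith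
    have h7 : 1 ≤ (1 + |s.re|) * (1 + |s.im|) := by nlinarith
    calc 1 + ‖t - s + 1 / 2‖ ≤ T + (|s.re| + |s.im|) := by rw [hT]; linarith
      _ ≤ T + T * (|s.re| + |s.im|) := by nlinarith
      _ = T * (1 + |s.re| + |s.im|) := by ring
      _ ≤ T * ((1 + |s.re|) * (1 + |s.im|)) := mul_le_mul_of_nonneg_left h6 (by linarith)
  have h8 : ‖P.eval (t - s + 1 / 2)‖ ≤ A * T ^ d * ((1 + |s.re|) ^ d * (1 + |s.im|) ^ d) := by
    refine (hA _).trans ?_
    have h9 : (1 + ‖t - s + 1 / 2‖) ^ d ≤ (T * ((1 + |s.re|) * (1 + |s.im|))) ^ d :=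
      pow_le_pow_left₀ (by positivity) h1 _
    calc A * (1 + ‖t - s + 1 / 2‖) ^ d ≤ A * (T * ((1 + |s.re|) * (1 + |s.im|))) ^ d :=
          mul_le_mul_of_nonneg_left h9 hA0
      _ = A * T ^ d * ((1 + |s.re|) ^ d * (1 + |s.im|) ^ d) := by
          rw [mul_pow, mul_pow]
          ring
  have h10 : ‖Ψ (s - t)‖ ≤ C * Real.exp |t.re| * T ^ (d + 2) *
      (Real.exp |s.re| * ((1 + |s.im|) ^ (d + 2))⁻¹) := by
    refine (hb _).trans ?_
    have h11 : Real.exp |(s - t).re| ≤ Real.exp |t.re| * Real.exp |s.re| := by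
      rw [← Real.exp_add, Real.exp_le_exp, Complex.sub_re]
      have := abs_sub s.re t.re
      linarith
    have h12 : ((1 + |(s - t).im|) ^ (d + 2))⁻¹ ≤ T ^ (d + 2) * ((1 + |s.im|) ^ (d + 2))⁻¹ := by
      rw [← div_eq_mul_inv, inv_le_comm₀ (by positivity) (by positivity), inv_div,
        div_le_iff₀ (by positivity), ← mul_pow]
      refine pow_le_pow_left₀ (by positivity) ?_ _
      rw [Complex.sub_im]
      have h13 : |s.im| ≤ |s.im - t.im| + |t.im| := by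
        have := abs_add_le (s.im - t.im) t.im
        simpa using this
      have h14 : |t.im| ≤ ‖t‖ := Complex.abs_im_le_norm t
      have h15 : 0 ≤ |s.im - t.im| := abs_nonneg _
      have h16 : T + |s.im - t.im| ≤ (1 + |s.im - t.im|) * T := by nlinarith
      rw [hT] at h16 ⊢
      linarith
    have h17 : 0 ≤ ((1 + |(s - t).im|) ^ (d + 2))⁻¹ := by positivity
    calc C * Real.exp |(s - t).re| * ((1 + |(s - t).im|) ^ (d + 2))⁻¹
        ≤ C * (Real.exp |t.re| * Real.exp |s.re|) *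
          (T ^ (d + 2) * ((1 + |s.im|) ^ (d + 2))⁻¹) := by gcongr
      _ = C * Real.exp |t.re| * T ^ (d + 2) *
          (Real.exp |s.re| * ((1 + |s.im|) ^ (d + 2))⁻¹) := by ring
  rw [norm_mul]
  have h18 : 0 ≤ ‖Ψ (s - t)‖ := norm_nonneg _
  calc ‖P.eval (t - s + 1 / 2)‖ * ‖Ψ (s - t)‖ ≤
      (A * T ^ d * ((1 + |s.re|) ^ d * (1 + |s.im|) ^ d)) *
        (C * Real.exp |t.re| * T ^ (d + 2) *
          (Real.exp |s.re| * ((1 + |s.im|) ^ (d + 2))⁻¹)) :=
        mul_le_mul h8 h10 h18 (by positivity)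
    _ = A * T ^ d * (C * Real.exp |t.re| * T ^ (d + 2)) *
        ((1 + |s.re|) ^ d * Real.exp |s.re|) *
          ((1 + |s.im|) ^ d * ((1 + |s.im|) ^ (d + 2))⁻¹) := by ring
    _ = A * T ^ d * (C * Real.exp |t.re| * T ^ (d + 2)) *
        ((1 + |s.re|) ^ d * Real.exp |s.re|) * ((1 + |s.im|) ^ 2)⁻¹ := by
        congr 1
        rw [pow_add, mul_inv, ← mul_assoc, mul_inv_cancel₀ (by positivity), one_mul]

private theorem sh_exp2 : Real.exp 2 < 101 := by
  have h1 : Real.exp 2 = Real.exp 1 ^ 2 := by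
    rw [← Real.exp_nat_mul]
    norm_num
  have h2 := Real.exp_one_lt_d9
  rw [h1]
  nlinarith [Real.exp_pos 1]

private theorem sh_growth (d : ℕ) (σ0 : ℝ) : ∃ M : ℝ, 0 ≤ M ∧ ∀ x : ℝ, σ0 < x →
    (1 + |x|) ^ d * Real.exp |x| * (101 : ℝ) ^ (-x) ≤ M * (Real.exp 2 / 101) ^ x := by
  refine ⟨(d.factorial : ℝ) * Real.exp (1 + 4 * |σ0|), by positivity, fun x hx => ?_⟩
  have h1 : |x| ≤ x + 2 * |σ0| := by
    rcases le_total 0 x with h | h
    · rw [abs_of_nonneg h]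
      linarith [abs_nonneg σ0]
    · rw [abs_of_nonpos h]
      have h2 : -x ≤ |σ0| := by
        have := neg_abs_le σ0
        linarith
      linarith
  have h2 : (1 + |x|) ^ d ≤ (d.factorial : ℝ) * Real.exp (1 + (x + 2 * |σ0|)) := by
    have h3 := Real.pow_div_factorial_le_exp (1 + |x|) (by positivity) d
    rw [div_le_iff₀ (by positivity)] at h3
    have h4 : Real.exp (1 + |x|) ≤ Real.exp (1 + (x + 2 * |σ0|)) :=
      Real.exp_le_exp.2 (by linarith)
    have h5 : (0 : ℝ) < d.factorial := by positivity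
    nlinarith
  have h6 : Real.exp |x| ≤ Real.exp (x + 2 * |σ0|) := Real.exp_le_exp.2 h1
  have h7 : (Real.exp 2 / 101) ^ x = Real.exp (2 * x) * (101 : ℝ) ^ (-x) := by
    rw [Real.div_rpow (Real.exp_pos _).le (by norm_num), ← Real.exp_mul, Real.rpow_neg (by norm_num)]
    rfl
  rw [h7]
  have h8 : (0 : ℝ) < (101 : ℝ) ^ (-x) := Real.rpow_pos_of_pos (by norm_num) _
  calc (1 + |x|) ^ d * Real.exp |x| * (101 : ℝ) ^ (-x) ≤
      ((d.factorial : ℝ) * Real.exp (1 + (x + 2 * |σ0|))) * Real.exp (x + 2 * |σ0|) *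
        (101 : ℝ) ^ (-x) := by gcongr
    _ = (d.factorial : ℝ) * (Real.exp (1 + (x + 2 * |σ0|)) * Real.exp (x + 2 * |σ0|)) *
        (101 : ℝ) ^ (-x) := by ring
    _ = (d.factorial : ℝ) * (Real.exp (1 + 4 * |σ0|) * Real.exp (2 * x)) * (101 : ℝ) ^ (-x) := by
        rw [← Real.exp_add, ← Real.exp_add]
        congr 3
        ring
    _ = (d.factorial : ℝ) * Real.exp (1 + 4 * |σ0|) * (Real.exp (2 * x) * (101 : ℝ) ^ (-x)) := by
        ring

theorem shift_main (P : Polynomial ℂ) {Ψ : ℂ → ℂ} {C : ℝ} (hC0 : 0 ≤ C) (hΨ : Differentiable ℂ Ψ)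
    (hb : ∀ u : ℂ, ‖Ψ u‖ ≤ C * Real.exp |u.re| * ((1 + |u.im|) ^ (P.natDegree + 2))⁻¹)
    {σ0 σ : ℝ} (h0 : σ0 < σ) (t : ℂ) {G : ℂ → ℂ}
    (hG : DifferentiableOn ℂ G {s : ℂ | σ0 < s.re}) {L : ℂ} {C' : ℝ}
    (hL : ∀ s : ℂ, σ0 < s.re → ‖G s - L‖ ≤ C' * (101 : ℝ) ^ (-s.re)) :
    (∫ y : ℝ, P.eval (t - (σ + y * Complex.I) + 1 / 2) * G (σ + y * Complex.I) *
        Ψ (σ + y * Complex.I - t)) =
      L * ∫ y : ℝ, P.eval (1 / 2 - y * Complex.I) * Ψ (y * Complex.I) := by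
  obtain ⟨K, hK0, hK⟩ := sh_kernel P hC0 hb t
  obtain ⟨M, hM0, hM⟩ := sh_growth P.natDegree σ0
  set d := P.natDegree with hd
  have hC'0 : 0 ≤ C' := by
    have h1 := (norm_nonneg _).trans (hL (σ : ℂ) (by simpa using h0))
    have h2 : (0 : ℝ) < (101 : ℝ) ^ (-(σ : ℂ).re) := Real.rpow_pos_of_pos (by norm_num) _
    by_contra hneg
    push Not at hneg
    have := mul_neg_of_neg_of_pos hneg h2
    linarith
  have hker : Differentiable ℂ fun s : ℂ => P.eval (t - s + 1 / 2) * Ψ (s - t) := by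
    refine Differentiable.mul ?_ ?_
    · exact P.differentiable.comp (by fun_prop)
    · exact hΨ.comp (by fun_prop)
  -- first part
  have hF : DifferentiableOn ℂ (fun s : ℂ => P.eval (t - s + 1 / 2) * Ψ (s - t) * (G s - L))
      {s : ℂ | σ0 < s.re} :=
    hker.differentiableOn.mul (hG.sub_const L)
  have hFb : ∀ s : ℂ, σ0 < s.re → ‖P.eval (t - s + 1 / 2) * Ψ (s - t) * (G s - L)‖ ≤
      K * C' * M * (Real.exp 2 / 101) ^ s.re * ((1 + |s.im|) ^ 2)⁻¹ := by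
    intro s hs
    rw [norm_mul]
    have h1 := hK s
    have h2 := hL s hs
    have h3 := hM s.re hs
    have h4 : 0 ≤ ((1 + |s.im|) ^ 2)⁻¹ := by positivity
    have h5 : (0 : ℝ) < (101 : ℝ) ^ (-s.re) := Real.rpow_pos_of_pos (by norm_num) _
    calc ‖P.eval (t - s + 1 / 2) * Ψ (s - t)‖ * ‖G s - L‖ ≤
        (K * ((1 + |s.re|) ^ d * Real.exp |s.re|) * ((1 + |s.im|) ^ 2)⁻¹) *
          (C' * (101 : ℝ) ^ (-s.re)) := mul_le_mul h1 h2 (norm_nonneg _) (by positivity)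
      _ = K * C' * ((1 + |s.re|) ^ d * Real.exp |s.re| * (101 : ℝ) ^ (-s.re)) *
          ((1 + |s.im|) ^ 2)⁻¹ := by ring
      _ ≤ K * C' * (M * (Real.exp 2 / 101) ^ s.re) * ((1 + |s.im|) ^ 2)⁻¹ := by gcongr
      _ = K * C' * M * (Real.exp 2 / 101) ^ s.re * ((1 + |s.im|) ^ 2)⁻¹ := by ring
  have hρ1 : Real.exp 2 / 101 < 1 := by
    rw [div_lt_one (by norm_num)]
    exact sh_exp2
  have hz := shift_zero h0 hF (by positivity) (by positivity) hρ1 hFb
  -- second part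
  have hcF : Continuous fun y : ℝ => (fun s : ℂ => P.eval (t - s + 1 / 2) * Ψ (s - t) * (G s - L))
      (σ + y * Complex.I) := sh_cont hF fun y => by
    show σ0 < ((σ : ℂ) + y * Complex.I).re
    rw [sh_re]
    exact h0
  have hiF : Integrable fun y : ℝ => (fun s : ℂ => P.eval (t - s + 1 / 2) * Ψ (s - t) * (G s - L))
      (σ + y * Complex.I) := by
    refine sh_int hcF (C := K * C' * M * (Real.exp 2 / 101) ^ σ) fun y => ?_
    have h1 := hFb (σ + y * Complex.I) (by rw [sh_re]; exact h0)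
    rw [sh_re, sh_im] at h1
    exact h1
  have hiE : Integrable fun y : ℝ => (fun s : ℂ => P.eval (t - s + 1 / 2) * Ψ (s - t))
      (σ + y * Complex.I) := by
    refine sh_int (sh_cont (U := Set.univ) hker.differentiableOn fun _ => Set.mem_univ _)
      (C := K * ((1 + |σ|) ^ d * Real.exp |σ|)) fun y => ?_
    have h1 := hK (σ + y * Complex.I)
    rw [sh_re, sh_im] at h1
    exact h1
  have hsplit : (∫ y : ℝ, P.eval (t - (σ + y * Complex.I) + 1 / 2) * G (σ + y * Complex.I) *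
        Ψ (σ + y * Complex.I - t)) =
      (∫ y : ℝ, (fun s : ℂ => P.eval (t - s + 1 / 2) * Ψ (s - t) * (G s - L))
        (σ + y * Complex.I)) +
      L * ∫ y : ℝ, (fun s : ℂ => P.eval (t - s + 1 / 2) * Ψ (s - t)) (σ + y * Complex.I) := by
    rw [← integral_const_mul, ← integral_add hiF (hiE.const_mul L)]
    refine integral_congr_ae (Eventually.of_forall fun y => ?_)
    simp only
    ring
  rw [hsplit, hz, zero_add]
  congr 1
  -- the kernel of the point `0`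
  have hb' : ∀ u : ℂ, ‖Ψ u‖ ≤ C * Real.exp |u.re| * ((1 + |u.im|) ^ (P.natDegree + 2))⁻¹ := hb
  obtain ⟨K2, hK20, hK2⟩ := sh_kernel P hC0 hb' 0
  let H : ℂ → ℂ := fun u => P.eval (0 - u + 1 / 2) * Ψ (u - 0)
  have hHd : Differentiable ℂ H := by
    refine Differentiable.mul ?_ ?_
    · exact P.differentiable.comp (by fun_prop)
    · exact hΨ.comp (by fun_prop)
  have hshift : ∀ a b : ℝ, a ≤ b →
      (∫ y : ℝ, H (a + y * Complex.I)) = ∫ y : ℝ, H (b + y * Complex.I) := by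
    intro a b hab
    refine line_shift hab isOpen_univ (fun _ _ _ => Set.mem_univ _) hHd.differentiableOn
      (C := K2 * ((1 + (|a| + |b|)) ^ d * Real.exp (|a| + |b|))) ?_
    intro z hz1 hz2
    refine (hK2 z).trans ?_
    have h1 : |z.re| ≤ |a| + |b| := by
      rw [abs_le]
      constructor
      · have := neg_abs_le a
        linarith [abs_nonneg b]
      · have := le_abs_self b
        linarith [abs_nonneg a]
    gcongr
  have hall : ∀ a : ℝ, (∫ y : ℝ, H (a + y * Complex.I)) = ∫ y : ℝ, H ((0 : ℝ) + y * Complex.I) := by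
    intro a
    rcases le_total a 0 with h | h
    · exact hshift a 0 h
    · exact (hshift 0 a h).symm
  have h1 : (∫ y : ℝ, (fun s : ℂ => P.eval (t - s + 1 / 2) * Ψ (s - t)) (σ + y * Complex.I)) =
      ∫ y : ℝ, (fun y' : ℝ => H ((σ - t.re : ℝ) + y' * Complex.I)) (y - t.im) := by
    refine integral_congr_ae (Eventually.of_forall fun y => ?_)
    simp only [H]
    have h2 : ((σ - t.re : ℝ) : ℂ) + ((y - t.im : ℝ) : ℂ) * Complex.I = σ + y * Complex.I - t := by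
      have h3 := Complex.re_add_im t
      push_cast
      linear_combination -h3
    rw [h2]
    congr 2
    · ring
    · ring
  rw [h1, integral_sub_right_eq_self (fun y' : ℝ => H ((σ - t.re : ℝ) + y' * Complex.I)) t.im,
    hall]
  refine integral_congr_ae (Eventually.of_forall fun y => ?_)
  simp only [H]
  congr 2
  · push_cast
    ring
  · push_cast
    ring

end Pool.Agent.LD
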