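import Pool.Agent.QD.A.Defs

/-!
# LD-Test: test functions

PLAN. `P*` = the polynomial with `P*(u) = conj (P (1/2 + conj u))`: with `Pc` the polynomial with
conjugate coefficients (`P.map (starRingEnd ℂ)`), `P*(u) = Pc.eval (1/2 + u)`; `P (1/2 - i y) * P*(i y)
= |P (1/2 - i y)|^2` as `conj (P (1/2 - iy)) = Pc (1/2 + iy)`.  `Ψ u = P*(u) * (sinhc (h u))^j` with
`sinhc z = sinh z / z` (`1` at `0`; entire: `dslope Complex.sinh 0`, or
`∫ x in -1..1, exp (x z) / 2`, which is entire and bounded by `exp |Re z|`), `j` even,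
`j = N + natDegree P + 2` or one more, `h = 1 / j` (`j h = 1 < 4 < log 101`).
Bound: `‖sinhc z‖ ≤ 4 exp |Re z| / (1 + ‖z‖)`, `1 + ‖h u‖ ≥ h (1 + ‖u‖)`,
`‖P* u‖ ≤ C (1 + ‖u‖)^(natDegree P)`, `1 + ‖u‖ ≥ 1 + |Im u|`.
Integral: the integrand is `|P (1/2 - iy)|^2 (sin (h y)/(h y))^j ≥ 0`, continuous, integrable (bound), and
positive at some point near `0` (`P ≠ 0` has finitely many roots; `sin (hy)/(hy) > 0` for small `y`):
`MeasureTheory.integral_pos_iff_support_of_nonneg` or `Continuous.integral_pos_of_hasCompactSupport..`;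
take complex values: `∫ = ofReal (∫ ..)`.
-/

namespace Pool.Agent.LD

open Pool.Agent.QD

private noncomputable def shc (z : ℂ) : ℂ := dslope Complex.sinh 0 z

private theorem shc_diff : Differentiable ℂ shc := by
  intro z
  have h := (Complex.differentiableOn_dslope (f := Complex.sinh) (c := 0) (s := Set.univ)
    Filter.univ_mem).2 Complex.differentiable_sinh.differentiableOn
  exact (h z (Set.mem_univ z)).differentiableAt Filter.univ_mem

private theorem shc_ne {z : ℂ} (hz : z ≠ 0) : shc z = Complex.sinh z / z := by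
  unfold shc
  rw [dslope_of_ne _ hz, slope_def_field]
  simp

private theorem shc_zero : shc 0 = 1 := by
  unfold shc
  simp

private theorem norm_sinh_le (z : ℂ) : ‖Complex.sinh z‖ ≤ Real.exp |z.re| := by
  have h1 : Complex.sinh z = (Complex.exp z - Complex.exp (-z)) / 2 := rfl
  rw [h1, norm_div, Complex.norm_two, div_le_iff₀ (by norm_num)]
  refine (norm_sub_le _ _).trans ?_
  rw [Complex.norm_exp, Complex.norm_exp, Complex.neg_re]
  have h2 := Real.exp_le_exp.2 (le_abs_self z.re)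
  have h3 := Real.exp_le_exp.2 (neg_le_abs z.re)
  linarith

private theorem shc_bound : ∃ M : ℝ, 0 ≤ M ∧
    ∀ z, ‖shc z‖ ≤ M * Real.exp |z.re| * (1 + ‖z‖)⁻¹ := by
  obtain ⟨K, hK⟩ := (isCompact_closedBall (0 : ℂ) 1).exists_bound_of_continuousOn
    shc_diff.continuous.continuousOn
  refine ⟨2 * |K| + 2, by positivity, fun z => ?_⟩
  have he : 1 ≤ Real.exp |z.re| := Real.one_le_exp (abs_nonneg _)
  have hz0 : 0 < 1 + ‖z‖ := by positivity
  rw [← div_eq_mul_inv, le_div_iff₀ hz0]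
  rcases le_or_gt ‖z‖ 1 with h | h
  · have h1 : ‖shc z‖ ≤ |K| := (hK z (by simpa using h)).trans (le_abs_self K)
    calc ‖shc z‖ * (1 + ‖z‖) ≤ |K| * 2 := by
          apply mul_le_mul h1 (by linarith) hz0.le (abs_nonneg _)
      _ ≤ (2 * |K| + 2) * 1 := by linarith
      _ ≤ _ := by
          apply mul_le_mul_of_nonneg_left he (by positivity)
  · have hz : z ≠ 0 := by
      rintro rfl
      simp at h
      linarith
    have hzp : 0 < ‖z‖ := by linarith
    rw [shc_ne hz, norm_div, div_mul_eq_mul_div, div_le_iff₀ hzp]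
    calc ‖Complex.sinh z‖ * (1 + ‖z‖) ≤ Real.exp |z.re| * (2 * ‖z‖) := by
          apply mul_le_mul (norm_sinh_le z) (by linarith) hz0.le (Real.exp_pos _).le
      _ ≤ _ := by
          have : 0 ≤ |K| * Real.exp |z.re| * ‖z‖ := by positivity
          nlinarith

private theorem shc_imag (y : ℝ) : shc ((y : ℂ) * Complex.I) = ((Real.sinc y : ℝ) : ℂ) := by
  by_cases hy : y = 0
  · subst hy
    simp [shc_zero]
  · have h1 : (y : ℂ) ≠ 0 := by exact_mod_cast hy
    rw [shc_ne (mul_ne_zero h1 Complex.I_ne_zero), Real.sinc_of_ne_zero hy,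
      Complex.sinh_mul_I]
    push_cast
    field_simp

private theorem poly_bound (Q : Polynomial ℂ) : ∃ C : ℝ, 0 ≤ C ∧
    ∀ z : ℂ, ‖Q.eval z‖ ≤ C * (1 + ‖z‖) ^ Q.natDegree := by
  refine ⟨∑ i ∈ Finset.range (Q.natDegree + 1), ‖Q.coeff i‖,
    Finset.sum_nonneg fun i _ => norm_nonneg _, fun z => ?_⟩
  rw [Polynomial.eval_eq_sum_range, Finset.sum_mul]
  refine (norm_sum_le _ _).trans (Finset.sum_le_sum fun i hi => ?_)
  rw [norm_mul, norm_pow]
  apply mul_le_mul_of_nonneg_left _ (norm_nonneg _)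
  calc ‖z‖ ^ i ≤ (1 + ‖z‖) ^ i := by
        apply pow_le_pow_left₀ (norm_nonneg _) (by linarith)
    _ ≤ _ := by
        apply pow_le_pow_right₀ (by linarith [norm_nonneg z])
        have := Finset.mem_range.1 hi
        omega

theorem exists_test (P : Polynomial ℂ) (hP : P ≠ 0) (N : ℕ) : ∃ (Ψ : ℂ → ℂ) (C : ℝ), 0 ≤ C ∧
    Differentiable ℂ Ψ ∧
    (∀ u : ℂ, ‖Ψ u‖ ≤ C * Real.exp |u.re| * ((1 + |u.im|) ^ N)⁻¹) ∧
    (∫ y : ℝ, P.eval (1 / 2 - y * Complex.I) * Ψ (y * Complex.I)) ≠ 0 := by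
  classical
  set Q : Polynomial ℂ := (P.map (starRingEnd ℂ)).comp (Polynomial.C (1 / 2) + Polynomial.X) with hQ
  set R : Polynomial ℂ := P.comp (Polynomial.C (1 / 2) - Polynomial.X) with hR
  have hRe : ∀ u : ℂ, R.eval u = P.eval (1 / 2 - u) := by
    intro u
    rw [hR, Polynomial.eval_comp]
    simp
  have hQe : ∀ y : ℝ, Q.eval ((y : ℂ) * Complex.I) =
      (starRingEnd ℂ) (P.eval (1 / 2 - (y : ℂ) * Complex.I)) := by
    intro y
    rw [hQ, Polynomial.eval_comp]
    have h1 : Polynomial.eval ((y : ℂ) * Complex.I) (Polynomial.C (1 / 2) + Polynomial.X)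
        = (starRingEnd ℂ) (1 / 2 - (y : ℂ) * Complex.I) := by
      have h2 : (starRingEnd ℂ) 2 = 2 := Complex.conj_ofNat 2
      simp [h2]
    rw [h1, Polynomial.eval_map, Polynomial.eval₂_at_apply]
  obtain ⟨CQ, hCQ0, hCQ⟩ := poly_bound Q
  obtain ⟨CR, hCR0, hCR⟩ := poly_bound R
  obtain ⟨M, hM0, hM⟩ := shc_bound
  set j : ℕ := 2 * (Q.natDegree + R.natDegree + N + 1) with hj
  have hj0 : 0 < j := by omega
  have hj1 : (0 : ℝ) < j := by exact_mod_cast hj0
  set h : ℝ := (j : ℝ)⁻¹ with hh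
  have hh0 : 0 < h := by positivity
  have hh1 : h ≤ 1 := by
    rw [hh]
    apply inv_le_one_of_one_le₀
    exact_mod_cast hj0
  have hjh : (j : ℝ) * h = 1 := by
    rw [hh]
    field_simp
  set Ψ : ℂ → ℂ := fun u => Q.eval u * shc ((h : ℂ) * u) ^ j with hΨ
  -- the general bound
  have hgen : ∀ u : ℂ, ‖Ψ u‖ ≤ (CQ * (M * h⁻¹) ^ j) * Real.exp |u.re| *
      ((1 + ‖u‖) ^ (R.natDegree + N + 2))⁻¹ := by
    intro u
    have hu0 : 0 < 1 + ‖u‖ := by positivity
    have hu1 : 1 ≤ 1 + ‖u‖ := by linarith [norm_nonneg u]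
    have h1 : ‖shc ((h : ℂ) * u)‖ ≤ (M * h⁻¹) * Real.exp (h * |u.re|) * (1 + ‖u‖)⁻¹ := by
      refine (hM _).trans ?_
      have h2 : ((h : ℂ) * u).re = h * u.re := by simp
      rw [h2, abs_mul, abs_of_pos hh0, norm_mul, Complex.norm_real, Real.norm_of_nonneg hh0.le]
      have h3 : (1 + h * ‖u‖)⁻¹ ≤ h⁻¹ * (1 + ‖u‖)⁻¹ := by
        rw [← mul_inv]
        apply inv_anti₀ (by positivity)
        nlinarith [norm_nonneg u]
      calc M * Real.exp (h * |u.re|) * (1 + h * ‖u‖)⁻¹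
          ≤ M * Real.exp (h * |u.re|) * (h⁻¹ * (1 + ‖u‖)⁻¹) := by
            apply mul_le_mul_of_nonneg_left h3 (by positivity)
        _ = _ := by ring
    have h4 : ‖shc ((h : ℂ) * u)‖ ^ j ≤
        (M * h⁻¹) ^ j * Real.exp |u.re| * ((1 + ‖u‖) ^ j)⁻¹ := by
      refine (pow_le_pow_left₀ (norm_nonneg _) h1 j).trans (le_of_eq ?_)
      rw [mul_pow, mul_pow, ← Real.exp_nat_mul, inv_pow, ← mul_assoc (j : ℝ) h, hjh, one_mul]
    have h5 : (1 + ‖u‖) ^ Q.natDegree * ((1 + ‖u‖) ^ j)⁻¹ ≤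
        ((1 + ‖u‖) ^ (R.natDegree + N + 2))⁻¹ := by
      have h6 : (1 + ‖u‖) ^ j = (1 + ‖u‖) ^ Q.natDegree * (1 + ‖u‖) ^ (j - Q.natDegree) := by
        rw [← pow_add]
        congr 1
        omega
      rw [h6, mul_inv, ← mul_assoc, mul_inv_cancel₀ (by positivity), one_mul]
      apply inv_anti₀ (by positivity)
      apply pow_le_pow_right₀ hu1
      omega
    rw [hΨ]
    simp only [norm_mul, norm_pow]
    calc ‖Q.eval u‖ * ‖shc ((h : ℂ) * u)‖ ^ j
        ≤ (CQ * (1 + ‖u‖) ^ Q.natDegree) *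
            ((M * h⁻¹) ^ j * Real.exp |u.re| * ((1 + ‖u‖) ^ j)⁻¹) :=
          mul_le_mul (hCQ u) h4 (by positivity) (by positivity)
      _ = (CQ * (M * h⁻¹) ^ j) * Real.exp |u.re| *
            ((1 + ‖u‖) ^ Q.natDegree * ((1 + ‖u‖) ^ j)⁻¹) := by ring
      _ ≤ _ := mul_le_mul_of_nonneg_left h5 (by positivity)
  have hΨd : Differentiable ℂ Ψ := by
    rw [hΨ]
    apply Differentiable.mul Q.differentiable
    apply Differentiable.pow
    exact shc_diff.comp ((differentiable_const _).mul differentiable_id)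
  refine ⟨Ψ, CQ * (M * h⁻¹) ^ j, by positivity, hΨd, fun u => ?_, ?_⟩
  · refine (hgen u).trans ?_
    apply mul_le_mul_of_nonneg_left _ (by positivity)
    apply inv_anti₀ (by positivity)
    calc (1 + |u.im|) ^ N ≤ (1 + ‖u‖) ^ N := by
          apply pow_le_pow_left₀ (by positivity)
          linarith [Complex.abs_im_le_norm u]
      _ ≤ _ := by
          apply pow_le_pow_right₀ (by linarith [norm_nonneg u])
          omega
  -- the integral
  set F : ℝ → ℝ := fun y => ‖P.eval (1 / 2 - (y : ℂ) * Complex.I)‖ ^ 2 * Real.sinc (h * y) ^ j with hF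
  have hFe : ∀ y : ℝ, P.eval (1 / 2 - (y : ℂ) * Complex.I) * Ψ ((y : ℂ) * Complex.I) = (F y : ℂ) := by
    intro y
    have h1 : shc ((h : ℂ) * ((y : ℂ) * Complex.I)) = ((Real.sinc (h * y) : ℝ) : ℂ) := by
      rw [← shc_imag]
      congr 1
      push_cast
      ring
    simp only [hΨ, hF]
    rw [hQe, h1, ← mul_assoc, Complex.mul_conj, Complex.normSq_eq_norm_sq]
    push_cast
    ring
  have hFc : Continuous F := by
    rw [hF]
    apply Continuous.mul
    · apply Continuous.pow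
      apply Continuous.norm
      apply P.continuous.comp
      fun_prop
    · apply Continuous.pow
      exact Real.continuous_sinc.comp (continuous_const.mul continuous_id)
  have hF0 : ∀ y, 0 ≤ F y := by
    intro y
    rw [hF]
    apply mul_nonneg (by positivity)
    apply Even.pow_nonneg
    exact ⟨Q.natDegree + R.natDegree + N + 1, by omega⟩
  have hFb : ∀ y : ℝ, ‖F y‖ ≤ (CR * (CQ * (M * h⁻¹) ^ j)) * (1 + y ^ 2)⁻¹ := by
    intro y
    have h1 : ‖F y‖ = ‖(F y : ℂ)‖ := by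
      rw [Complex.norm_real]
    rw [h1, ← hFe, norm_mul, ← hRe]
    have hn : ‖(y : ℂ) * Complex.I‖ = |y| := by simp
    have h2 := hCR ((y : ℂ) * Complex.I)
    have h3 := hgen ((y : ℂ) * Complex.I)
    rw [hn] at h2 h3
    have h4 : ((y : ℂ) * Complex.I).re = 0 := by simp
    rw [h4, abs_zero, Real.exp_zero, mul_one] at h3
    have hy0 : 0 < 1 + |y| := by positivity
    have hy1 : 1 ≤ 1 + |y| := by linarith [abs_nonneg y]
    have h5 : (1 + |y|) ^ R.natDegree * ((1 + |y|) ^ (R.natDegree + N + 2))⁻¹ ≤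
        (1 + y ^ 2)⁻¹ := by
      have h6 : (1 + |y|) ^ (R.natDegree + N + 2) =
          (1 + |y|) ^ R.natDegree * (1 + |y|) ^ (N + 2) := by
        rw [← pow_add]
        congr 1
      rw [h6, mul_inv, ← mul_assoc, mul_inv_cancel₀ (by positivity), one_mul]
      apply inv_anti₀ (by positivity)
      calc 1 + y ^ 2 ≤ (1 + |y|) ^ 2 := by
            nlinarith [abs_nonneg y, sq_abs y]
        _ ≤ _ := by
            apply pow_le_pow_right₀ hy1
            omega
    calc ‖R.eval ((y : ℂ) * Complex.I)‖ * ‖Ψ ((y : ℂ) * Complex.I)‖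
        ≤ (CR * (1 + |y|) ^ R.natDegree) *
            ((CQ * (M * h⁻¹) ^ j) * ((1 + |y|) ^ (R.natDegree + N + 2))⁻¹) :=
          mul_le_mul h2 h3 (norm_nonneg _) (by positivity)
      _ = (CR * (CQ * (M * h⁻¹) ^ j)) *
            ((1 + |y|) ^ R.natDegree * ((1 + |y|) ^ (R.natDegree + N + 2))⁻¹) := by ring
      _ ≤ _ := mul_le_mul_of_nonneg_left h5 (by positivity)
  have hFi : MeasureTheory.Integrable F := by
    refine (integrable_inv_one_add_sq.const_mul (CR * (CQ * (M * h⁻¹) ^ j))).mono'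
      hFc.aestronglyMeasurable (Filter.Eventually.of_forall hFb)
  have hex : ∃ y : ℝ, F y ≠ 0 := by
    by_contra hcon
    push Not at hcon
    have hsub : Set.Ioo (0 : ℝ) 1 ⊆
        (fun y : ℝ => (1 / 2 - (y : ℂ) * Complex.I)) ⁻¹' {z | P.IsRoot z} := by
      intro y hy
      have hy' := hcon y
      rw [hF] at hy'
      have hs : 0 < Real.sinc (h * y) := by
        have hp : 0 < h * y := mul_pos hh0 hy.1
        have hl : h * y < 1 := by nlinarith [hy.2, hy.1]
        rw [Real.sinc_of_ne_zero hp.ne']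
        apply div_pos _ hp
        apply Real.sin_pos_of_pos_of_lt_pi hp
        linarith [Real.pi_gt_three]
      have hs' : Real.sinc (h * y) ^ j ≠ 0 := pow_ne_zero _ hs.ne'
      rcases mul_eq_zero.1 hy' with h1 | h1
      · have h2 := pow_eq_zero_iff (two_ne_zero) |>.1 h1
        exact norm_eq_zero.1 h2
      · exact absurd h1 hs'
    have hinj : Function.Injective (fun y : ℝ => (1 / 2 - (y : ℂ) * Complex.I)) := by
      intro a b hab
      have := congrArg Complex.im hab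
      simpa using this
    have hfin : Set.Finite (Set.Ioo (0 : ℝ) 1) := by
      refine Set.Finite.subset ?_ hsub
      apply Set.Finite.preimage (hinj.injOn)
      exact Polynomial.finite_setOfPred_isRoot hP
    exact (Set.Ioo_infinite (zero_lt_one' ℝ)) hfin
  have hpos : 0 < ∫ y : ℝ, F y := by
    rw [MeasureTheory.integral_pos_iff_support_of_nonneg hF0 hFi]
    obtain ⟨y, hy⟩ := hex
    exact (hFc.isOpen_support).measure_pos MeasureTheory.volume ⟨y, hy⟩
  simp only [hFe]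
  rw [integral_complex_ofReal]
  exact_mod_cast hpos.ne'

end Pool.Agent.LD
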