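import Pool.Agent.LD.A.Gexp
import Pool.Agent.LD.A.RN
import Pool.Agent.LD.A.Test
import Pool.Agent.LD.A.Shift
import Pool.Agent.LD.A.Extr
import Pool.Agent.LD.A.Beta

/-!
# LD-Main: the abstract theorem
-/

namespace Pool.Agent.LD

open Pool.Agent.QD Pool.Agent.QD.SysD

theorem t16 {S : SysD} {H : Subgroup S.G} {e p : S.G} {q : ℕ} {lam : ℝ} (hS : IsSys0 S)
    (hG : IsGd S H) (hL : IsLoc S H e p q lam) : ∃ (R : ℝ) (F : ℂ → ℂ), 6 ≤ R ∧
      DifferentiableOn ℂ F {t : ℂ | 0 < t.re ∧ t.re < R + 1} ∧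
      ∀ t : ℂ, R < t.re → t.re < R + 1 → F t = Lam q lam t * S.Ls t ^ 2 := by
  obtain ⟨R1, Y, hR1, hY1⟩ := exists_Y hS hG
  obtain ⟨A0, -, hbeta⟩ := YR_beta hS
  obtain ⟨D1, -, hdiff⟩ := Gq_diff hS
  obtain ⟨D2, hD2, hlim⟩ := Gq_lim hS
  set A2 : ℝ := max D1 D2 with hA2
  set R : ℝ := max R1 (max A0 A2) with hR
  have hRR1 : R1 ≤ R := le_max_left _ _
  have hRA0 : A0 ≤ R := (le_max_left _ _).trans (le_max_right _ _)
  have hRA2 : A2 ≤ R := (le_max_right _ _).trans (le_max_right _ _)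
  have hD1A : D1 ≤ A2 := le_max_left _ _
  have hD2A : D2 ≤ A2 := le_max_right _ _
  have hR6 : (6 : ℝ) ≤ R := hR1.trans hRR1
  have hY : IsY S H R Y := hY1.mono hRR1
  have hB : Beta S R := fun c s t hs ht hw =>
    hbeta c s t (hRA0.trans_lt hs) (hRA0.trans_lt ht) hw
  obtain ⟨n0, hV⟩ := exists_V hS hG hL (by linarith) hY hB
  obtain ⟨n1, hn1⟩ := exists_nat_ge (R + 2 + A2)
  have hA26 : (6 : ℝ) ≤ A2 := hD2.trans hD2A
  set n : ℕ := max n0 n1 with hn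
  have hnR : R + 2 + A2 ≤ (n : ℝ) := hn1.trans (by exact_mod_cast le_max_right n0 n1)
  obtain ⟨P, V, hP, hline, hVeq⟩ := hV n (le_max_left _ _) (R + 1) (by linarith)
  obtain ⟨N0, hext⟩ := extr_diff hline
  obtain ⟨Ψ, C, hC, hΨ, hΨb, hint⟩ := exists_test P hP (max N0 (P.natDegree + 2))
  have hΨb' : ∀ u : ℂ, ‖Ψ u‖ ≤ C * Real.exp |u.re| * ((1 + |u.im|) ^ (P.natDegree + 2))⁻¹ := by
    intro u
    refine (hΨb u).trans ?_
    have h1 : (1 : ℝ) ≤ 1 + |u.im| := by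
      have := abs_nonneg u.im
      linarith
    refine mul_le_mul_of_nonneg_left ?_ (by positivity)
    refine inv_anti₀ (by positivity) ?_
    exact pow_le_pow_right₀ h1 (le_max_right _ _)
  refine ⟨R, fun t => (∫ y : ℝ, P.eval (1 / 2 - y * Complex.I) * Ψ (y * Complex.I))⁻¹ *
    ∫ y : ℝ, V ((((n : ℝ) + 1 / 2 : ℝ) : ℂ) + y * Complex.I) t *
      Ψ ((((n : ℝ) + 1 / 2 : ℝ) : ℂ) + y * Complex.I - t), hR6, ?_, ?_⟩
  · exact (hext (max N0 (P.natDegree + 2)) (le_max_left _ _) Ψ C hC hΨ hΨb).const_mul _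
  · intro t ht1 ht2
    obtain ⟨C', -, hC'⟩ := hlim t (by linarith)
    have hGd : DifferentiableOn ℂ (fun s => Gq S s t) {s : ℂ | t.re + A2 < s.re} :=
      (hdiff t (by linarith)).mono fun s hs => by
        have hs' : t.re + A2 < s.re := hs
        change t.re + D1 < s.re
        linarith
    have hGl : ∀ s : ℂ, t.re + A2 < s.re → ‖Gq S s t - S.Ls t ^ 2‖ ≤ C' * (101 : ℝ) ^ (-s.re) :=
      fun s hs => hC' s (by linarith)
    have h0 : t.re + A2 < (n : ℝ) + 1 / 2 := by linarith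
    have key := shift_main P hC hΨ hΨb' h0 t hGd hGl
    have hre : ∀ y : ℝ, ((((n : ℝ) + 1 / 2 : ℝ) : ℂ) + y * Complex.I).re = (n : ℝ) + 1 / 2 := by
      intro y
      simp
    have e1 : (∫ y : ℝ, V ((((n : ℝ) + 1 / 2 : ℝ) : ℂ) + y * Complex.I) t *
        Ψ ((((n : ℝ) + 1 / 2 : ℝ) : ℂ) + y * Complex.I - t)) =
        Lam q lam t * ∫ y : ℝ, P.eval (t - ((((n : ℝ) + 1 / 2 : ℝ) : ℂ) + y * Complex.I) + 1 / 2) *
          Gq S ((((n : ℝ) + 1 / 2 : ℝ) : ℂ) + y * Complex.I) t *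
          Ψ ((((n : ℝ) + 1 / 2 : ℝ) : ℂ) + y * Complex.I - t) := by
      rw [← MeasureTheory.integral_const_mul]
      refine MeasureTheory.integral_congr_ae (Filter.Eventually.of_forall fun y => ?_)
      change V ((((n : ℝ) + 1 / 2 : ℝ) : ℂ) + y * Complex.I) t * _ = Lam q lam t * (_ * _ * _)
      rw [hVeq _ t (hre y) ht1 ht2]
      unfold ww
      ring
    change (∫ y : ℝ, P.eval (1 / 2 - y * Complex.I) * Ψ (y * Complex.I))⁻¹ *
      (∫ y : ℝ, V ((((n : ℝ) + 1 / 2 : ℝ) : ℂ) + y * Complex.I) t *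
      Ψ ((((n : ℝ) + 1 / 2 : ℝ) : ℂ) + y * Complex.I - t)) = Lam q lam t * S.Ls t ^ 2
    rw [e1, key]
    generalize (∫ y : ℝ, P.eval (1 / 2 - y * Complex.I) * Ψ (y * Complex.I)) = I at hint ⊢
    have h2 : I⁻¹ * (Lam q lam t * (S.Ls t ^ 2 * I)) = (I⁻¹ * I) * (Lam q lam t * S.Ls t ^ 2) := by
      ring
    rw [h2, inv_mul_cancel₀ hint, one_mul]

end Pool.Agent.LD
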