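import Pool.Agent.LD.A.Kf2
import Pool.Agent.LD.A.Dfac
import Pool.Agent.LD.A.Line

/-!
# LD-Solve: `Λ(t) Y (g e) s t` continues in `t` for `s` on the line `Re s = n + 1/2`

PLAN. `σ = n + 1/2`, `n ≥ max n0 3` with `n0` from `hG.GG_inv (g p)`.  `exists_E` with `a = 2 - σ - 1`,
`b = σ + 1`, and `x0`, `X1`: `E`.  `d(s) = √q (q - 1) (q^(-2) - q^(2(s-2)))`: on the line
`|q^(2(s-2))| = q^(2n - 3) ≥ q`, so `|d(s)| ≥ √q (q - 1) (q - 1)` and `d⁻¹` is continuous and bounded.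
`W s t = (q^t)⁻¹ d(s)⁻¹ (r1 (ww s t) kap2 s E (2 - s) t (GG (g p) (2 - s))⁻¹ - r1 (wp s t) kap2 s E s t)`.
`OnLine` (module Line): `E s t`: `of_hol`; `E (2 - s) t`: `of_refl`; `kap2`, `d⁻¹`, `(GG (g p) (2 - s))⁻¹`:
`of_fst` (continuity on the line: `GG_diff`, `Re (2 - s) = 3/2 - n < 1/2`, non vanishing and bound from
`GG_inv`); `r1 (ww s t)`: `of_ww`; `r1 (wp s t)`: `of_wp`; `(q^t)⁻¹`: `of_snd`.
Agreement for `R < Re t < X1`: `E s t = K1f s t`, `E (2 - s) t = K1f (2 - s) t`, `solve_id`,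
`dfac = d(s) q^t Lam(t)`.
-/

namespace Pool.Agent.LD

open Pool.Agent.QD Pool.Agent.QD.SysD

variable {S : SysD} {H : Subgroup S.G} {R : ℝ} {Y : S.G → ℂ → ℂ → ℂ} {e p : S.G} {q : ℕ}
  {lam : ℝ}

private theorem cpow_cont {q : ℕ} (hq : 101 ≤ q) {f : ℂ → ℂ} (hf : Differentiable ℂ f) :
    Differentiable ℂ fun z => (q : ℂ) ^ (f z) := by
  have hq0 : (q : ℂ) ≠ 0 := by
    have : q ≠ 0 := by omega
    exact_mod_cast this
  intro z
  exact (hf z).const_cpow (Or.inl hq0)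

private theorem norm_qpow {q : ℕ} (hq : 101 ≤ q) (z : ℂ) : ‖(q : ℂ) ^ z‖ = (q : ℝ) ^ z.re := by
  exact Complex.norm_natCast_cpow_of_pos (by omega) z

/-- the factor of the determinant which depends on `s` -/
private noncomputable def dd (q : ℕ) (s : ℂ) : ℂ :=
  (Real.sqrt q : ℂ) * ((q : ℂ) - 1) * (((q : ℂ) ^ 2)⁻¹ - (q : ℂ) ^ (2 * (s - 2)))

private theorem dd_norm {q : ℕ} (hq : 101 ≤ q) {n : ℕ} (hn : 3 ≤ n) {s : ℂ}
    (hs : s.re = (n : ℝ) + 1 / 2) : 1 ≤ ‖dd q s‖ := by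
  have hqr : (101 : ℝ) ≤ q := by exact_mod_cast hq
  have hnr : (3 : ℝ) ≤ n := by exact_mod_cast hn
  have h1 : ‖(q : ℂ) ^ (2 * (s - 2))‖ = (q : ℝ) ^ (2 * (n : ℝ) - 3) := by
    rw [norm_qpow hq]
    congr 1
    simp only [Complex.mul_re, Complex.sub_re, Complex.re_ofNat, Complex.im_ofNat, hs]
    ring
  have h2 : (101 : ℝ) ≤ (q : ℝ) ^ (2 * (n : ℝ) - 3) := by
    calc (101 : ℝ) ≤ q := hqr
      _ = (q : ℝ) ^ (1 : ℝ) := (Real.rpow_one _).symm
      _ ≤ (q : ℝ) ^ (2 * (n : ℝ) - 3) :=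
          Real.rpow_le_rpow_of_exponent_le (by linarith) (by linarith)
  have h3 : ‖((q : ℂ) ^ 2)⁻¹‖ ≤ 1 := by
    rw [norm_inv, norm_pow, Complex.norm_natCast]
    refine inv_le_one_of_one_le₀ ?_
    nlinarith
  have h4 : (1 : ℝ) ≤ ‖((q : ℂ) ^ 2)⁻¹ - (q : ℂ) ^ (2 * (s - 2))‖ := by
    have h5 := norm_sub_norm_le ((q : ℂ) ^ (2 * (s - 2))) (((q : ℂ) ^ 2)⁻¹)
    rw [norm_sub_rev] at h5
    linarith
  have h5 : (1 : ℝ) ≤ ‖(Real.sqrt q : ℂ)‖ := by
    rw [Complex.norm_real, Real.norm_of_nonneg (Real.sqrt_nonneg _)]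
    rw [Real.one_le_sqrt]
    linarith
  have h6 : (1 : ℝ) ≤ ‖(q : ℂ) - 1‖ := by
    have h7 : ((q : ℂ) - 1) = (((q : ℝ) - 1 : ℝ) : ℂ) := by push_cast; ring
    rw [h7, Complex.norm_real, Real.norm_of_nonneg (by linarith)]
    linarith
  unfold dd
  rw [norm_mul, norm_mul]
  have h8 : (1 : ℝ) ≤ ‖(Real.sqrt q : ℂ)‖ * ‖(q : ℂ) - 1‖ := by nlinarith
  nlinarith

private theorem dfac_dd (q : ℕ) (lam : ℝ) (s t : ℂ) :
    dfac q lam s t = dd q s * ((q : ℂ) ^ t * Lam q lam t) := by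
  unfold dfac dd
  ring

private theorem line_re (σ y : ℝ) : ((σ : ℂ) + y * Complex.I).re = σ := by simp

private theorem line_cont (σ : ℝ) : Continuous fun y : ℝ => (σ : ℂ) + y * Complex.I := by
  fun_prop

private theorem r1_diff (hq : 101 ≤ q) : Differentiable ℂ (r1 q) := by
  have h := cpow_cont hq (f := fun w : ℂ => w - 3 / 2) (by fun_prop)
  unfold r1
  intro w
  exact ((differentiableAt_const _).add (h w)).const_mul _

theorem exists_W (hS : IsSys0 S) (hG : IsGd S H) (hL : IsLoc S H e p q lam) (hR : 1 ≤ R)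
    (hY : IsY S H R Y) (hB : Beta S R) {g : S.G} (hg : g ∈ H) :
    ∃ n0 : ℕ, ∀ n : ℕ, n0 ≤ n → ∀ x0 X1 : ℝ, ∃ W : ℂ → ℂ → ℂ,
      OnLine ((n : ℝ) + 1 / 2) x0 X1 W ∧
      ∀ s t : ℂ, s.re = (n : ℝ) + 1 / 2 → R < t.re → x0 < t.re → t.re < X1 →
        W s t = Lam q lam t * Y (g * e) s t := by
  have hq := hL.hq
  have hqr : (101 : ℝ) ≤ q := by exact_mod_cast hq
  have hq0 : (q : ℂ) ≠ 0 := by
    have : q ≠ 0 := by omega
    exact_mod_cast this
  obtain ⟨n1, hn1⟩ := hG.GG_inv (g * p)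
  refine ⟨max n1 3, fun n hn x0 X1 => ?_⟩
  have hn3 : 3 ≤ n := (le_max_right _ _).trans hn
  have hnr : (3 : ℝ) ≤ n := by exact_mod_cast hn3
  obtain ⟨A1, C1, hA1, hC1, hinv⟩ := hn1 n ((le_max_left _ _).trans hn)
  obtain ⟨σ, hσ⟩ : ∃ σ : ℝ, σ = (n : ℝ) + 1 / 2 := ⟨_, rfl⟩
  rw [← hσ] at hinv
  obtain ⟨E, hE1, hE2, hE3⟩ := exists_E hS hL hR hY hB hg (1 - σ) (σ + 1) x0 X1
  -- the factors
  have F1 : OnLine σ x0 X1 (fun _ t => ((q : ℂ) ^ t)⁻¹) := by
    refine OnLine.of_snd (f := fun t => ((q : ℂ) ^ t)⁻¹) ?_ ?_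
    · have h := cpow_cont hq (f := fun z : ℂ => z) differentiable_id
      intro t _
      refine DifferentiableAt.differentiableWithinAt ((h t).inv ?_)
      exact (Complex.cpow_ne_zero_iff).2 (Or.inl hq0)
    · refine ⟨0, (q : ℝ) ^ (-x0), le_refl _, by positivity, fun t ht _ => ?_⟩
      rw [Real.rpow_zero, mul_one, norm_inv, norm_qpow hq, ← Real.rpow_neg (by positivity)]
      exact Real.rpow_le_rpow_of_exponent_le (by linarith) (by linarith)
  have F2 : OnLine σ x0 X1 (fun s _ => (dd q s)⁻¹) := by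
    refine OnLine.of_fst (f := fun s => (dd q s)⁻¹) ?_ ?_
    · have h : Continuous (dd q) := by
        have h1 := (cpow_cont hq (f := fun s : ℂ => 2 * (s - 2)) (by fun_prop)).continuous
        unfold dd
        exact continuous_const.mul (continuous_const.sub h1)
      refine Continuous.inv₀ (h.comp (line_cont σ)) fun y => ?_
      have h2 := dd_norm hq hn3 (s := (σ : ℂ) + y * Complex.I) (by rw [line_re, hσ])
      intro h0
      have h0' : dd q ((σ : ℂ) + y * Complex.I) = 0 := h0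
      rw [h0', norm_zero] at h2
      linarith
    · refine ⟨0, 1, le_refl _, zero_le_one, fun s hs => ?_⟩
      rw [Real.rpow_zero, mul_one, norm_inv]
      exact inv_le_one_of_one_le₀ (dd_norm hq hn3 (by rw [hs, hσ]))
  have F3 : OnLine σ x0 X1 (fun s _ => kap2 q lam s) := by
    refine OnLine.of_fst (f := fun s => kap2 q lam s) ?_ ?_
    · have h1 := (cpow_cont hq (f := fun s : ℂ => s - 1) (by fun_prop)).continuous
      have h2 := (cpow_cont hq (f := fun s : ℂ => 2 * s - 1) (by fun_prop)).continuous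
      have h : Continuous (kap2 q lam) := by
        unfold kap2
        exact (continuous_const.add (continuous_const.mul h1)).add h2
      exact h.comp (line_cont σ)
    · refine ⟨0, 1 + |lam| * (q : ℝ) ^ (σ - 1) + (q : ℝ) ^ (2 * σ - 1), le_refl _, by positivity,
        fun s hs => ?_⟩
      rw [Real.rpow_zero, mul_one]
      unfold kap2
      refine (norm_add_le _ _).trans (add_le_add ((norm_add_le _ _).trans (add_le_add ?_ ?_)) ?_)
      · rw [norm_one]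
      · rw [norm_mul, norm_qpow hq, Complex.norm_real, Real.norm_eq_abs]
        refine le_of_eq ?_
        congr 2
        simp [hs]
      · rw [norm_qpow hq]
        refine le_of_eq ?_
        congr 1
        simp [hs]
  have F4 : OnLine σ x0 X1 (fun s _ => (S.GG (g * p) (2 - s))⁻¹) := by
    refine OnLine.of_fst (f := fun s => (S.GG (g * p) (2 - s))⁻¹) ?_ ?_
    · have hre : ∀ y : ℝ, (2 - ((σ : ℂ) + y * Complex.I)).re < 1 / 2 := by
        intro y
        simp only [Complex.sub_re, Complex.re_ofNat, line_re]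
        rw [hσ]
        linarith
      refine Continuous.inv₀ ?_ fun y => (hinv _ (line_re σ y)).1
      rw [continuous_iff_continuousAt]
      intro y
      have hopen : IsOpen {s : ℂ | s.re < 1 / 2} := isOpen_lt Complex.continuous_re continuous_const
      have h1 : ContinuousAt (S.GG (g * p)) (2 - ((σ : ℂ) + y * Complex.I)) :=
        ((hG.GG_diff (g * p)).differentiableAt (hopen.mem_nhds (hre y))).continuousAt
      have h2 : ContinuousAt (fun y : ℝ => (2 : ℂ) - ((σ : ℂ) + y * Complex.I)) y :=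
        (continuous_const.sub (line_cont σ)).continuousAt
      exact ContinuousAt.comp (f := fun y : ℝ => (2 : ℂ) - ((σ : ℂ) + y * Complex.I))
        (g := S.GG (g * p)) h1 h2
    · exact ⟨A1, C1, hA1, hC1, fun s hs => (hinv s hs).2⟩
  have F5 : OnLine σ x0 X1 (fun s t => r1 q (ww s t)) := by
    obtain ⟨A, C, hA, hC, hb⟩ := r1_bd hq (x0 - σ + 1 / 2) (X1 - σ + 1 / 2)
    exact OnLine.of_ww (f := r1 q) (le_refl _) (le_refl _) (r1_diff hq).differentiableOn
      ⟨A, C, hA, hC, fun w h1 h2 => hb w h1.le h2.le⟩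
  have F6 : OnLine σ x0 X1 (fun s t => r1 q (wp s t)) := by
    obtain ⟨A, C, hA, hC, hb⟩ := r1_bd hq (x0 + σ - 3 / 2) (X1 + σ - 3 / 2)
    exact OnLine.of_wp (f := r1 q) (le_refl _) (le_refl _) (r1_diff hq).differentiableOn
      ⟨A, C, hA, hC, fun w h1 h2 => hb w h1.le h2.le⟩
  obtain ⟨A2, C2, hA2, hC2, hEb⟩ := hE2
  have hσ2 : 3 / 2 < σ := by rw [hσ]; linarith
  have F7 : OnLine σ x0 X1 E := by
    refine OnLine.of_hol hE1 (fun s t hs h1 h2 => ?_) ⟨A2, C2, hA2, hC2, fun s t hs h1 h2 => ?_⟩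
    · exact ⟨by simp only [hs]; linarith, by simp only [hs]; linarith, h1, h2⟩
    · exact hEb s t (by rw [hs]; linarith) (by rw [hs]; linarith) h1 h2
  have F8 : OnLine σ x0 X1 (fun s t => E (2 - s) t) := by
    refine OnLine.of_refl hE1 (fun s t hs h1 h2 => ?_) ⟨A2, C2, hA2, hC2, fun s t hs h1 h2 => ?_⟩
    · exact ⟨by simp only [hs]; linarith, by simp only [hs]; linarith, h1, h2⟩
    · exact hEb s t (by rw [hs]; linarith) (by rw [hs]; linarith) h1 h2
  refine ⟨fun s t => (((q : ℂ) ^ t)⁻¹ * (dd q s)⁻¹) *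
    (((r1 q (ww s t) * kap2 q lam s) * E (2 - s) t) * (S.GG (g * p) (2 - s))⁻¹ -
      (r1 q (wp s t) * kap2 q lam s) * E s t), ?_, ?_⟩
  · rw [← hσ]
    exact (F1.mul F2).mul ((((F5.mul F3).mul F8).mul F4).sub ((F6.mul F3).mul F7))
  · intro s t hs ht h1 h2
    rw [← hσ] at hs
    have e1 : E s t = K1f S Y e p q g s t :=
      hE3 s t (by rw [hs]; linarith) (by rw [hs]; linarith) ht h2 h1
    have h2re : (2 - s).re = 2 - σ := by simp [hs]
    have e2 : E (2 - s) t = K1f S Y e p q g (2 - s) t :=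
      hE3 (2 - s) t (by rw [h2re]; linarith) (by rw [h2re]; linarith) ht h2 h1
    have e3 := solve_id hL hY hg s t (by rw [hs]; exact hσ2) ht (hinv s hs).1
    have hd : dd q s ≠ 0 := by
      intro h0
      have h3 := dd_norm hq hn3 (s := s) (by rw [hs, hσ])
      rw [h0, norm_zero] at h3
      linarith
    have ht0 : (q : ℂ) ^ t ≠ 0 := (Complex.cpow_ne_zero_iff).2 (Or.inl hq0)
    show (((q : ℂ) ^ t)⁻¹ * (dd q s)⁻¹) *
      (((r1 q (ww s t) * kap2 q lam s) * E (2 - s) t) * (S.GG (g * p) (2 - s))⁻¹ -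
        (r1 q (wp s t) * kap2 q lam s) * E s t) = _
    rw [e1, e2, e3, dfac_dd]
    field_simp

end Pool.Agent.LD
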