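import Pool.Agent.LD.A.Defs

/-!
# LD-UtilP: calculus of `PB`

Sums, products, restrictions and compositions of functions of polynomial growth.
-/

namespace Pool.Agent.LD

open Pool.Agent.QD

private theorem up_one_le (s t : ℂ) : 1 ≤ 1 + |s.im| + |t.im| := by
  have h1 := abs_nonneg s.im
  have h2 := abs_nonneg t.im
  linarith

private theorem up_mono {X C A B : ℝ} (hX : 1 ≤ X) (hC : 0 ≤ C) (hAB : A ≤ B) :
    C * X ^ A ≤ C * X ^ B :=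
  mul_le_mul_of_nonneg_left (Real.rpow_le_rpow_of_exponent_le hX hAB) hC

theorem PB.add {f g : ℂ → ℂ → ℂ} {a b c d : ℝ} (hf : PB f a b c d) (hg : PB g a b c d) :
    PB (fun s t => f s t + g s t) a b c d := by
  obtain ⟨A1, C1, hA1, hC1, h1⟩ := hf
  obtain ⟨A2, C2, hA2, hC2, h2⟩ := hg
  refine ⟨A1 + A2, C1 + C2, by positivity, by positivity, fun s t h3 h4 h5 h6 => ?_⟩
  have hX := up_one_le s t
  have e1 := (h1 s t h3 h4 h5 h6).trans (up_mono hX hC1 (by linarith : A1 ≤ A1 + A2))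
  have e2 := (h2 s t h3 h4 h5 h6).trans (up_mono hX hC2 (by linarith : A2 ≤ A1 + A2))
  calc ‖f s t + g s t‖ ≤ ‖f s t‖ + ‖g s t‖ := norm_add_le _ _
    _ ≤ C1 * (1 + |s.im| + |t.im|) ^ (A1 + A2) + C2 * (1 + |s.im| + |t.im|) ^ (A1 + A2) :=
        add_le_add e1 e2
    _ = (C1 + C2) * (1 + |s.im| + |t.im|) ^ (A1 + A2) := by ring

theorem PB.sub {f g : ℂ → ℂ → ℂ} {a b c d : ℝ} (hf : PB f a b c d) (hg : PB g a b c d) :
    PB (fun s t => f s t - g s t) a b c d := by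
  obtain ⟨A1, C1, hA1, hC1, h1⟩ := hf
  obtain ⟨A2, C2, hA2, hC2, h2⟩ := hg
  refine ⟨A1 + A2, C1 + C2, by positivity, by positivity, fun s t h3 h4 h5 h6 => ?_⟩
  have hX := up_one_le s t
  have e1 := (h1 s t h3 h4 h5 h6).trans (up_mono hX hC1 (by linarith : A1 ≤ A1 + A2))
  have e2 := (h2 s t h3 h4 h5 h6).trans (up_mono hX hC2 (by linarith : A2 ≤ A1 + A2))
  calc ‖f s t - g s t‖ ≤ ‖f s t‖ + ‖g s t‖ := norm_sub_le _ _
    _ ≤ C1 * (1 + |s.im| + |t.im|) ^ (A1 + A2) + C2 * (1 + |s.im| + |t.im|) ^ (A1 + A2) :=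
        add_le_add e1 e2
    _ = (C1 + C2) * (1 + |s.im| + |t.im|) ^ (A1 + A2) := by ring

theorem PB.mul {f g : ℂ → ℂ → ℂ} {a b c d : ℝ} (hf : PB f a b c d) (hg : PB g a b c d) :
    PB (fun s t => f s t * g s t) a b c d := by
  obtain ⟨A1, C1, hA1, hC1, h1⟩ := hf
  obtain ⟨A2, C2, hA2, hC2, h2⟩ := hg
  refine ⟨A1 + A2, C1 * C2, by positivity, by positivity, fun s t h3 h4 h5 h6 => ?_⟩
  have hX := up_one_le s t
  have hX0 : 0 < 1 + |s.im| + |t.im| := lt_of_lt_of_le one_pos hX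
  calc ‖f s t * g s t‖ = ‖f s t‖ * ‖g s t‖ := norm_mul _ _
    _ ≤ (C1 * (1 + |s.im| + |t.im|) ^ A1) * (C2 * (1 + |s.im| + |t.im|) ^ A2) :=
        mul_le_mul (h1 s t h3 h4 h5 h6) (h2 s t h3 h4 h5 h6) (norm_nonneg _)
          (mul_nonneg hC1 (Real.rpow_nonneg hX0.le _))
    _ = C1 * C2 * (1 + |s.im| + |t.im|) ^ (A1 + A2) := by
        rw [Real.rpow_add hX0]
        ring

theorem PB.sum {ι : Type} (s : Finset ι) {f : ι → ℂ → ℂ → ℂ} {a b c d : ℝ}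
    (h : ∀ i ∈ s, PB (f i) a b c d) : PB (fun x y => ∑ i ∈ s, f i x y) a b c d := by
  classical
  induction s using Finset.induction_on with
  | empty => exact ⟨0, 0, le_rfl, le_rfl, fun s t _ _ _ _ => by simp⟩
  | insert i s hi ih =>
    have h1 := (h i (Finset.mem_insert_self i s)).add
      (ih fun j hj => h j (Finset.mem_insert_of_mem hj))
    have h2 : (fun x y => ∑ j ∈ insert i s, f j x y) =
        fun x y => f i x y + ∑ j ∈ s, f j x y := by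
      funext x y
      exact Finset.sum_insert hi
    rw [h2]
    exact h1

theorem PB.of_bdd {f : ℂ → ℂ → ℂ} {a b c d : ℝ}
    (h : ∃ C : ℝ, ∀ s t : ℂ, a ≤ s.re → s.re ≤ b → c ≤ t.re → t.re ≤ d → ‖f s t‖ ≤ C) :
    PB f a b c d := by
  obtain ⟨C, hC⟩ := h
  refine ⟨0, max C 0, le_rfl, le_max_right _ _, fun s t h3 h4 h5 h6 => ?_⟩
  rw [Real.rpow_zero, mul_one]
  exact (hC s t h3 h4 h5 h6).trans (le_max_left _ _)

theorem PB.mono {f : ℂ → ℂ → ℂ} {a b c d a' b' c' d' : ℝ} (h : PB f a b c d) (ha : a ≤ a')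
    (hb : b' ≤ b) (hc : c ≤ c') (hd : d' ≤ d) : PB f a' b' c' d' := by
  obtain ⟨A, C, hA, hC, h1⟩ := h
  exact ⟨A, C, hA, hC, fun s t h3 h4 h5 h6 =>
    h1 s t (ha.trans h3) (h4.trans hb) (hc.trans h5) (h6.trans hd)⟩

theorem PB.congr {f g : ℂ → ℂ → ℂ} {a b c d : ℝ} (h : PB g a b c d)
    (hfg : ∀ s t : ℂ, a ≤ s.re → s.re ≤ b → c ≤ t.re → t.re ≤ d → f s t = g s t) :
    PB f a b c d := by
  obtain ⟨A, C, hA, hC, h1⟩ := h
  refine ⟨A, C, hA, hC, fun s t h3 h4 h5 h6 => ?_⟩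
  rw [hfg s t h3 h4 h5 h6]
  exact h1 s t h3 h4 h5 h6

/-- exchange of the variables -/
theorem PB.swap {f : ℂ → ℂ → ℂ} {a b c d : ℝ} (h : PB f a b c d) :
    PB (fun s t => f t s) c d a b := by
  obtain ⟨A, C, hA, hC, h1⟩ := h
  refine ⟨A, C, hA, hC, fun s t h3 h4 h5 h6 => ?_⟩
  have h2 := h1 t s h5 h6 h3 h4
  rwa [show 1 + |t.im| + |s.im| = 1 + |s.im| + |t.im| by ring] at h2

/-- reflection -/
theorem PB.refl2 {f : ℂ → ℂ → ℂ} {a b c d : ℝ} (h : PB f a b c d) :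
    PB (fun s t => f (2 - s) t) (2 - b) (2 - a) c d := by
  obtain ⟨A, C, hA, hC, h1⟩ := h
  refine ⟨A, C, hA, hC, fun s t h3 h4 h5 h6 => ?_⟩
  have hre : (2 - s).re = 2 - s.re := by simp
  have him : |(2 - s).im| = |s.im| := by simp
  have h2 := h1 (2 - s) t (by rw [hre]; linarith) (by rw [hre]; linarith) h5 h6
  rwa [him] at h2

private theorem up_comp {f : ℂ → ℂ} {x y a b c d : ℝ} {w : ℂ → ℂ → ℂ}
    (h : ∃ A C : ℝ, 0 ≤ A ∧ 0 ≤ C ∧ ∀ w : ℂ,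
      x ≤ w.re → w.re ≤ y → ‖f w‖ ≤ C * (1 + |w.im|) ^ A)
    (hx : ∀ s t : ℂ, a ≤ s.re → s.re ≤ b → c ≤ t.re → t.re ≤ d →
      x ≤ (w s t).re ∧ (w s t).re ≤ y ∧ |(w s t).im| ≤ |s.im| + |t.im|) :
    PB (fun s t => f (w s t)) a b c d := by
  obtain ⟨A, C, hA, hC, h1⟩ := h
  refine ⟨A, C, hA, hC, fun s t h3 h4 h5 h6 => ?_⟩
  obtain ⟨h7, h8, h9⟩ := hx s t h3 h4 h5 h6
  refine (h1 _ h7 h8).trans (mul_le_mul_of_nonneg_left ?_ hC)
  exact Real.rpow_le_rpow (by positivity) (by linarith) hA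

/-- functions of `w = t - s + 1/2` -/
theorem PB.comp_ww {f : ℂ → ℂ} {x y a b c d : ℝ} (h : ∃ A C : ℝ, 0 ≤ A ∧ 0 ≤ C ∧ ∀ w : ℂ,
    x ≤ w.re → w.re ≤ y → ‖f w‖ ≤ C * (1 + |w.im|) ^ A) (h1 : x ≤ c - b + 1 / 2)
    (h2 : d - a + 1 / 2 ≤ y) : PB (fun s t => f (ww s t)) a b c d := by
  refine up_comp h fun s t h3 h4 h5 h6 => ?_
  have hre : (ww s t).re = t.re - s.re + 1 / 2 := by simp [ww]
  have him : (ww s t).im = t.im - s.im := by simp [ww]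
  refine ⟨by rw [hre]; linarith, by rw [hre]; linarith, ?_⟩
  rw [him]
  exact (abs_sub _ _).trans (by rw [add_comm])

/-- functions of `w' = t + s - 3/2` -/
theorem PB.comp_wp {f : ℂ → ℂ} {x y a b c d : ℝ} (h : ∃ A C : ℝ, 0 ≤ A ∧ 0 ≤ C ∧ ∀ w : ℂ,
    x ≤ w.re → w.re ≤ y → ‖f w‖ ≤ C * (1 + |w.im|) ^ A) (h1 : x ≤ a + c - 3 / 2)
    (h2 : b + d - 3 / 2 ≤ y) : PB (fun s t => f (wp s t)) a b c d := by
  refine up_comp h fun s t h3 h4 h5 h6 => ?_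
  have hre : (wp s t).re = t.re + s.re - 3 / 2 := by simp [wp]
  have him : (wp s t).im = t.im + s.im := by simp [wp]
  refine ⟨by rw [hre]; linarith, by rw [hre]; linarith, ?_⟩
  rw [him]
  exact (abs_add_le _ _).trans (by rw [add_comm])

/-- functions of `s` -/
theorem PB.comp_fst {f : ℂ → ℂ} {a b : ℝ} (c d : ℝ) (h : ∃ A C : ℝ, 0 ≤ A ∧ 0 ≤ C ∧ ∀ w : ℂ,
    a ≤ w.re → w.re ≤ b → ‖f w‖ ≤ C * (1 + |w.im|) ^ A) : PB (fun s _ => f s) a b c d := by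
  refine up_comp (w := fun s _ => s) h fun s t h3 h4 h5 h6 => ⟨h3, h4, ?_⟩
  have := abs_nonneg t.im
  linarith

/-- functions of `t` -/
theorem PB.comp_snd {f : ℂ → ℂ} {c d : ℝ} (a b : ℝ) (h : ∃ A C : ℝ, 0 ≤ A ∧ 0 ≤ C ∧ ∀ w : ℂ,
    c ≤ w.re → w.re ≤ d → ‖f w‖ ≤ C * (1 + |w.im|) ^ A) : PB (fun _ t => f t) a b c d := by
  refine up_comp (w := fun _ t => t) h fun s t h3 h4 h5 h6 => ⟨h5, h6, ?_⟩
  have := abs_nonneg s.im
  linarith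

private theorem up_abs_re {x y r : ℝ} (h1 : x ≤ r) (h2 : r ≤ y) : |r| ≤ |x| + |y| := by
  rw [abs_le]
  have h3 := neg_abs_le x
  have h4 := le_abs_self y
  have h5 := abs_nonneg x
  have h6 := abs_nonneg y
  constructor <;> linarith

/-- powers of a linear function -/
theorem lin_pow_bd (k : ℕ) (z0 : ℂ) (x y : ℝ) : ∃ A C : ℝ, 0 ≤ A ∧ 0 ≤ C ∧ ∀ w : ℂ,
    x ≤ w.re → w.re ≤ y → ‖(w - z0) ^ k‖ ≤ C * (1 + |w.im|) ^ A := by
  refine ⟨k, (|x| + |y| + ‖z0‖ + 1) ^ k, by positivity, by positivity, fun w h1 h2 => ?_⟩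
  have h3 : |w.re| ≤ |x| + |y| := up_abs_re h1 h2
  have h4 : ‖w - z0‖ ≤ (|x| + |y| + ‖z0‖ + 1) * (1 + |w.im|) := by
    have h5 : ‖w‖ ≤ |w.re| + |w.im| := Complex.norm_le_abs_re_add_abs_im w
    have h6 : ‖w - z0‖ ≤ ‖w‖ + ‖z0‖ := norm_sub_le _ _
    have h7 : 0 ≤ (|x| + |y| + ‖z0‖) * |w.im| := by positivity
    nlinarith
  rw [norm_pow, Real.rpow_natCast, ← mul_pow]
  exact pow_le_pow_left₀ (norm_nonneg _) h4 k

/-- exponential functions are bounded in strips -/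
theorem cpow_bd {q : ℕ} (hq : q ≠ 0) (α β : ℝ) (x y : ℝ) : ∃ A C : ℝ, 0 ≤ A ∧ 0 ≤ C ∧ ∀ w : ℂ,
    x ≤ w.re → w.re ≤ y → ‖(q : ℂ) ^ ((α : ℂ) * w + (β : ℂ))‖ ≤ C * (1 + |w.im|) ^ A := by
  refine ⟨0, (q : ℝ) ^ (|α| * (|x| + |y|) + |β|), le_rfl, by positivity, fun w h1 h2 => ?_⟩
  have h3 : |w.re| ≤ |x| + |y| := up_abs_re h1 h2
  have hq1 : (1 : ℝ) ≤ q := by exact_mod_cast Nat.one_le_iff_ne_zero.2 hq
  rw [Real.rpow_zero, mul_one, Complex.norm_natCast_cpow_of_pos (Nat.pos_of_ne_zero hq)]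
  apply Real.rpow_le_rpow_of_exponent_le hq1
  have h4 : ((α : ℂ) * w + (β : ℂ)).re = α * w.re + β := by simp
  rw [h4]
  have h5 : α * w.re ≤ |α| * (|x| + |y|) := by
    calc α * w.re ≤ |α * w.re| := le_abs_self _
      _ = |α| * |w.re| := abs_mul _ _
      _ ≤ |α| * (|x| + |y|) := mul_le_mul_of_nonneg_left h3 (abs_nonneg _)
  have h6 := le_abs_self β
  linarith

end Pool.Agent.LD
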