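import Pool.Agent.LD.A.Defs

/-!
# LD-UtilH: calculus of `Hol2`

PLAN. Everything is immediate from the definitions.  `Hol2.congr`: in an open set `U`, near `z` the functions agree
(`Filter.EventuallyEq.differentiableAt_iff`, continuity of `z ↦ (σ z, τ z)`).
-/

namespace Pool.Agent.LD

open Pool.Agent.QD

theorem Hol2.mono {U V : Set (ℂ × ℂ)} {f : ℂ → ℂ → ℂ} (h : Hol2 U f) (hVU : V ⊆ U) : Hol2 V f :=
  fun σ τ hσ hτ z hz => h σ τ hσ hτ z (hVU hz)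

theorem Hol2.union {U V : Set (ℂ × ℂ)} {f : ℂ → ℂ → ℂ} (h : Hol2 U f) (h' : Hol2 V f) :
    Hol2 (U ∪ V) f := by
  intro σ τ hσ hτ z hz
  rcases hz with hz | hz
  · exact h σ τ hσ hτ z hz
  · exact h' σ τ hσ hτ z hz

theorem Hol2.congr {U : Set (ℂ × ℂ)} (hU : IsOpen U) {f g : ℂ → ℂ → ℂ} (h : Hol2 U g)
    (hfg : ∀ x ∈ U, f x.1 x.2 = g x.1 x.2) : Hol2 U f := by
  intro σ τ hσ hτ z hz
  refine (h σ τ hσ hτ z hz).congr_of_eventuallyEq ?_
  have hc : Continuous fun z => (σ z, τ z) := hσ.continuous.prodMk hτ.continuous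
  have h1 : ∀ᶠ x in nhds z, (σ x, τ x) ∈ U := hc.continuousAt.eventually (hU.mem_nhds hz)
  exact h1.mono fun x hx => hfg _ hx

theorem Hol2.add {U : Set (ℂ × ℂ)} {f g : ℂ → ℂ → ℂ} (hf : Hol2 U f) (hg : Hol2 U g) :
    Hol2 U (fun s t => f s t + g s t) :=
  fun σ τ hσ hτ z hz => (hf σ τ hσ hτ z hz).fun_add (hg σ τ hσ hτ z hz)

theorem Hol2.sub {U : Set (ℂ × ℂ)} {f g : ℂ → ℂ → ℂ} (hf : Hol2 U f) (hg : Hol2 U g) :
    Hol2 U (fun s t => f s t - g s t) :=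
  fun σ τ hσ hτ z hz => (hf σ τ hσ hτ z hz).fun_sub (hg σ τ hσ hτ z hz)

theorem Hol2.mul {U : Set (ℂ × ℂ)} {f g : ℂ → ℂ → ℂ} (hf : Hol2 U f) (hg : Hol2 U g) :
    Hol2 U (fun s t => f s t * g s t) :=
  fun σ τ hσ hτ z hz => (hf σ τ hσ hτ z hz).fun_mul (hg σ τ hσ hτ z hz)

theorem Hol2.const (U : Set (ℂ × ℂ)) (c : ℂ) : Hol2 U (fun _ _ => c) :=
  fun _ _ _ _ _ _ => differentiableAt_const c

theorem Hol2.sum {U : Set (ℂ × ℂ)} {ι : Type} (s : Finset ι) {f : ι → ℂ → ℂ → ℂ}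
    (h : ∀ i ∈ s, Hol2 U (f i)) : Hol2 U (fun x y => ∑ i ∈ s, f i x y) :=
  fun σ τ hσ hτ z hz => DifferentiableAt.fun_sum fun i hi => h i hi σ τ hσ hτ z hz

/-- substitution of functions which are holomorphic along all curves -/
theorem Hol2.comp {U : Set (ℂ × ℂ)} {f : ℂ → ℂ → ℂ} (h : Hol2 U f) {α β : ℂ → ℂ → ℂ}
    (hα : Hol2 Set.univ α) (hβ : Hol2 Set.univ β) :
    Hol2 {x | (α x.1 x.2, β x.1 x.2) ∈ U} (fun s t => f (α s t) (β s t)) :=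
  fun σ τ hσ hτ z hz => h (fun z => α (σ z) (τ z)) (fun z => β (σ z) (τ z))
    (fun z => hα σ τ hσ hτ z (Set.mem_univ _)) (fun z => hβ σ τ hσ hτ z (Set.mem_univ _)) z hz

/-- composition with a function of one variable -/
theorem Hol2.comp1 {V : Set ℂ} (hV : IsOpen V) {f : ℂ → ℂ} (h : DifferentiableOn ℂ f V)
    {α : ℂ → ℂ → ℂ} (hα : Hol2 Set.univ α) :
    Hol2 {x | α x.1 x.2 ∈ V} (fun s t => f (α s t)) := by
  intro σ τ hσ hτ z hz
  have h1 : DifferentiableAt ℂ f (α (σ z) (τ z)) := h.differentiableAt (hV.mem_nhds hz)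
  exact DifferentiableAt.fun_comp' z h1 (hα σ τ hσ hτ z (Set.mem_univ _))

theorem hol2_fst : Hol2 Set.univ (fun s _ => s) := fun _ _ hσ _ z _ => hσ z

theorem hol2_snd : Hol2 Set.univ (fun _ t => t) := fun _ _ _ hτ z _ => hτ z

theorem hol2_ww : Hol2 Set.univ ww := by
  have h := (hol2_snd.sub hol2_fst).add (Hol2.const Set.univ (1 / 2))
  exact h

theorem hol2_wp : Hol2 Set.univ wp := by
  have h := (hol2_snd.add hol2_fst).sub (Hol2.const Set.univ (3 / 2))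
  exact h

end Pool.Agent.LD
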